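import Pool.Agent.Lib.MP_640417_ag.Four.Defs
import Pool.Agent.Lib.MP_640417_ag.Glob.Joint
import Pool.Agent.Lib.MP_640417_ag.Glob.Five

/-!
# MP_640417_ag, Ty (abelian varieties without factors of type III and IV): definitions

`K` is an algebraic closure of `F`.
-/

set_option autoImplicit false

namespace Pool.Agent.Lib.MP_640417_ag.Ty

open Matrix Module TensorProduct Pool.Agent.Lib.MP_640417_ag Pool.Agent.Lib.MP_640417_ag.Frob
  Pool.Agent.Lib.MP_640417_ag.Four Pool.Agent.Lib.MP_640417_ag.Glob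

section rep

variable {Γ : Type} [Group Γ] [TopologicalSpace Γ] {F : Type} [Field F] [TopologicalSpace F]
  {V : Type} [AddCommGroup V] [Module F V]

/-- `c` commutes with an open subgroup. -/
def CommF (ρ : H1Rep Γ F V) (c : Module.End F V) : Prop :=
  ∃ U : OpenSubgroup Γ, ∀ γ ∈ U, c * ρ.T γ = ρ.T γ * c

/-- The endomorphism `c` of `K ⊗ V` commutes with an open subgroup. -/
def CommK (ρ : H1Rep Γ F V) (c : Module.End (AlgebraicClosure F) (AlgebraicClosure F ⊗[F] V)) :
    Prop :=
  ∃ U : OpenSubgroup Γ, ∀ γ ∈ U, c * (ρ.T γ).baseChange (AlgebraicClosure F) =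
    (ρ.T γ).baseChange (AlgebraicClosure F) * c

/-- The commutant has a self-adjoint element `s` with squarefree minimal polynomial such that
everything in the commutant which commutes with `s` is a polynomial in `s`. (For an abelian variety this
excludes exactly the factors of type III and IV.) -/
def RealType (ρ : H1Rep Γ F V) : Prop :=
  ∃ s : Module.End F V, CommF ρ s ∧ (∀ x y, ρ.form (s x) y = ρ.form x (s y)) ∧
    Squarefree (minpoly F s) ∧
    ∀ c : Module.End F V, CommF ρ c → c * s = s * c → c ∈ Algebra.adjoin F {s}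

/-- The restriction to an open subgroup. -/
def res (ρ : H1Rep Γ F V) (U : OpenSubgroup Γ) : H1Rep U F V where
  T := ρ.T.comp U.toSubgroup.subtype
  χ := ρ.χ.comp U.toSubgroup.subtype
  continuous_coeff f x := (ρ.continuous_coeff f x).comp continuous_subtype_val
  form := ρ.form
  form_alt := ρ.form_alt
  form_nondeg := ρ.form_nondeg
  form_equivariant γ x y := ρ.form_equivariant γ x y

/-- The commutant acts irreducibly on the generalized eigenspace of `z`, and `z` occurs in no nontrivial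
relation between four eigenvalues. -/
def IsoTy (ρ : H1Rep Γ F V) (γ : Γ) (z : AlgebraicClosure F) : Prop :=
  (∀ N : Submodule (AlgebraicClosure F) (AlgebraicClosure F ⊗[F] V),
    N ≤ Module.End.maxGenEigenspace ((ρ.T γ).baseChange (AlgebraicClosure F)) z →
    (∀ c, CommF ρ c → ∀ y ∈ N, c.baseChange (AlgebraicClosure F) y ∈ N) →
    N = ⊥ ∨ N = Module.End.maxGenEigenspace ((ρ.T γ).baseChange (AlgebraicClosure F)) z) ∧
  ∀ z₂ z₃ z₄ : AlgebraicClosure F,
    Module.End.HasEigenvalue ((ρ.T γ).baseChange (AlgebraicClosure F)) z₂ →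
    Module.End.HasEigenvalue ((ρ.T γ).baseChange (AlgebraicClosure F)) z₃ →
    Module.End.HasEigenvalue ((ρ.T γ).baseChange (AlgebraicClosure F)) z₄ → ∀ N : ℕ, 0 < N →
    (z * z₂ * z₃ * z₄) ^ N = (algebraMap F (AlgebraicClosure F) ((ρ.χ γ)⁻¹ : Fˣ).val) ^ (2 * N) →
      z * z₂ = algebraMap F (AlgebraicClosure F) ((ρ.χ γ)⁻¹ : Fˣ).val ∨
      z * z₃ = algebraMap F (AlgebraicClosure F) ((ρ.χ γ)⁻¹ : Fˣ).val ∨
      z * z₄ = algebraMap F (AlgebraicClosure F) ((ρ.χ γ)⁻¹ : Fˣ).val

/-- `γ` commutes with the commutant, and all its eigenvalues are isolated. -/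
def GoodTy (ρ : H1Rep Γ F V) (γ : Γ) : Prop :=
  (∀ c, CommF ρ c → c * ρ.T γ = ρ.T γ * c) ∧
  ∀ z : AlgebraicClosure F,
    Module.End.HasEigenvalue ((ρ.T γ).baseChange (AlgebraicClosure F)) z → IsoTy ρ γ z

/-- `γ` is semisimple and commutes with the commutant, and an element of the commutant over `K` is
zero if it vanishes on all isolated eigenspaces. -/
def DetectsTy (ρ : H1Rep Γ F V) (γ : Γ) : Prop :=
  (∀ c, CommF ρ c → c * ρ.T γ = ρ.T γ * c) ∧ (ρ.T γ).IsSemisimple ∧
  ∀ c, CommK ρ c → (∀ z : AlgebraicClosure F, IsoTy ρ γ z →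
    ∀ y ∈ Module.End.eigenspace ((ρ.T γ).baseChange (AlgebraicClosure F)) z, c y = 0) → c = 0

end rep

section mat

variable {Γ : Type} [Group Γ] [TopologicalSpace Γ] {F : Type} [NontriviallyNormedField F]
  {I : Type} [Fintype I] [DecidableEq I]

/-- `c` commutes with an open subgroup, over an extension field. -/
def InCK (ρ : MRep Γ F I) (K : Type) [Field K] [Algebra F K] (c : Matrix I I K) : Prop :=
  ∃ U : OpenSubgroup Γ, ∀ γ ∈ U, (ρ.M γ).map (algebraMap F K) * c =
    c * (ρ.M γ).map (algebraMap F K)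

/-- Everything which commutes with an open subgroup commutes with all `M γ`. -/
def Full0 (ρ : MRep Γ F I) : Prop := ∀ b, ρ.InC b → ∀ γ, ρ.M γ * b = b * ρ.M γ

/-- `RealType` in coordinates -/
def RealM (ρ : MRep Γ F I) : Prop :=
  ∃ s, ρ.InC s ∧ sᵀ * ρ.J = ρ.J * s ∧ Squarefree (minpoly F s) ∧
    ∀ c, ρ.InC c → c * s = s * c → c ∈ Algebra.adjoin F {s}

/-- The index `i` belongs to the block `blk bl i`. -/
def blk {m n : ℕ} (bl : Fin m → Fin n) : Fin m ⊕ Fin m → Fin n := Sum.elim bl bl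

/-- The direct sum `W` of one copy of each irreducible constituent, with a symplectic basis. -/
structure Pack (ρ : MRep Γ F I) (K : Type) [Field K] [Algebra F K] where
  /-- half the dimension of `W` -/
  m : ℕ
  /-- the number of summands -/
  n : ℕ
  /-- the block of a basis vector -/
  bl : Fin m → Fin n
  /-- the inclusion of `W` -/
  ι : Matrix I (Fin m ⊕ Fin m) K
  /-- the projection to `W` -/
  π : Matrix (Fin m ⊕ Fin m) I K
  πι : π * ι = 1
  form : ιᵀ * ρ.J.map (algebraMap F K) * ι = Matrix.of (om K)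
  sym : (ι * π)ᵀ * ρ.J.map (algebraMap F K) = ρ.J.map (algebraMap F K) * (ι * π)
  inC : InCK ρ K (ι * π)
  inCb : ∀ b, InCK ρ K (ι * Matrix.diagonal (fun a => if blk bl a = b then (1 : K) else 0) * π)
  comm : ∀ c, InCK ρ K c → ∃ w : Fin n → K, π * c * ι = Matrix.diagonal fun a => w (blk bl a)
  /-- the maps to `W` -/
  i : Fin n → Matrix (Fin m ⊕ Fin m) I K
  /-- the maps from `W` -/
  q : Fin n → Matrix I (Fin m ⊕ Fin m) K
  sum : ∑ j, q j * i j = 1
  iC : ∀ j, InCK ρ K (ι * i j)
  qC : ∀ j, InCK ρ K (q j * π)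
  qi : ∀ j k, InCK ρ K (q j * i k)
  /-- a generic element of the centralizer of the commutant -/
  X0 : Matrix I I K
  X0s : X0ᵀ * ρ.J.map (algebraMap F K) + ρ.J.map (algebraMap F K) * X0 = 0
  X0c : ∀ c, InCK ρ K c → X0 * c = c * X0
  X0d : π * X0 * ι = Matrix.diagonal (zz K)

end mat

end Pool.Agent.Lib.MP_640417_ag.Ty
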