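import Pool.Agent.Lib.MP_640417_ag.Glob.Defs

/-!
# MP_640417_ag, Ty, module OpenK (130 lines): polynomial functions with values in an extension field

* `open_ne`: the zero set of `p ∈ MvPolynomial κ K` on `F`-points is closed: for a linear map `λ : K → F` let `p_λ` be the
  polynomial over `F` with the coefficients `λ (a_m)`; `p (y) = 0` if and only if `p_λ (y) = 0` for all `λ`
  (`λ (p (y)) = p_λ (y)` as the monomials of `y` are in `F`; linear maps `K → F` separate the points of `K`, e.g. the
  coordinates of a basis). Polynomial functions over `F` are continuous (`MvPolynomial.continuous_eval`).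
* `open_f1`, `open_coeff`: evaluate the generic matrix: over `R = MvPolynomial (κ × κ) K` take
  `(π.map C) * (Matrix.of fun i j => X (i, j)) * (ι.map C)`; ring homomorphisms commute with `charpoly`
  (`Matrix.charpoly_map`), `coeff`, `det`, `aeval` (for `f1` see `f1_map` in `Glob/FTwo.lean`).
-/

set_option autoImplicit false

namespace Pool.Agent.Lib.MP_640417_ag.Ty

open Matrix Pool.Agent.Lib.MP_640417_ag.Glob

variable {F : Type} [NontriviallyNormedField F] {K : Type} [Field K] [Algebra F K]

/-- the polynomial with the coefficients `lam (a_m)` -/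
private noncomputable def cmap {κ : Type} (lam : K →ₗ[F] F) (p : MvPolynomial κ K) :
    MvPolynomial κ F :=
  ∑ m ∈ p.support, MvPolynomial.monomial m (lam (p.coeff m))

private theorem eval_cmap {κ : Type} [Finite κ] (lam : K →ₗ[F] F) (p : MvPolynomial κ K)
    (y : κ → F) :
    MvPolynomial.eval y (cmap lam p) =
      lam (MvPolynomial.eval (fun i => algebraMap F K (y i)) p) := by
  rw [cmap, map_sum, MvPolynomial.eval_eq, map_sum]
  refine Finset.sum_congr rfl fun m _ => ?_
  rw [MvPolynomial.eval_monomial, Finsupp.prod]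
  have h1 : (∏ i ∈ m.support, algebraMap F K (y i) ^ m i) =
      algebraMap F K (∏ i ∈ m.support, y i ^ m i) := by
    rw [map_prod]
    exact Finset.prod_congr rfl fun i _ => (map_pow _ _ _).symm
  rw [h1, mul_comm (p.coeff m), ← Algebra.smul_def, map_smul, smul_eq_mul, mul_comm]

theorem open_ne {κ : Type} [Finite κ] (p : MvPolynomial κ K) :
    IsOpen {y : κ → F | MvPolynomial.eval (fun i => algebraMap F K (y i)) p ≠ 0} := by
  rw [← isClosed_compl_iff]
  have h1 : {y : κ → F | MvPolynomial.eval (fun i => algebraMap F K (y i)) p ≠ 0}ᶜ =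
      ⋂ lam : K →ₗ[F] F, {y : κ → F | MvPolynomial.eval y (cmap lam p) = 0} := by
    ext y
    simp only [Set.mem_compl_iff, Set.mem_ofPred_eq, not_not, Set.mem_iInter, eval_cmap]
    exact (Module.forall_dual_apply_eq_zero_iff F _).symm
  rw [h1]
  refine isClosed_iInter fun lam => ?_
  exact isClosed_singleton.preimage (MvPolynomial.continuous_eval (cmap lam p))

/-- the generic matrix -/
private noncomputable def gen (K : Type) [Field K] (I : Type) :
    Matrix I I (MvPolynomial (I × I) K) :=
  Matrix.of fun i j => MvPolynomial.X (i, j)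

private theorem gen_eval {I A : Type} [Fintype I] [DecidableEq I] [Fintype A] [DecidableEq A]
    (π : Matrix A I K) (ι : Matrix I A K) (Y : Matrix I I F) :
    (π.map (MvPolynomial.C (σ := I × I)) * gen K I * ι.map (MvPolynomial.C (σ := I × I))).map
      (MvPolynomial.eval (fun i : I × I => algebraMap F K (Y i.1 i.2))) =
      π * Y.map (algebraMap F K) * ι := by
  have h1 : π.map (⇑(MvPolynomial.eval (fun i : I × I => algebraMap F K (Y i.1 i.2))) ∘
      ⇑(MvPolynomial.C (σ := I × I))) = π := by
    ext a i
    simp
  have h2 : ι.map (⇑(MvPolynomial.eval (fun i : I × I => algebraMap F K (Y i.1 i.2))) ∘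
      ⇑(MvPolynomial.C (σ := I × I))) = ι := by
    ext a i
    simp
  have h3 : (gen K I).map (MvPolynomial.eval (fun i : I × I => algebraMap F K (Y i.1 i.2))) =
      Y.map (algebraMap F K) := by
    ext i j
    simp [gen]
  rw [Matrix.map_mul, Matrix.map_mul, Matrix.map_map, Matrix.map_map, h1, h2, h3]

private theorem open_of_poly {I : Type} [Fintype I] (p : MvPolynomial (I × I) K)
    (S : Set (Matrix I I F))
    (hS : ∀ Y : Matrix I I F, Y ∈ S ↔
      MvPolynomial.eval (fun i : I × I => algebraMap F K (Y i.1 i.2)) p ≠ 0) : IsOpen S := by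
  have h1 : S = (fun Y : Matrix I I F => fun i : I × I => Y i.1 i.2) ⁻¹'
      {y : I × I → F | MvPolynomial.eval (fun i => algebraMap F K (y i)) p ≠ 0} := by
    ext Y
    exact hS Y
  rw [h1]
  refine (open_ne p).preimage (continuous_pi fun i => ?_)
  exact continuous_id.matrix_elem i.1 i.2

private theorem f1_map' {R R' : Type} [CommRing R] [CommRing R'] {I : Type} [Fintype I]
    [DecidableEq I] (φ : R →+* R') (X : Matrix I I R) : f1 (X.map φ) = φ (f1 X) := by
  have h : (algebraMap R' (Matrix I I R')).comp φ =
      (RingHom.mapMatrix φ).comp (algebraMap R (Matrix I I R)) := by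
    ext r i j
    simp only [RingHom.comp_apply, RingHom.mapMatrix_apply, Matrix.map_apply,
      Matrix.algebraMap_matrix_apply]
    split_ifs <;> simp
  have h2 := Polynomial.map_aeval_eq_aeval_map h (Polynomial.derivative X.charpoly) X
  rw [f1, f1, Matrix.charpoly_map, Polynomial.derivative_map, RingHom.map_det, h2]
  rfl

theorem open_f1 {I A : Type} [Fintype I] [DecidableEq I] [Fintype A] [DecidableEq A]
    (π : Matrix A I K) (ι : Matrix I A K) :
    IsOpen {Y : Matrix I I F | f1 (π * Y.map (algebraMap F K) * ι) ≠ 0} := by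
  refine open_of_poly (f1 (π.map (MvPolynomial.C (σ := I × I)) * gen K I *
    ι.map (MvPolynomial.C (σ := I × I)))) _ fun Y => ?_
  rw [← f1_map', gen_eval]
  exact Iff.rfl

theorem open_coeff {I A : Type} [Fintype I] [DecidableEq I] [Fintype A] [DecidableEq A]
    (π : Matrix A I K) (ι : Matrix I A K) (m : ℕ) :
    IsOpen {Y : Matrix I I F | (π * Y.map (algebraMap F K) * ι).charpoly.coeff m ≠ 0} := by
  refine open_of_poly ((π.map (MvPolynomial.C (σ := I × I)) * gen K I *
    ι.map (MvPolynomial.C (σ := I × I))).charpoly.coeff m) _ fun Y => ?_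
  rw [← Polynomial.coeff_map, ← Matrix.charpoly_map, gen_eval]
  exact Iff.rfl

end Pool.Agent.Lib.MP_640417_ag.Ty
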