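import Pool.Agent.Lib.MP_640417_ag.Ty.SpanK
import Pool.Agent.Lib.MP_640417_ag.Glob.Coord

/-!
# MP_640417_ag, Ty, module CoordK (130 lines): coordinates for `K ⊗ V`

`Algebra.TensorProduct.basis K b : Basis I K (K ⊗[F] V)`, `b` a basis of `V`. `LinearMap.toMatrix_baseChange` (or compute on the
basis `1 ⊗ b i`): the matrix of `(ρ.T γ).baseChange K` is `(M γ).map`.
* `coK`: the coordinates; `coK_T`, `coK_end`: coordinates of `c y`.
* `commF_iff`, `commK_iff`: multiplicativity and injectivity of `LinearMap.toMatrix`.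
* `real_coord`: `s ↦` its matrix (`LinearMap.toMatrixAlgEquiv b`); symmetric: as `coord_symm` in `Glob/Coord.lean`; the minimal
  polynomial does not change (`minpoly.algEquiv_eq`), `Algebra.adjoin` is mapped to `Algebra.adjoin` (`AlgHom.map_adjoin`).
-/

set_option autoImplicit false

namespace Pool.Agent.Lib.MP_640417_ag.Ty

open Matrix Module TensorProduct Pool.Agent.Lib.MP_640417_ag Pool.Agent.Lib.MP_640417_ag.Frob
  Pool.Agent.Lib.MP_640417_ag.Glob

variable {F : Type} [NontriviallyNormedField F] {I : Type} [Fintype I] [DecidableEq I]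
  {Γ : Type} [Group Γ] [TopologicalSpace Γ] {V : Type} [AddCommGroup V] [Module F V]
  [FiniteDimensional F V]

/-- coordinates of `K ⊗ V` -/
noncomputable def coK (b : Basis I F V) :
    (AlgebraicClosure F ⊗[F] V) ≃ₗ[AlgebraicClosure F] (I → AlgebraicClosure F) :=
  (Algebra.TensorProduct.basis (AlgebraicClosure F) b).equivFun

/-- the matrix of an endomorphism of `K ⊗ V` -/
noncomputable def maK (b : Basis I F V)
    (c : Module.End (AlgebraicClosure F) (AlgebraicClosure F ⊗[F] V)) :
    Matrix I I (AlgebraicClosure F) :=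
  LinearMap.toMatrix (Algebra.TensorProduct.basis (AlgebraicClosure F) b)
    (Algebra.TensorProduct.basis (AlgebraicClosure F) b) c

theorem coK_end (b : Basis I F V)
    (c : Module.End (AlgebraicClosure F) (AlgebraicClosure F ⊗[F] V))
    (y : AlgebraicClosure F ⊗[F] V) : coK b (c y) = maK b c *ᵥ coK b y := by
  exact (LinearMap.toMatrix_mulVec_repr (Algebra.TensorProduct.basis (AlgebraicClosure F) b)
    (Algebra.TensorProduct.basis (AlgebraicClosure F) b) c y).symm

theorem maK_surj (b : Basis I F V) (A : Matrix I I (AlgebraicClosure F)) :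
    ∃ c, maK b c = A := by
  exact ⟨Matrix.toLin (Algebra.TensorProduct.basis (AlgebraicClosure F) b)
    (Algebra.TensorProduct.basis (AlgebraicClosure F) b) A, LinearMap.toMatrix_toLin _ _ A⟩

theorem maK_zero_iff (b : Basis I F V)
    (c : Module.End (AlgebraicClosure F) (AlgebraicClosure F ⊗[F] V)) :
    maK b c = 0 ↔ c = 0 := by
  exact LinearEquiv.map_eq_zero_iff _

private theorem maK_mul (b : Basis I F V)
    (c c' : Module.End (AlgebraicClosure F) (AlgebraicClosure F ⊗[F] V)) :
    maK b (c * c') = maK b c * maK b c' := LinearMap.toMatrix_mul _ c c'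

private theorem maK_inj (b : Basis I F V)
    {c c' : Module.End (AlgebraicClosure F) (AlgebraicClosure F ⊗[F] V)}
    (h : maK b c = maK b c') : c = c' := (LinearMap.toMatrix _ _).injective h

theorem maK_base (b : Basis I F V) (c : Module.End F V) :
    maK b (c.baseChange (AlgebraicClosure F)) =
      (LinearMap.toMatrix b b c).map (algebraMap F (AlgebraicClosure F)) := by
  exact LinearMap.toMatrix_baseChange (AlgebraicClosure F) c b b

theorem coK_T (ρ : H1Rep Γ F V) (b : Basis I F V) (R : MRep Γ F I)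
    (h1 : ∀ γ, R.M γ = LinearMap.toMatrix b b (ρ.T γ)) (γ : Γ) (y : AlgebraicClosure F ⊗[F] V) :
    coK b ((ρ.T γ).baseChange (AlgebraicClosure F) y) =
      (R.M γ).map (algebraMap F (AlgebraicClosure F)) *ᵥ coK b y := by
  rw [coK_end, maK_base, h1]

theorem commF_iff (ρ : H1Rep Γ F V) (b : Basis I F V) (R : MRep Γ F I)
    (h1 : ∀ γ, R.M γ = LinearMap.toMatrix b b (ρ.T γ)) (c : Module.End F V) :
    CommF ρ c ↔ R.InC (LinearMap.toMatrix b b c) := by
  constructor
  · rintro ⟨U, hU⟩
    refine ⟨U, fun γ hγ => ?_⟩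
    rw [h1, ← LinearMap.toMatrix_mul, ← LinearMap.toMatrix_mul, hU γ hγ]
  · rintro ⟨U, hU⟩
    refine ⟨U, fun γ hγ => (LinearMap.toMatrix b b).injective ?_⟩
    have h2 := hU γ hγ
    rw [h1, ← LinearMap.toMatrix_mul, ← LinearMap.toMatrix_mul] at h2
    exact h2.symm

theorem commK_iff (ρ : H1Rep Γ F V) (b : Basis I F V) (R : MRep Γ F I)
    (h1 : ∀ γ, R.M γ = LinearMap.toMatrix b b (ρ.T γ))
    (c : Module.End (AlgebraicClosure F) (AlgebraicClosure F ⊗[F] V)) :
    CommK ρ c ↔ InCK R (AlgebraicClosure F) (maK b c) := by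
  constructor
  · rintro ⟨U, hU⟩
    refine ⟨U, fun γ hγ => ?_⟩
    rw [h1, ← maK_base, ← maK_mul, ← maK_mul, hU γ hγ]
  · rintro ⟨U, hU⟩
    refine ⟨U, fun γ hγ => maK_inj b ?_⟩
    have h2 := hU γ hγ
    rw [h1, ← maK_base, ← maK_mul, ← maK_mul] at h2
    exact h2.symm

theorem real_coord (ρ : H1Rep Γ F V) (b : Basis I F V) (R : MRep Γ F I)
    (h1 : ∀ γ, R.M γ = LinearMap.toMatrix b b (ρ.T γ)) (h3 : ∀ i j, R.J i j = ρ.form (b i) (b j))
    (h : RealType ρ) : RealM R := by
  obtain ⟨s, hs, hsym, hsq, hadj⟩ := h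
  have hJ : R.J = LinearMap.BilinForm.toMatrix b ρ.form := by
    ext i j
    rw [h3, LinearMap.BilinForm.toMatrix_apply]
  refine ⟨LinearMap.toMatrix b b s, (commF_iff ρ b R h1 s).1 hs, ?_, ?_, ?_⟩
  · have h5 : LinearMap.BilinForm.compLeft ρ.form s = LinearMap.BilinForm.compRight ρ.form s :=
      LinearMap.ext fun x => LinearMap.ext fun y => hsym x y
    have h6 := congrArg (LinearMap.BilinForm.toMatrix b) h5
    rwa [LinearMap.BilinForm.toMatrix_compLeft, LinearMap.BilinForm.toMatrix_compRight, ← hJ] at h6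
  · have h5 := minpoly.algEquiv_eq (LinearMap.toMatrixAlgEquiv b) s
    have h6 : LinearMap.toMatrix b b s = LinearMap.toMatrixAlgEquiv b s := rfl
    rw [h6, h5]
    exact hsq
  · intro c hc hcs
    have hc' : LinearMap.toMatrix b b (Matrix.toLin b b c) = c := LinearMap.toMatrix_toLin b b c
    have h7 := hadj (Matrix.toLin b b c) ((commF_iff ρ b R h1 _).2 (by rw [hc']; exact hc)) (by
      apply (LinearMap.toMatrix b b).injective
      rw [LinearMap.toMatrix_mul, LinearMap.toMatrix_mul, hc', hcs])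
    let g : Module.End F V →ₐ[F] Matrix I I F :=
      ((LinearMap.toMatrixAlgEquiv b : Module.End F V ≃ₐ[F] Matrix I I F) :
        Module.End F V →ₐ[F] Matrix I I F)
    have h8 : g (Matrix.toLin b b c) ∈ (Algebra.adjoin F {s}).map g :=
      Subalgebra.mem_map.2 ⟨_, h7, rfl⟩
    rw [AlgHom.map_adjoin, Set.image_singleton] at h8
    have h9 : g (Matrix.toLin b b c) = c := hc'
    rw [h9] at h8
    exact h8

theorem full_coord (ρ : H1Rep Γ F V) (b : Basis I F V) (R : MRep Γ F I)
    (h1 : ∀ γ, R.M γ = LinearMap.toMatrix b b (ρ.T γ))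
    (h : ∀ c, CommF ρ c → ∀ γ, c * ρ.T γ = ρ.T γ * c) : Full0 R := by
  intro c hc γ
  have hc' : LinearMap.toMatrix b b (Matrix.toLin b b c) = c := LinearMap.toMatrix_toLin b b c
  have h2 := h (Matrix.toLin b b c) ((commF_iff ρ b R h1 _).2 (by rw [hc']; exact hc)) γ
  have h3 := congrArg (LinearMap.toMatrix b b) h2
  rw [LinearMap.toMatrix_mul, LinearMap.toMatrix_mul, hc', ← h1] at h3
  exact h3.symm

end Pool.Agent.Lib.MP_640417_ag.Ty
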