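import Pool.Agent.Lib.MP_640417_ag.Ty.RegK
import Pool.Agent.Lib.MP_640417_ag.Ty.CoordK

/-!
# MP_640417_ag, Ty, module Res (220 lines): restriction to an open subgroup

Open subgroups of `U` are the intersections of `U` with open subgroups of `Γ` (image under the open embedding `U → Γ`,
`OpenSubgroup.comap`, or `Subgroup.map` and openness of the image).
* `commF_res`, `commK_res`, `tate_res`, `div_res`: a condition on an open subgroup of `Γ` restricts to `U`; an open subgroup of `U` is an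
  open subgroup of `Γ`.
* `noExotic_res`, `noExoticFour_res`: from `tate_res`, `div_res`.
* `semi_res`: as `proj_K` in `RegK` (or apply `pSemi` directly over the field `F`: `V` over `F`, `T`, trace theorem `pTrace`; `R` = the span of
  the `T γ`, `γ` in an open normal subgroup `U' ≤ U`): for a `U`-stable `W` there is a projection `p` onto `W` which commutes with
  `T γ`, `γ ∈ U'`. `U'` has finite index in `U`: average `p` over `U / U'`: `p0 = (1/m) ∑ T g p T g⁻¹` commutes with `U` and is a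
  projection onto `W` (characteristic zero); `W' = ker p0`.
* `exists_U0`: the set of all `γ` with `c T γ = T γ c` for all `c` in the commutant is a subgroup; it contains an open subgroup:
  the commutant is a finite dimensional subspace, take a basis and intersect the finitely many open subgroups. A
  subgroup which contains an open subgroup is open (`Subgroup.isOpen_mono`).
* `real_res`: `CommF` does not change.
* `detects_res`, `good_res`: for `γ ∈ U` (all notions use only `T γ`, `χ γ`, `CommF`, `CommK`).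
-/

set_option autoImplicit false

namespace Pool.Agent.Lib.MP_640417_ag.Ty

open Matrix Module TensorProduct Pool.Agent.Lib.MP_640417_ag Pool.Agent.Lib.MP_640417_ag.Frob
  Pool.Agent.Lib.MP_640417_ag.Glob Pool.Agent.Lib.MP_640417_ag.Four

variable {F : Type} [NontriviallyNormedField F] [CharZero F]
  {Γ : Type} [Group Γ] [TopologicalSpace Γ] [IsTopologicalGroup Γ] [CompactSpace Γ] {V : Type}
  [AddCommGroup V] [Module F V] [FiniteDimensional F V] (ρ : H1Rep Γ F V) (U : OpenSubgroup Γ)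

theorem compact_U : CompactSpace U :=
  isCompact_iff_compactSpace.mp U.isClosed.isCompact

omit [CompactSpace Γ] in
theorem topGroup_U : IsTopologicalGroup U :=
  inferInstanceAs (IsTopologicalGroup U.toSubgroup)

omit [IsTopologicalGroup Γ] [CompactSpace Γ] in
private theorem res_exists (U : OpenSubgroup Γ) (p : Γ → Prop) :
    (∃ W : OpenSubgroup U, ∀ γ ∈ W, p (γ : Γ)) ↔ ∃ W : OpenSubgroup Γ, ∀ γ ∈ W, p γ := by
  constructor
  · rintro ⟨W, hW⟩
    have ho : IsOpen ((W.toSubgroup.map U.toSubgroup.subtype : Subgroup Γ) : Set Γ) := by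
      rw [Subgroup.coe_map]
      exact U.isOpen.isOpenMap_subtype_val _ W.isOpen
    refine ⟨⟨W.toSubgroup.map U.toSubgroup.subtype, ho⟩, ?_⟩
    intro γ hγ
    obtain ⟨u, hu, rfl⟩ : γ ∈ W.toSubgroup.map U.toSubgroup.subtype := hγ
    exact hW u hu
  · rintro ⟨W, hW⟩
    refine ⟨W.comap U.toSubgroup.subtype continuous_subtype_val, ?_⟩
    intro γ hγ
    exact hW _ hγ

theorem commF_res (c : Module.End F V) : CommF (res ρ U) c ↔ CommF ρ c :=
  res_exists U fun γ => c * ρ.T γ = ρ.T γ * c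

theorem commK_res (c : Module.End (AlgebraicClosure F) (AlgebraicClosure F ⊗[F] V)) :
    CommK (res ρ U) c ↔ CommK ρ c :=
  res_exists U fun γ => c * (ρ.T γ).baseChange (AlgebraicClosure F) =
    (ρ.T γ).baseChange (AlgebraicClosure F) * c

omit [CharZero F] [IsTopologicalGroup Γ] [CompactSpace Γ] [FiniteDimensional F V] in
private theorem res_tate (n i : ℕ) (x : ExteriorAlgebra F (Fin n → V)) :
    TateClass (fun γ => ((res ρ U).T γ).compLeft (Fin n)) (res ρ U).χ i x ↔
      TateClass (fun γ => (ρ.T γ).compLeft (Fin n)) ρ.χ i x :=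
  and_congr_right fun _ => res_exists U fun γ =>
    (ρ.χ γ : F) ^ i • ExteriorAlgebra.map ((ρ.T γ).compLeft (Fin n)) x = x

omit [CharZero F] [IsTopologicalGroup Γ] [CompactSpace Γ] [FiniteDimensional F V] in
private theorem res_exotic (n i : ℕ) (x : ExteriorAlgebra F (Fin n → V)) :
    ExoticTateClass (fun γ => ((res ρ U).T γ).compLeft (Fin n)) (res ρ U).χ i x ↔
      ExoticTateClass (fun γ => (ρ.T γ).compLeft (Fin n)) ρ.χ i x := by
  have h : divisorAlg (fun γ => ((res ρ U).T γ).compLeft (Fin n)) (res ρ U).χ =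
      divisorAlg (fun γ => (ρ.T γ).compLeft (Fin n)) ρ.χ := by
    unfold divisorAlg
    congr 1
    ext y
    exact res_tate ρ U n 1 y
  unfold ExoticTateClass
  rw [res_tate ρ U n i x, h]

theorem noExotic_res : NoExotic (res ρ U) ↔ NoExotic ρ :=
  forall_congr' fun n => forall_congr' fun i => forall_congr' fun x =>
    not_congr (res_exotic ρ U n i x)

theorem noExoticFour_res : NoExoticFour (res ρ U) ↔ NoExoticFour ρ :=
  forall_congr' fun x => not_congr (res_exotic ρ U 4 2 x)

/-- a projection onto a `U`-stable subspace which commutes with an open normal subgroup -/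
private theorem res_proj (h : Semisimple ρ) (W : Submodule F V)
    (hW : ∀ γ ∈ U, ∀ y ∈ W, ρ.T γ y ∈ W) :
    ∃ (U' : Subgroup Γ) (p : Module.End F V), U' ≤ U.toSubgroup ∧ IsOpen (U' : Set Γ) ∧
      (∀ y, p y ∈ W) ∧ (∀ y ∈ W, p y = y) ∧ ∀ γ ∈ U', p * ρ.T γ = ρ.T γ * p := by
  have hfin : Finite (Γ ⧸ U.toSubgroup) := inferInstance
  have hfi : U.toSubgroup.FiniteIndex := Subgroup.finiteIndex_of_finite_quotient
  set U' : Subgroup Γ := U.toSubgroup.normalCore with hU'
  have hopen : IsOpen (U' : Set Γ) :=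
    Subgroup.isOpen_of_isClosed_of_finiteIndex _ (U.toSubgroup.normalCore_isClosed U.isClosed)
  have hle : U' ≤ U.toSubgroup := U.toSubgroup.normalCore_le
  have hnormal : U'.Normal := inferInstance
  let R : Subalgebra F (Module.End F V) := Algebra.adjoin F (ρ.T '' (U' : Set Γ))
  have hR : Subalgebra.toSubmodule R = Submodule.span F (ρ.T '' (U' : Set Γ)) := by
    have h1 : (Submonoid.closure (ρ.T '' (U' : Set Γ)) : Set (Module.End F V)) =
        ρ.T '' (U' : Set Γ) := by
      have h2 : (ρ.T '' (U' : Set Γ)) = ((U'.toSubmonoid.map ρ.T : Submonoid (Module.End F V)) :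
          Set (Module.End F V)) := rfl
      rw [h2, Submonoid.closure_eq]
    rw [Algebra.adjoin_eq_span, h1]
  have hmem : ∀ γ ∈ U', ρ.T γ ∈ R := fun γ hγ => Algebra.subset_adjoin ⟨γ, hγ, rfl⟩
  have hmemR : ∀ M : Module.End F V, M ∈ R ↔ M ∈ Submodule.span F (ρ.T '' (U' : Set Γ)) := by
    intro M
    rw [← hR]
    rfl
  obtain ⟨p, hp1, hp2, hp3⟩ := pSemi F V Γ ρ.T (pTrace Γ F V ρ.T h) R (by
    rw [hR]
    exact Submodule.span_mono (Set.image_subset_range _ _)) (by
    intro γ M hM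
    rw [hmemR] at hM ⊢
    induction hM using Submodule.span_induction with
    | mem x hx =>
      obtain ⟨u, hu, rfl⟩ := hx
      apply Submodule.subset_span
      refine ⟨γ * u * γ⁻¹, hnormal.conj_mem u hu γ, ?_⟩
      rw [map_mul, map_mul]
    | zero => rw [mul_zero, zero_mul]; exact Submodule.zero_mem _
    | add x y _ _ hx hy => rw [mul_add, add_mul]; exact Submodule.add_mem _ hx hy
    | smul a x _ hx =>
      rw [mul_smul_comm, smul_mul_assoc]
      exact Submodule.smul_mem _ a hx) W (by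
    intro M hM
    rw [hmemR] at hM
    induction hM using Submodule.span_induction with
    | mem x hx =>
      obtain ⟨u, hu, rfl⟩ := hx
      exact hW u (hle hu)
    | zero => intro y _; exact Submodule.zero_mem _
    | add x y _ _ hx hy => intro z hz; exact Submodule.add_mem _ (hx z hz) (hy z hz)
    | smul a x _ hx => intro z hz; exact Submodule.smul_mem _ a (hx z hz))
  exact ⟨U', p, hle, hopen, hp1, hp2, fun γ hγ => hp3 _ (hmem γ hγ)⟩

theorem semi_res (h : Semisimple ρ) : Semisimple (res ρ U) := by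
  classical
  intro W hW
  obtain ⟨U', p, hle, hopen, hp1, hp2, hp3⟩ := res_proj ρ U h W (fun γ hγ => hW ⟨γ, hγ⟩)
  let N : Subgroup U.toSubgroup := U'.subgroupOf U.toSubgroup
  have hNopen : IsOpen (N : Set U.toSubgroup) := hopen.preimage continuous_subtype_val
  have hfin : Finite (U.toSubgroup ⧸ N) :=
    Subgroup.quotient_finite_of_isOpen' U.toSubgroup N U.isOpen hNopen
  have : Fintype (U.toSubgroup ⧸ N) := Fintype.ofFinite _
  -- the conjugates of `p`
  have hwd : ∀ a b : U.toSubgroup, a⁻¹ * b ∈ N →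
      ρ.T (a : Γ) * p * ρ.T ((a : Γ)⁻¹) = ρ.T (b : Γ) * p * ρ.T ((b : Γ)⁻¹) := by
    intro a b hab
    have hu : (a : Γ)⁻¹ * (b : Γ) ∈ U' := hab
    have hb : (b : Γ) = (a : Γ) * ((a : Γ)⁻¹ * (b : Γ)) := by group
    generalize (a : Γ)⁻¹ * (b : Γ) = u at hu hb
    rw [hb, _root_.mul_inv_rev, map_mul, map_mul]
    have e1 : ρ.T (a : Γ) * ρ.T u * p * (ρ.T u⁻¹ * ρ.T (a : Γ)⁻¹) =
        ρ.T (a : Γ) * (ρ.T u * p) * ρ.T u⁻¹ * ρ.T (a : Γ)⁻¹ := by simp only [mul_assoc]
    rw [e1, ← hp3 u hu]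
    have e2 : ρ.T u * ρ.T u⁻¹ = 1 := by rw [← map_mul, mul_inv_cancel, map_one]
    have e3 : ρ.T (a : Γ) * (p * ρ.T u) * ρ.T u⁻¹ * ρ.T (a : Γ)⁻¹ =
        ρ.T (a : Γ) * p * (ρ.T u * ρ.T u⁻¹) * ρ.T (a : Γ)⁻¹ := by simp only [mul_assoc]
    rw [e3, e2, mul_one]
  let f : (U.toSubgroup ⧸ N) → Module.End F V :=
    Quotient.lift (fun a : U.toSubgroup => ρ.T (a : Γ) * p * ρ.T ((a : Γ)⁻¹)) fun a b hab =>
      hwd a b (QuotientGroup.leftRel_apply.mp hab)
  have hfmk : ∀ a : U.toSubgroup, f (QuotientGroup.mk a) =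
      ρ.T (a : Γ) * p * ρ.T ((a : Γ)⁻¹) := fun a => rfl
  have hfs : ∀ (g : U.toSubgroup) (q : U.toSubgroup ⧸ N),
      f (g • q) = ρ.T (g : Γ) * f q * ρ.T ((g : Γ)⁻¹) := by
    intro g q
    induction q using QuotientGroup.induction_on with
    | H a =>
      have e1 : g • (QuotientGroup.mk a : U.toSubgroup ⧸ N) = QuotientGroup.mk (g * a) := rfl
      rw [e1, hfmk, hfmk]
      have e2 : ((g * a : U.toSubgroup) : Γ) = (g : Γ) * (a : Γ) := rfl
      rw [e2, _root_.mul_inv_rev, map_mul, map_mul]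
      simp only [mul_assoc]
  set S : Module.End F V := ∑ q, f q with hS
  have hScomm : ∀ g : U.toSubgroup, ρ.T (g : Γ) * S = S * ρ.T (g : Γ) := by
    intro g
    have e1 : S = ρ.T (g : Γ) * S * ρ.T ((g : Γ)⁻¹) := by
      conv_lhs => rw [hS, ← Equiv.sum_comp (MulAction.toPerm g) f]
      have e2 : ∀ q, f (MulAction.toPerm g q) = ρ.T (g : Γ) * f q * ρ.T ((g : Γ)⁻¹) :=
        fun q => hfs g q
      rw [Finset.sum_congr rfl fun q _ => e2 q, ← Finset.sum_mul, ← Finset.mul_sum]
    have e3 : ρ.T ((g : Γ)⁻¹) * ρ.T (g : Γ) = 1 := by rw [← map_mul, inv_mul_cancel, map_one]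
    calc ρ.T (g : Γ) * S = ρ.T (g : Γ) * S * (ρ.T ((g : Γ)⁻¹) * ρ.T (g : Γ)) := by
          rw [e3, mul_one]
      _ = (ρ.T (g : Γ) * S * ρ.T ((g : Γ)⁻¹)) * ρ.T (g : Γ) := by simp only [mul_assoc]
      _ = S * ρ.T (g : Γ) := by rw [← e1]
  have hSmem : ∀ y, S y ∈ W := by
    intro y
    rw [hS, LinearMap.sum_apply]
    refine Submodule.sum_mem _ fun q _ => ?_
    induction q using QuotientGroup.induction_on with
    | H a =>
      rw [hfmk]
      exact hW a _ (hp1 _)
  have hSid : ∀ y ∈ W, S y = (Fintype.card (U.toSubgroup ⧸ N) : F) • y := by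
    intro y hy
    have e1 : ∀ q ∈ (Finset.univ : Finset (U.toSubgroup ⧸ N)), (f q) y = y := by
      intro q _
      induction q using QuotientGroup.induction_on with
      | H a =>
        rw [hfmk]
        show ρ.T (a : Γ) (p (ρ.T ((a : Γ)⁻¹) y)) = y
        have h2 : ρ.T ((a : Γ)⁻¹) y ∈ W := hW a⁻¹ y hy
        rw [hp2 _ h2]
        have e2 : ρ.T (a : Γ) * ρ.T ((a : Γ)⁻¹) = 1 := by
          rw [← map_mul, mul_inv_cancel, map_one]
        exact congrArg (fun z : Module.End F V => z y) e2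
    rw [hS, LinearMap.sum_apply, Finset.sum_congr rfl e1, Finset.sum_const, Finset.card_univ,
      Nat.cast_smul_eq_nsmul]
  have hcard : (Fintype.card (U.toSubgroup ⧸ N) : F) ≠ 0 := by
    have : Nonempty (U.toSubgroup ⧸ N) := ⟨QuotientGroup.mk 1⟩
    exact_mod_cast Fintype.card_ne_zero
  refine ⟨LinearMap.ker S, ?_, ?_⟩
  · intro γ y hy
    rw [LinearMap.mem_ker] at hy ⊢
    show S (ρ.T (γ : Γ) y) = 0
    have e1 := congrArg (fun z : Module.End F V => z y) (hScomm γ)
    have e2 : ρ.T (γ : Γ) (S y) = S (ρ.T (γ : Γ) y) := e1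
    rw [← e2, hy, map_zero]
  · constructor
    · rw [Submodule.disjoint_def]
      intro y hy hy'
      rw [LinearMap.mem_ker, hSid y hy] at hy'
      exact (smul_eq_zero.mp hy').resolve_left hcard
    · rw [codisjoint_iff, eq_top_iff]
      intro y _
      rw [Submodule.mem_sup]
      refine ⟨(Fintype.card (U.toSubgroup ⧸ N) : F)⁻¹ • S y, W.smul_mem _ (hSmem y),
        y - (Fintype.card (U.toSubgroup ⧸ N) : F)⁻¹ • S y, ?_, by abel⟩
      rw [LinearMap.mem_ker, map_sub, map_smul, hSid _ (hSmem y), smul_smul,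
        inv_mul_cancel₀ hcard, one_smul, sub_self]

theorem real_res (h : RealType ρ) : RealType (res ρ U) := by
  obtain ⟨s, h1, h2, h3, h4⟩ := h
  exact ⟨s, (commF_res ρ U s).mpr h1, h2, h3, fun c hc => h4 c ((commF_res ρ U c).mp hc)⟩

private theorem res_iso (γ : U) (z : AlgebraicClosure F) :
    IsoTy (res ρ U) γ z ↔ IsoTy ρ γ z := by
  unfold IsoTy
  simp only [commF_res]
  exact Iff.rfl

theorem good_res (γ : U) : GoodTy (res ρ U) γ ↔ GoodTy ρ γ := by
  unfold GoodTy
  simp only [commF_res, res_iso]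
  exact Iff.rfl

theorem detects_res (γ : U) : DetectsTy (res ρ U) γ ↔ DetectsTy ρ γ := by
  unfold DetectsTy
  simp only [commF_res, commK_res, res_iso]
  exact Iff.rfl

theorem exists_U0 : ∃ U : OpenSubgroup Γ, ∀ γ, γ ∈ U ↔ ∀ c, CommF ρ c → c * ρ.T γ = ρ.T γ * c := by
  classical
  let C : Submodule F (Module.End F V) :=
    { carrier := {c | CommF ρ c}
      zero_mem' := ⟨⊤, fun γ _ => by rw [zero_mul, mul_zero]⟩
      add_mem' := by
        rintro a b ⟨U1, h1⟩ ⟨U2, h2⟩
        refine ⟨U1 ⊓ U2, fun γ hγ => ?_⟩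
        rw [add_mul, mul_add, h1 γ (OpenSubgroup.mem_inf.mp hγ).1,
          h2 γ (OpenSubgroup.mem_inf.mp hγ).2]
      smul_mem' := by
        rintro r a ⟨U1, h1⟩
        refine ⟨U1, fun γ hγ => ?_⟩
        rw [smul_mul_assoc, mul_smul_comm, h1 γ hγ] }
  have hfin : ∀ s : Finset (Module.End F V), (∀ c ∈ s, CommF ρ c) →
      ∃ W : OpenSubgroup Γ, ∀ γ ∈ W, ∀ c ∈ s, c * ρ.T γ = ρ.T γ * c := by
    intro s
    induction s using Finset.induction_on with
    | empty => exact fun _ => ⟨⊤, fun γ _ c hc => absurd hc (Finset.notMem_empty c)⟩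
    | insert a s _ ih =>
      intro hs
      obtain ⟨W1, h1⟩ := ih fun c hc => hs c (Finset.mem_insert_of_mem hc)
      obtain ⟨W2, h2⟩ := hs a (Finset.mem_insert_self a s)
      refine ⟨W1 ⊓ W2, fun γ hγ c hc => ?_⟩
      rcases Finset.mem_insert.mp hc with rfl | hc
      · exact h2 γ (OpenSubgroup.mem_inf.mp hγ).2
      · exact h1 γ (OpenSubgroup.mem_inf.mp hγ).1 c hc
  obtain ⟨s, hs⟩ : C.FG := IsNoetherian.noetherian C
  obtain ⟨W, hW⟩ := hfin s fun c hc => by
    have : c ∈ C := by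
      rw [← hs]
      exact Submodule.subset_span hc
    exact this
  let H : Subgroup Γ :=
    { carrier := {γ | ∀ c, CommF ρ c → c * ρ.T γ = ρ.T γ * c}
      mul_mem' := by
        intro a b ha hb c hc
        rw [map_mul, ← mul_assoc, ha c hc, mul_assoc, hb c hc, mul_assoc]
      one_mem' := by
        intro c _
        rw [map_one, mul_one, one_mul]
      inv_mem' := by
        intro a ha c hc
        have e1 : ρ.T a * ρ.T a⁻¹ = 1 := by rw [← map_mul, mul_inv_cancel, map_one]
        have e2 : ρ.T a⁻¹ * ρ.T a = 1 := by rw [← map_mul, inv_mul_cancel, map_one]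
        calc c * ρ.T a⁻¹ = (ρ.T a⁻¹ * ρ.T a) * c * ρ.T a⁻¹ := by rw [e2, one_mul]
          _ = ρ.T a⁻¹ * (ρ.T a * c) * ρ.T a⁻¹ := by simp only [mul_assoc]
          _ = ρ.T a⁻¹ * (c * ρ.T a) * ρ.T a⁻¹ := by rw [ha c hc]
          _ = ρ.T a⁻¹ * c * (ρ.T a * ρ.T a⁻¹) := by simp only [mul_assoc]
          _ = ρ.T a⁻¹ * c := by rw [e1, mul_one] }
  have hle : W.toSubgroup ≤ H := by
    intro γ hγ c hc
    have hc' : c ∈ Submodule.span F (s : Set (Module.End F V)) := by
      rw [hs]
      exact hc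
    clear hc
    induction hc' using Submodule.span_induction with
    | mem x hx => exact hW γ hγ x hx
    | zero => rw [zero_mul, mul_zero]
    | add x y _ _ hx hy => rw [add_mul, mul_add, hx, hy]
    | smul a x _ hx => rw [smul_mul_assoc, mul_smul_comm, hx]
  exact ⟨⟨H, Subgroup.isOpen_mono hle W.isOpen⟩, fun γ => Iff.rfl⟩

end Pool.Agent.Lib.MP_640417_ag.Ty
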