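import Pool.Agent.Lib.MP_640417_ag.Ty.SpanK
import Pool.Agent.Lib.MP_640417_ag.Four.Trace
import Pool.Agent.Lib.MP_640417_ag.Four.Semi

/-!
# MP_640417_ag, Ty, module RegK (200 lines): semisimplicity over the extension field

* `trace_K`: `S = ∑ κ_t S_t` with an `F`-basis `κ` of `K` (finitely many terms), `S_t ∈ span_F (M γ)`: write `S` as a
  finite `K`-combination of the `(M γ).map` and expand the coefficients. `0 = tr (S (M γ)) = ∑ κ_t tr (S_t M γ)`, so
  `tr (S_t M γ) = 0` for all `γ`, and `S_t = 0` by the trace theorem (`pTrace : STrace` in `Four/Trace.lean`, for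
  `V = I → F`, `T γ = Matrix.toLin' (M γ)`).
* `proj_K`: let `N` be a subspace of `K^I` stable under `M γ`, `γ ∈ U`. Let `U' ≤ U` be an open normal subgroup
  (`Γ` compact: the normal core of `U` is open, since it is a finite intersection of conjugates, or
  `Subgroup.normalCore` of a finite index closed subgroup). `R` = the `K`-span of the `M γ`, `γ ∈ U'` (a subalgebra
  contained in the span of all `M γ`, stable under conjugation). By `pSemi : SSemi` (`Four/Semi.lean`; hypothesis:
  `trace_K`) there is a projection `p` onto `N` which commutes with `R`, so `InCK p`.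
* `reg_K`: let `c` commute with `M γ`, `γ ∈ U`. The kernel and the range of `c` are stable under `U`; let `q` be a
  projection onto the kernel, `p` a projection onto the range, both in the commutant (`proj_K`). `c` maps the kernel of `q`
  bijectively to the range of `c`; let `g = (inverse) ∘ p`. Then `c g c = c`, and `g` commutes with the `M γ`, `γ` in the
  intersection of the three open subgroups.
-/

set_option autoImplicit false

namespace Pool.Agent.Lib.MP_640417_ag.Ty

open Matrix Module Pool.Agent.Lib.MP_640417_ag.Glob Pool.Agent.Lib.MP_640417_ag.Four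

variable {Γ : Type} [Group Γ] [TopologicalSpace Γ] {F : Type} [NontriviallyNormedField F]
  [CharZero F] {I : Type} [Fintype I] [DecidableEq I] (ρ : MRep Γ F I) (K : Type) [Field K]
  [Algebra F K]

/-- the operators over `F` -/
private noncomputable def TF : Γ →* Module.End F (I → F) where
  toFun γ := Matrix.toLin' (ρ.M γ)
  map_one' := by rw [map_one, Matrix.toLin'_one]; rfl
  map_mul' γ δ := by rw [map_mul, Matrix.toLin'_mul]; rfl

/-- the matrices over `K` -/
private noncomputable def MK : Γ →* Matrix I I K where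
  toFun γ := (ρ.M γ).map (algebraMap F K)
  map_one' := by rw [map_one, Matrix.map_one _ (map_zero _) (map_one _)]
  map_mul' γ δ := by rw [map_mul, Matrix.map_mul]

/-- the operators over `K` -/
private noncomputable def TK : Γ →* Module.End K (I → K) where
  toFun γ := Matrix.toLin' ((ρ.M γ).map (algebraMap F K))
  map_one' := by
    rw [map_one, Matrix.map_one _ (map_zero _) (map_one _), Matrix.toLin'_one]
    rfl
  map_mul' γ δ := by
    rw [map_mul, Matrix.map_mul, Matrix.toLin'_mul]
    rfl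

omit [CharZero F] in
private lemma coord_span {t : K →ₗ[F] F} {S : Matrix I I K}
    (hS : S ∈ Submodule.span K (Set.range fun γ => (ρ.M γ).map (algebraMap F K))) :
    ∀ a : K, (Matrix.of fun i j => t (a * S i j)) ∈ Submodule.span F (Set.range ρ.M) := by
  induction hS using Submodule.span_induction with
  | mem x hx =>
    obtain ⟨γ, rfl⟩ := hx
    intro a
    have h1 : (Matrix.of fun i j => t (a * ((ρ.M γ).map (algebraMap F K)) i j))
        = t a • ρ.M γ := by
      ext i j
      rw [Matrix.of_apply, Matrix.map_apply, Matrix.smul_apply, smul_eq_mul,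
        mul_comm a, ← Algebra.smul_def, map_smul, smul_eq_mul, mul_comm]
    rw [h1]
    exact Submodule.smul_mem _ _ (Submodule.subset_span ⟨γ, rfl⟩)
  | zero =>
    intro a
    have h1 : (Matrix.of fun i j => t (a * (0 : Matrix I I K) i j)) = (0 : Matrix I I F) := by
      ext i j
      rw [Matrix.of_apply, Matrix.zero_apply, mul_zero, map_zero, Matrix.zero_apply]
    rw [h1]
    exact Submodule.zero_mem _
  | add x y hx hy ihx ihy =>
    intro a
    have h1 : (Matrix.of fun i j => t (a * (x + y) i j))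
        = (Matrix.of fun i j => t (a * x i j)) + Matrix.of fun i j => t (a * y i j) := by
      ext i j
      rw [Matrix.of_apply, Matrix.add_apply, mul_add, map_add, Matrix.add_apply, Matrix.of_apply,
        Matrix.of_apply]
    rw [h1]
    exact Submodule.add_mem _ (ihx a) (ihy a)
  | smul c x hx ih =>
    intro a
    have h1 : (Matrix.of fun i j => t (a * (c • x) i j))
        = Matrix.of fun i j => t (a * c * x i j) := by
      ext i j
      rw [Matrix.of_apply, Matrix.of_apply, Matrix.smul_apply, smul_eq_mul, mul_assoc]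
    rw [h1]
    exact ih (a * c)

theorem trace_K (hsemi : ρ.Semi) (S : Matrix I I K)
    (hS : S ∈ Submodule.span K (Set.range fun γ => (ρ.M γ).map (algebraMap F K)))
    (h0 : ∀ γ, (S * (ρ.M γ).map (algebraMap F K)).trace = 0) : S = 0 := by
  have key : ∀ t : K →ₗ[F] F, (Matrix.of fun i j => t (S i j)) = (0 : Matrix I I F) := by
    intro t
    have h1 := coord_span ρ K (t := t) hS 1
    simp only [one_mul] at h1
    have h2 : Matrix.toLin' (Matrix.of fun i j => t (S i j)) = 0 := by
      refine pTrace Γ F (I → F) (TF ρ) ?_ _ ?_ ?_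
      · intro W hW
        obtain ⟨W', h3, h4⟩ := hsemi W fun γ y hy => by
          have := hW γ y hy
          rwa [show TF ρ γ y = ρ.M γ *ᵥ y from Matrix.toLin'_apply _ _] at this
        refine ⟨W', fun γ y hy => ?_, h4⟩
        rw [show TF ρ γ y = ρ.M γ *ᵥ y from Matrix.toLin'_apply _ _]
        exact h3 γ y hy
      · have h3 := Submodule.mem_map_of_mem (f := (Matrix.toLin' : Matrix I I F ≃ₗ[F] _).toLinearMap)
          h1
        rw [Submodule.map_span] at h3
        refine Submodule.span_mono ?_ h3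
        rintro _ ⟨_, ⟨γ, rfl⟩, rfl⟩
        exact ⟨γ, rfl⟩
      · intro γ
        have h3 : Matrix.toLin' (Matrix.of fun i j => t (S i j)) * TF ρ γ
            = Matrix.toLin' ((Matrix.of fun i j => t (S i j)) * ρ.M γ) := by
          rw [Matrix.toLin'_mul]
          rfl
        rw [h3, Matrix.trace_toLin'_eq]
        have h4 := congrArg t (h0 γ)
        rw [map_zero] at h4
        rw [← h4, Matrix.trace, Matrix.trace, map_sum]
        refine Finset.sum_congr rfl fun i _ => ?_
        rw [Matrix.diag_apply, Matrix.diag_apply, Matrix.mul_apply, Matrix.mul_apply, map_sum]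
        refine Finset.sum_congr rfl fun j _ => ?_
        rw [Matrix.of_apply, Matrix.map_apply, mul_comm (S i j), ← Algebra.smul_def, map_smul,
          smul_eq_mul, mul_comm]
    exact (LinearEquiv.map_eq_zero_iff _).1 h2
  let b := Module.Free.chooseBasis F K
  ext i j
  rw [Matrix.zero_apply]
  refine (b.forall_coord_eq_zero_iff).1 fun t => ?_
  have h1 := congrFun (congrFun (key (b.coord t)) i) j
  exact h1

/-- The case of a normal subgroup. -/
private lemma proj_normal (hsemi : ρ.Semi) (H : Subgroup Γ) (hH : H.Normal)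
    (N : Submodule K (I → K))
    (hN : ∀ γ ∈ H, ∀ y ∈ N, (ρ.M γ).map (algebraMap F K) *ᵥ y ∈ N) :
    ∃ p : Matrix I I K, (∀ γ ∈ H, (ρ.M γ).map (algebraMap F K) * p =
      p * (ρ.M γ).map (algebraMap F K)) ∧ (∀ y, p *ᵥ y ∈ N) ∧ ∀ y ∈ N, p *ᵥ y = y := by
  have hT : ∀ γ y, TK ρ K γ y = (ρ.M γ).map (algebraMap F K) *ᵥ y := fun γ y =>
    Matrix.toLin'_apply _ _
  obtain ⟨p, hp1, hp2, hp3⟩ := pSemi K (I → K) Γ (TK ρ K) (by
      intro S hS h0
      have h1 : LinearMap.toMatrix' S = 0 := by
        refine trace_K ρ K hsemi _ ?_ ?_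
        · have h2 := Submodule.mem_map_of_mem
            (f := (LinearMap.toMatrix' : _ ≃ₗ[K] Matrix I I K).toLinearMap) hS
          rw [Submodule.map_span] at h2
          refine Submodule.span_mono ?_ h2
          rintro _ ⟨_, ⟨γ, rfl⟩, rfl⟩
          exact ⟨γ, (LinearMap.toMatrix'_toLin' _).symm⟩
        · intro γ
          have h2 : S * TK ρ K γ = Matrix.toLin' (LinearMap.toMatrix' S
              * (ρ.M γ).map (algebraMap F K)) := by
            rw [Matrix.toLin'_mul, Matrix.toLin'_toMatrix']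
            rfl
          have h3 := h0 γ
          rwa [h2, Matrix.trace_toLin'_eq] at h3
      exact (LinearEquiv.map_eq_zero_iff _).1 h1)
    (Algebra.adjoin K (TK ρ K '' H)) (by
      rw [Algebra.adjoin_eq_span]
      refine Submodule.span_mono ?_
      have h1 : Submonoid.closure (TK ρ K '' (H : Set Γ)) ≤ MonoidHom.mrange (TK ρ K) := by
        rw [Submonoid.closure_le]
        rintro _ ⟨γ, -, rfl⟩
        exact ⟨γ, rfl⟩
      intro x hx
      exact h1 hx) (by
      intro γ M hM
      have hcc : TK ρ K γ⁻¹ * TK ρ K γ = 1 := by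
        rw [← map_mul, inv_mul_cancel, map_one]
      have hcc' : TK ρ K γ * TK ρ K γ⁻¹ = 1 := by
        rw [← map_mul, mul_inv_cancel, map_one]
      induction hM using Algebra.adjoin_induction with
      | mem x hx =>
        obtain ⟨δ, hδ, rfl⟩ := hx
        rw [← map_mul, ← map_mul]
        exact Algebra.subset_adjoin ⟨γ * δ * γ⁻¹, hH.conj_mem δ hδ γ, rfl⟩
      | algebraMap r =>
        rw [← Algebra.commutes, mul_assoc, hcc', mul_one]
        exact Subalgebra.algebraMap_mem _ r
      | add x y hx hy ihx ihy =>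
        rw [mul_add, add_mul]
        exact Subalgebra.add_mem _ ihx ihy
      | mul x y hx hy ihx ihy =>
        have h1 : TK ρ K γ * (x * y) * TK ρ K γ⁻¹
            = (TK ρ K γ * x * TK ρ K γ⁻¹) * (TK ρ K γ * y * TK ρ K γ⁻¹) := by
          calc TK ρ K γ * (x * y) * TK ρ K γ⁻¹
              = TK ρ K γ * x * 1 * y * TK ρ K γ⁻¹ := by rw [mul_one]; simp only [mul_assoc]
            _ = _ := by rw [← hcc]; simp only [mul_assoc]
        rw [h1]
        exact Subalgebra.mul_mem _ ihx ihy) N (by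
      intro M hM
      induction hM using Algebra.adjoin_induction with
      | mem x hx =>
        obtain ⟨δ, hδ, rfl⟩ := hx
        intro y hy
        rw [hT]
        exact hN δ hδ y hy
      | algebraMap r =>
        intro y hy
        rw [Module.algebraMap_end_apply]
        exact N.smul_mem r hy
      | add x y hx hy ihx ihy =>
        intro z hz
        rw [LinearMap.add_apply]
        exact N.add_mem (ihx z hz) (ihy z hz)
      | mul x y hx hy ihx ihy =>
        intro z hz
        rw [Module.End.mul_apply]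
        exact ihx _ (ihy z hz))
  refine ⟨LinearMap.toMatrix' p, ?_, ?_, ?_⟩
  · intro γ hγ
    have h1 := hp3 (TK ρ K γ) (Algebra.subset_adjoin ⟨γ, hγ, rfl⟩)
    apply Matrix.toLin'.injective
    rw [Matrix.toLin'_mul, Matrix.toLin'_mul, Matrix.toLin'_toMatrix']
    exact h1.symm
  · intro y
    rw [LinearMap.toMatrix'_mulVec]
    exact hp1 y
  · intro y hy
    rw [LinearMap.toMatrix'_mulVec]
    exact hp2 y hy

variable [IsTopologicalGroup Γ] [CompactSpace Γ]

theorem proj_K (hsemi : ρ.Semi) (U : OpenSubgroup Γ) (N : Submodule K (I → K))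
    (hN : ∀ γ ∈ U, ∀ y ∈ N, (ρ.M γ).map (algebraMap F K) *ᵥ y ∈ N) :
    ∃ p : Matrix I I K, InCK ρ K p ∧ (∀ y, p *ᵥ y ∈ N) ∧ ∀ y ∈ N, p *ᵥ y = y := by
  have hfin : Finite (Γ ⧸ U.toSubgroup) := Subgroup.quotient_finite_of_isOpen U.toSubgroup U.isOpen'
  have hfi : U.toSubgroup.FiniteIndex := Subgroup.finiteIndex_of_finite_quotient
  have hopen : IsOpen (U.toSubgroup.normalCore : Set Γ) :=
    Subgroup.isOpen_of_isClosed_of_finiteIndex _ (U.toSubgroup.normalCore_isClosed U.isClosed)
  obtain ⟨p, hp1, hp2, hp3⟩ := proj_normal ρ K hsemi U.toSubgroup.normalCore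
    (Subgroup.normalCore_normal _) N fun γ hγ y hy =>
      hN γ (Subgroup.normalCore_le U.toSubgroup hγ) y hy
  exact ⟨p, ⟨⟨U.toSubgroup.normalCore, hopen⟩, fun γ hγ => hp1 γ hγ⟩, hp2, hp3⟩

/-- the same for all of `Γ` -/
theorem proj_all (hsemi : ρ.Semi) (N : Submodule K (I → K))
    (hN : ∀ γ, ∀ y ∈ N, (ρ.M γ).map (algebraMap F K) *ᵥ y ∈ N) :
    ∃ p : Matrix I I K, (∀ γ, (ρ.M γ).map (algebraMap F K) * p = p * (ρ.M γ).map (algebraMap F K)) ∧
      (∀ y, p *ᵥ y ∈ N) ∧ ∀ y ∈ N, p *ᵥ y = y := by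
  obtain ⟨p, hp1, hp2, hp3⟩ := proj_normal ρ K hsemi ⊤ inferInstance N fun γ _ y hy => hN γ y hy
  exact ⟨p, fun γ => hp1 γ (Subgroup.mem_top γ), hp2, hp3⟩

theorem reg_K (hsemi : ρ.Semi) {c : Matrix I I K} (hc : InCK ρ K c) :
    ∃ g, InCK ρ K g ∧ c * g * c = c := by
  obtain ⟨U, hU⟩ := hc
  have hUv : ∀ γ ∈ U, ∀ y, (ρ.M γ).map (algebraMap F K) *ᵥ (c *ᵥ y)
      = c *ᵥ ((ρ.M γ).map (algebraMap F K) *ᵥ y) := by
    intro γ hγ y
    rw [Matrix.mulVec_mulVec, Matrix.mulVec_mulVec, hU γ hγ]
  obtain ⟨q, ⟨Uq, hUq⟩, hq1, hq2⟩ := proj_K ρ K hsemi U (LinearMap.ker (Matrix.toLin' c)) (by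
    intro γ hγ y hy
    rw [LinearMap.mem_ker, Matrix.toLin'_apply] at hy ⊢
    rw [← hUv γ hγ, hy, Matrix.mulVec_zero])
  obtain ⟨p, ⟨Up, hUp⟩, hp1, hp2⟩ := proj_K ρ K hsemi U (LinearMap.range (Matrix.toLin' c)) (by
    rintro γ hγ _ ⟨y, rfl⟩
    refine ⟨(ρ.M γ).map (algebraMap F K) *ᵥ y, ?_⟩
    rw [Matrix.toLin'_apply, Matrix.toLin'_apply, hUv γ hγ])
  have hq1' : ∀ y, c *ᵥ (q *ᵥ y) = 0 := by
    intro y
    have h1 := hq1 y
    rwa [LinearMap.mem_ker, Matrix.toLin'_apply] at h1
  have hq2' : ∀ y, c *ᵥ y = 0 → q *ᵥ y = y := fun y hy =>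
    hq2 y (by rw [LinearMap.mem_ker, Matrix.toLin'_apply]; exact hy)
  have hp2' : ∀ y, p *ᵥ (c *ᵥ y) = c *ᵥ y := fun y => hp2 _ ⟨y, Matrix.toLin'_apply _ _⟩
  obtain ⟨s0, hs0⟩ := (Matrix.toLin' c).rangeRestrict.exists_rightInverse_of_surjective
    (LinearMap.range_rangeRestrict _)
  have hs0' : ∀ z : LinearMap.range (Matrix.toLin' c), c *ᵥ (s0 z) = z := by
    intro z
    have h1 := congrArg Subtype.val (LinearMap.congr_fun hs0 z)
    exact h1
  let p' : (I → K) →ₗ[K] LinearMap.range (Matrix.toLin' c) :=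
    (Matrix.toLin' p).codRestrict _ fun y => hp1 y
  let G : (I → K) →ₗ[K] (I → K) := (LinearMap.id - Matrix.toLin' q) ∘ₗ s0 ∘ₗ p'
  have hG : ∀ y, G y = s0 (p' y) - q *ᵥ (s0 (p' y)) := fun y => rfl
  have hcG : ∀ y, c *ᵥ G y = p *ᵥ y := by
    intro y
    rw [hG, Matrix.mulVec_sub, hq1', sub_zero, hs0']
    rfl
  have hqG : ∀ y, q *ᵥ G y = 0 := by
    intro y
    rw [hG, Matrix.mulVec_sub, hq2' (q *ᵥ s0 (p' y)) (hq1' _), sub_self]
  refine ⟨LinearMap.toMatrix' G, ⟨U ⊓ Uq ⊓ Up, ?_⟩, ?_⟩
  · intro γ hγ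
    have hγ1 : γ ∈ U := hγ.1.1
    have hγ2 : γ ∈ Uq := hγ.1.2
    have hγ3 : γ ∈ Up := hγ.2
    apply Matrix.toLin'.injective
    apply LinearMap.ext
    intro y
    rw [Matrix.toLin'_apply, Matrix.toLin'_apply, ← Matrix.mulVec_mulVec, ← Matrix.mulVec_mulVec,
      LinearMap.toMatrix'_mulVec, LinearMap.toMatrix'_mulVec]
    set A := (ρ.M γ).map (algebraMap F K) with hA
    have e1 : c *ᵥ (A *ᵥ G y - G (A *ᵥ y)) = 0 := by
      rw [Matrix.mulVec_sub, hcG, ← hUv γ hγ1, hcG, Matrix.mulVec_mulVec, Matrix.mulVec_mulVec,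
        hUp γ hγ3, sub_self]
    have e2 : q *ᵥ (A *ᵥ G y - G (A *ᵥ y)) = 0 := by
      rw [Matrix.mulVec_sub, hqG, sub_zero, Matrix.mulVec_mulVec, ← hUq γ hγ2,
        ← Matrix.mulVec_mulVec, hqG, Matrix.mulVec_zero]
    rw [hq2' _ e1] at e2
    exact sub_eq_zero.1 e2
  · apply Matrix.toLin'.injective
    apply LinearMap.ext
    intro y
    rw [Matrix.toLin'_apply, Matrix.toLin'_apply, ← Matrix.mulVec_mulVec, ← Matrix.mulVec_mulVec,
      LinearMap.toMatrix'_mulVec, hcG, hp2']

end Pool.Agent.Lib.MP_640417_ag.Ty
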