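import Pool.Agent.Lib.MP_640417_ag.Glob.KFour

/-!
# MP_640417_ag, Ty, module KRect (100 lines): fourth tensor powers of rectangular matrices

As in `Glob/KFour.lean`. `kr (π) * k4 (g) * kr (ι) = k4 (π g ι)`; for `d4` each of the four summands gives
`(π g ι) ⊗ (π ι) ⊗ (π ι) ⊗ (π ι)` with `π ι = 1`.
-/

set_option autoImplicit false

namespace Pool.Agent.Lib.MP_640417_ag.Ty

open Matrix Pool.Agent.Lib.MP_640417_ag.Glob

variable {R : Type} [CommRing R] {A B D : Type} [Fintype A] [DecidableEq A] [Fintype B]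
  [DecidableEq B] [Fintype D] [DecidableEq D]

/-- The fourth tensor power of a rectangular matrix. -/
def kr (g : Matrix A B R) : Matrix (A × A × A × A) (B × B × B × B) R :=
  Matrix.of fun x y => g x.1 y.1 * g x.2.1 y.2.1 * g x.2.2.1 y.2.2.1 * g x.2.2.2 y.2.2.2

/-- the tensor product of four rectangular matrices -/
private def r4 (a b c d : Matrix A B R) : Matrix (A × A × A × A) (B × B × B × B) R :=
  Matrix.of fun x y => a x.1 y.1 * b x.2.1 y.2.1 * c x.2.2.1 y.2.2.1 * d x.2.2.2 y.2.2.2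

omit [Fintype A] [DecidableEq A] [DecidableEq B] [Fintype D] [DecidableEq D] in
private theorem r4_mul (a b c d : Matrix A B R) (a' b' c' d' : Matrix B D R) :
    r4 a b c d * r4 a' b' c' d' = r4 (a * a') (b * b') (c * c') (d * d') := by
  ext x y
  rw [Matrix.mul_apply, Fintype.sum_prod_type]
  simp_rw [Fintype.sum_prod_type]
  have key : ∀ i j k : B, ∑ l, r4 a b c d x (i, j, k, l) * r4 a' b' c' d' (i, j, k, l) y =
      (a x.1 i * a' i y.1) * (b x.2.1 j * b' j y.2.1) * (c x.2.2.1 k * c' k y.2.2.1) *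
        ∑ l, d x.2.2.2 l * d' l y.2.2.2 := by
    intro i j k
    rw [Finset.mul_sum]
    apply Finset.sum_congr rfl
    intro l _
    show (a x.1 i * b x.2.1 j * c x.2.2.1 k * d x.2.2.2 l) *
      (a' i y.1 * b' j y.2.1 * c' k y.2.2.1 * d' l y.2.2.2) = _
    ring
  simp_rw [key, ← Finset.sum_mul, ← Finset.mul_sum, ← Finset.sum_mul]
  show _ = (a * a') x.1 y.1 * (b * b') x.2.1 y.2.1 * (c * c') x.2.2.1 y.2.2.1 *
    (d * d') x.2.2.2 y.2.2.2
  rw [Matrix.mul_apply, Matrix.mul_apply, Matrix.mul_apply, Matrix.mul_apply,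
    Finset.sum_mul_sum Finset.univ Finset.univ (fun j => a x.1 j * a' j y.1)
      (fun j => b x.2.1 j * b' j y.2.1)]

omit [Fintype A] [DecidableEq A] [Fintype B] [DecidableEq B] in
private theorem kr_eq (a : Matrix A B R) : kr a = r4 a a a a := rfl

omit [Fintype A] in
private theorem d4_eq' (X : Matrix A A R) :
    d4 X = r4 X 1 1 1 + r4 1 X 1 1 + r4 1 1 X 1 + r4 1 1 1 X := rfl

theorem kr_mul (g : Matrix A B R) (h : Matrix B D R) : kr (g * h) = kr g * kr h := by
  rw [kr_eq, kr_eq, kr_eq, r4_mul]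

theorem kr_sq (g : Matrix A A R) : kr g = k4 g := rfl

theorem kr_k4 (π : Matrix A B R) (g : Matrix B B R) (ι : Matrix B A R) :
    kr π * k4 g * kr ι = k4 (π * g * ι) := by
  rw [← kr_sq, ← kr_sq, kr_mul, kr_mul]

theorem kr_one {π : Matrix A B R} {ι : Matrix B A R} (h : π * ι = 1) : kr π * kr ι = 1 := by
  rw [← kr_mul, h, kr_sq, k4_one]

theorem kr_d4 {π : Matrix A B R} {ι : Matrix B A R} (h : π * ι = 1) (g : Matrix B B R) :
    kr π * d4 g * kr ι = d4 (π * g * ι) := by
  rw [d4_eq', d4_eq', kr_eq, kr_eq]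
  simp only [Matrix.add_mul, Matrix.mul_add, r4_mul, Matrix.mul_one, h]

theorem k4_map {R' : Type} [CommRing R'] (φ : R →+* R') (g : Matrix A A R) :
    (k4 g).map φ = k4 (g.map φ) := by
  ext x y
  simp only [k4, Matrix.map_apply, Matrix.of_apply, map_mul]

theorem d4_map {R' : Type} [CommRing R'] (φ : R →+* R') (g : Matrix A A R) :
    (d4 g).map φ = d4 (g.map φ) := by
  have h1 : ∀ i j : A, φ ((1 : Matrix A A R) i j) = (1 : Matrix A A R') i j := by
    intro i j
    by_cases h : i = j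
    · subst h
      rw [Matrix.one_apply_eq, Matrix.one_apply_eq, map_one]
    · rw [Matrix.one_apply_ne h, Matrix.one_apply_ne h, map_zero]
  ext x y
  simp only [d4, Matrix.map_apply, Matrix.of_apply, map_add, map_mul, h1]

end Pool.Agent.Lib.MP_640417_ag.Ty
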