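import Pool.Agent.Lib.MP_640417_ag.Ty.Defs
import Pool.Agent.Lib.MP_640417_ag.Glob.Rad
import Pool.Agent.Lib.MP_640417_ag.Glob.GenD

/-!
# MP_640417_ag, Ty, module SpanK (150 lines): the commutant over an extension field

* `cK`: the elements which commute with an open subgroup form a subalgebra (intersection of two open subgroups).
* `inCK_span`: let `c` commute with `M γ`, `γ ∈ U`. These are linear equations for the entries of `c` with
  coefficients in `F`: apply `span_of_eq` with `E` = the set of all coefficient matrices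
  `a i j = M γ p i * δ j r - δ i p * M γ j r` (`γ ∈ U`, `p, r ∈ I`); solutions over `F` satisfy `InC`.
* `inCK_full`: from `inCK_span` and `Full0`.
* `inCK_adj`: `Mᵀ J M = μ J` (map it to `K`), so `J M = μ (Mᵀ)⁻¹ J`; if `M c = c M` for `γ ∈ U` then
  `c' = J⁻¹ cᵀ J` satisfies `c' M⁻¹.. `: transpose `M c = c M` to get `cᵀ Mᵀ = Mᵀ cᵀ`, and
  `M c' = M J⁻¹ cᵀ J = μ J⁻¹ (Mᵀ)⁻¹ cᵀ J = μ J⁻¹ cᵀ (Mᵀ)⁻¹ J = J⁻¹ cᵀ J M = c' M` (`M J⁻¹ = μ J⁻¹ (Mᵀ)⁻¹` from
  `M J⁻¹ Mᵀ = μ J⁻¹`; use `M γ⁻¹` for the inverse).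
* `zsymm_of_real`: a central element of the commutant commutes with `s`, so it is a polynomial in `s`, and polynomials in
  `s` are symmetric (`Algebra.adjoin_induction`; `F[s]` is commutative).
-/

set_option autoImplicit false

namespace Pool.Agent.Lib.MP_640417_ag.Ty

open Matrix Module Pool.Agent.Lib.MP_640417_ag.Glob

variable {Γ : Type} [Group Γ] [TopologicalSpace Γ] {F : Type} [NontriviallyNormedField F]
  {I : Type} [Fintype I] [DecidableEq I] (ρ : MRep Γ F I) (K : Type) [Field K] [Algebra F K]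

/-- the commutant over `K` as a subalgebra -/
def cK : Subalgebra K (Matrix I I K) where
  carrier := {c | InCK ρ K c}
  mul_mem' := by
    rintro a b ⟨U, hU⟩ ⟨V, hV⟩
    refine ⟨U ⊓ V, fun γ hγ => ?_⟩
    rw [← Matrix.mul_assoc, hU γ hγ.1, Matrix.mul_assoc, hV γ hγ.2, Matrix.mul_assoc]
  add_mem' := by
    rintro a b ⟨U, hU⟩ ⟨V, hV⟩
    refine ⟨U ⊓ V, fun γ hγ => ?_⟩
    rw [Matrix.mul_add, Matrix.add_mul, hU γ hγ.1, hV γ hγ.2]
  algebraMap_mem' := by
    intro r
    exact ⟨⊤, fun γ _ => (Algebra.commutes r _).symm⟩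

theorem mem_cK {c : Matrix I I K} : c ∈ cK ρ K ↔ InCK ρ K c := Iff.rfl

theorem inCK_map {b : Matrix I I F} (hb : ρ.InC b) : InCK ρ K (b.map (algebraMap F K)) := by
  obtain ⟨U, hU⟩ := hb
  exact ⟨U, fun γ hγ => by rw [← Matrix.map_mul, hU γ hγ, Matrix.map_mul]⟩

private theorem spanK_eq {S : Type} [CommRing S] (b X : Matrix I I S) (i j : I) :
    ∑ p, ∑ q, ((if p = i then b q j else 0) - (if q = j then b i p else 0)) * X p q =
      (X * b - b * X) i j := by
  rw [Matrix.sub_apply, Matrix.mul_apply, Matrix.mul_apply]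
  have h1 : ∀ p, ∑ q, ((if p = i then b q j else 0) - (if q = j then b i p else 0)) * X p q =
      (if p = i then ∑ q, b q j * X p q else 0) - b i p * X p j := by
    intro p
    simp only [sub_mul, Finset.sum_sub_distrib, ite_mul, zero_mul, Finset.sum_ite_eq',
      Finset.mem_univ, if_true]
    congr 1
    split_ifs
    · rfl
    · simp
  simp only [h1, Finset.sum_sub_distrib, Finset.sum_ite_eq', Finset.mem_univ, if_true]
  congr 1
  refine Finset.sum_congr rfl fun q _ => ?_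
  ring

theorem inCK_span [CharZero F] {c : Matrix I I K} (hc : InCK ρ K c) :
    c ∈ Submodule.span K {Y : Matrix I I K | ∃ b : Matrix I I F, ρ.InC b ∧
      Y = b.map (algebraMap F K)} := by
  obtain ⟨U, hU⟩ := hc
  let E : Set (Matrix I I F) := {a | ∃ γ ∈ U, ∃ i j, a = Matrix.of fun p q =>
    ((if p = i then ρ.M γ q j else 0) - (if q = j then ρ.M γ i p else 0))}
  have hE : ∀ a ∈ E, ∑ i, ∑ j, algebraMap F K (a i j) * c i j = 0 := by
    rintro a ⟨γ, hγ, i, j, rfl⟩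
    have h3 := spanK_eq ((ρ.M γ).map (algebraMap F K)) c i j
    rw [hU γ hγ, sub_self, Matrix.zero_apply] at h3
    rw [← h3]
    refine Finset.sum_congr rfl fun p _ => Finset.sum_congr rfl fun q _ => ?_
    simp only [Matrix.of_apply, map_sub, Matrix.map_apply]
    congr 2 <;> split_ifs <;> simp
  refine Submodule.span_mono ?_ (span_of_eq E c hE)
  rintro Y ⟨A, hA, rfl⟩
  refine ⟨A, ⟨U, fun γ hγ => ?_⟩, rfl⟩
  symm
  rw [← sub_eq_zero]
  ext i j
  rw [← spanK_eq, Matrix.zero_apply]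
  exact hA _ ⟨γ, hγ, i, j, rfl⟩

theorem inCK_full [CharZero F] (h : Full0 ρ) {c : Matrix I I K} (hc : InCK ρ K c) (γ : Γ) :
    (ρ.M γ).map (algebraMap F K) * c = c * (ρ.M γ).map (algebraMap F K) := by
  have h1 := inCK_span ρ K hc
  clear hc
  induction h1 using Submodule.span_induction with
  | mem x hx =>
    obtain ⟨b, hb, rfl⟩ := hx
    rw [← Matrix.map_mul, h b hb γ, Matrix.map_mul]
  | zero => rw [Matrix.mul_zero, Matrix.zero_mul]
  | add x y _ _ hx hy => rw [Matrix.mul_add, Matrix.add_mul, hx, hy]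
  | smul r x _ hx => rw [Matrix.mul_smul, Matrix.smul_mul, hx]

theorem inCK_adj {c : Matrix I I K} (hc : InCK ρ K c) :
    InCK ρ K ((ρ.J.map (algebraMap F K))⁻¹ * cᵀ * ρ.J.map (algebraMap F K)) := by
  obtain ⟨U, hU⟩ := hc
  refine ⟨U, fun γ hγ => ?_⟩
  set J' := ρ.J.map (algebraMap F K) with hJ'
  have hdet : IsUnit J'.det := by
    have e : J'.det = algebraMap F K ρ.J.det := by
      rw [hJ', RingHom.map_det, RingHom.mapMatrix_apply]
    rw [e]
    exact (IsUnit.mk0 _ ρ.det).map _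
  set M' := (ρ.M γ).map (algebraMap F K) with hM'
  set N' := (ρ.M γ⁻¹).map (algebraMap F K) with hN'
  set m := algebraMap F K (ρ.μ γ : F) with hm
  have h1 : M' * N' = 1 := by
    rw [hM', hN', ← Matrix.map_mul, ← map_mul, mul_inv_cancel, map_one]
    exact Matrix.map_one _ (map_zero _) (map_one _)
  have h2 : M'ᵀ * J' * M' = m • J' := by
    rw [hM', hJ', hm, ← Matrix.transpose_map, ← Matrix.map_mul, ← Matrix.map_mul, ρ.eq γ]
    ext i j
    simp
  have h3 : N'ᵀ * M'ᵀ = 1 := by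
    rw [← Matrix.transpose_mul, h1, Matrix.transpose_one]
  have h4 : J' * M' = m • (N'ᵀ * J') := by
    calc J' * M' = (N'ᵀ * M'ᵀ) * (J' * M') := by rw [h3, Matrix.one_mul]
      _ = N'ᵀ * (M'ᵀ * J' * M') := by simp only [Matrix.mul_assoc]
      _ = m • (N'ᵀ * J') := by rw [h2, Matrix.mul_smul]
  have h5 : M' * J'⁻¹ = m • (J'⁻¹ * N'ᵀ) := by
    calc M' * J'⁻¹ = J'⁻¹ * (J' * M') * J'⁻¹ := by
          rw [← Matrix.mul_assoc, Matrix.nonsing_inv_mul _ hdet, Matrix.one_mul]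
      _ = m • (J'⁻¹ * N'ᵀ * (J' * J'⁻¹)) := by
          rw [h4, Matrix.mul_smul, Matrix.smul_mul]
          simp only [Matrix.mul_assoc]
      _ = m • (J'⁻¹ * N'ᵀ) := by rw [Matrix.mul_nonsing_inv _ hdet, Matrix.mul_one]
  have h6 : cᵀ * N'ᵀ = N'ᵀ * cᵀ := by
    have h7 := hU γ⁻¹ (inv_mem hγ)
    rw [← Matrix.transpose_mul, ← Matrix.transpose_mul, ← hN'] at *
    rw [h7]
  calc M' * (J'⁻¹ * cᵀ * J') = (M' * J'⁻¹) * cᵀ * J' := by simp only [Matrix.mul_assoc]
    _ = m • (J'⁻¹ * (N'ᵀ * cᵀ) * J') := by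
        rw [h5, Matrix.smul_mul, Matrix.smul_mul]
        simp only [Matrix.mul_assoc]
    _ = m • (J'⁻¹ * cᵀ * (N'ᵀ * J')) := by
        rw [← h6]
        simp only [Matrix.mul_assoc]
    _ = J'⁻¹ * cᵀ * (J' * M') := by rw [h4, Matrix.mul_smul]
    _ = J'⁻¹ * cᵀ * J' * M' := by simp only [Matrix.mul_assoc]

theorem zsymm_of_real (h : RealM ρ) : ρ.ZSymm := by
  obtain ⟨s, hs, hsJ, _, hs2⟩ := h
  intro b hb hbc
  have h1 := hs2 b hb (hbc s hs)
  rw [Algebra.adjoin_singleton_eq_range_aeval] at h1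
  obtain ⟨p, hp⟩ := h1
  have hp' : Polynomial.aeval s p = b := hp
  have hpow : ∀ n : ℕ, (s ^ n)ᵀ * ρ.J = ρ.J * s ^ n := by
    intro n
    induction n with
    | zero => rw [pow_zero, Matrix.transpose_one, Matrix.one_mul, Matrix.mul_one]
    | succ n ih =>
      rw [pow_succ, Matrix.transpose_mul, Matrix.mul_assoc, ih, ← Matrix.mul_assoc, hsJ,
        Matrix.mul_assoc, ← pow_succ', ← pow_succ]
  rw [← hp', Polynomial.aeval_eq_sum_range, Matrix.transpose_sum, Finset.sum_mul,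
    Finset.mul_sum]
  refine Finset.sum_congr rfl fun n _ => ?_
  rw [Matrix.transpose_smul, Matrix.smul_mul, Matrix.mul_smul, hpow]

end Pool.Agent.Lib.MP_640417_ag.Ty
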