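import Pool.Agent.Lib.MP_640417_ag.Glob.GenD

/-!
# MP_640417_ag, Ty, module GenT (180 lines): generic elements, for functions with values in an extension field

The same proofs as in `Glob/GenZ.lean` and `Glob/GenD.lean` for the functions `f1 (π X ι)`, `f2 (π X ι)` with matrices
`ι`, `π` over the extension field `K`: the polynomial `g = f1 (π Y ι) * f2 (π Y ι)`, `Y = ∑ X_j • A_j`, is now in
`MvPolynomial ν K`, and `exists_nat` is applied over `K`.
* `gen_descentK`: `X0 = ∑ c_j (A_j).map` with `c_j ∈ K`, `A_j ∈ L`: the value of `g` at `c` is not zero, so there is a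
  natural point `t` with nonzero value, `X = ∑ t_j A_j ∈ L`.
* `gen_FK`: with `span_of_eq` as in `gen_F` of `Glob/GenD.lean`.
* `gen_spanK`: as `gen_span` of `Glob/GenZ.lean`.
-/

set_option autoImplicit false

namespace Pool.Agent.Lib.MP_640417_ag.Ty

open Matrix Pool.Agent.Lib.MP_640417_ag.Glob

variable {F : Type} [Field F] [CharZero F] {K : Type} [Field K] [Algebra F K] {I : Type} [Fintype I]
  [DecidableEq I] {A : Type} [Fintype A] [DecidableEq A]

omit [CharZero F] [DecidableEq I] in
private theorem mulMap {S S' : Type} [CommRing S] [CommRing S'] (φ : S →+* S') {P Q T : Type}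
    [Fintype Q] (M : Matrix P Q S) (N : Matrix Q T S) : (M * N).map φ = M.map φ * N.map φ := by
  ext i j
  simp only [Matrix.map_apply, Matrix.mul_apply, map_sum, map_mul]

/-- the generic combination -/
private noncomputable def gY (K : Type) [Field K] [Algebra F K] {n : ℕ} (B : Fin n → Matrix I I F) :
    Matrix I I (MvPolynomial (Fin n) K) :=
  Matrix.of fun p q => ∑ k, MvPolynomial.X k * MvPolynomial.C (algebraMap F K (B k p q))

omit [CharZero F] [Fintype I] [DecidableEq I] in
private theorem gY_map {n : ℕ} (B : Fin n → Matrix I I F) (v : Fin n → K) :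
    (gY K B).map (MvPolynomial.eval v) = ∑ k, v k • (B k).map (algebraMap F K) := by
  ext p q
  simp only [gY, Matrix.map_apply, Matrix.of_apply, Matrix.sum_apply, Matrix.smul_apply,
    smul_eq_mul, map_sum, map_mul, MvPolynomial.eval_X, MvPolynomial.eval_C]

omit [CharZero F] [Fintype I] [DecidableEq I] in
private theorem gY_map' {n : ℕ} (B : Fin n → Matrix I I F) (v : Fin n → F) :
    (gY K B).map (MvPolynomial.eval fun i => algebraMap F K (v i)) =
      (∑ k, v k • B k).map (algebraMap F K) := by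
  rw [gY_map]
  ext p q
  simp only [Matrix.map_apply, Matrix.sum_apply, Matrix.smul_apply, smul_eq_mul, map_sum, map_mul]

omit [CharZero F] [DecidableEq I] [Fintype A] [DecidableEq A] in
private theorem sandwich_map {n : ℕ} (ι : Matrix I A K) (π : Matrix A I K)
    (Y : Matrix I I (MvPolynomial (Fin n) K)) (v : Fin n → K) :
    (π.map (MvPolynomial.C : K →+* MvPolynomial (Fin n) K) * Y *
      ι.map (MvPolynomial.C : K →+* MvPolynomial (Fin n) K)).map (MvPolynomial.eval v) =
      π * Y.map (MvPolynomial.eval v) * ι := by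
  have hc : ∀ {P Q : Type} (M : Matrix P Q K),
      (M.map (MvPolynomial.C : K →+* MvPolynomial (Fin n) K)).map (MvPolynomial.eval v) = M := by
    intro P Q M
    ext i j
    rw [Matrix.map_apply, Matrix.map_apply, MvPolynomial.eval_C]
  rw [mulMap, mulMap, hc, hc]

omit [CharZero F] in
/-- from a nonzero value to a natural point -/
private theorem natPt [CharZero K] {n : ℕ} (ι : Matrix I A K) (π : Matrix A I K)
    (Y : Matrix I I (MvPolynomial (Fin n) K)) (v : Fin n → K)
    (h1 : f1 (π * Y.map (MvPolynomial.eval v) * ι) ≠ 0)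
    (h2 : f2 (π * Y.map (MvPolynomial.eval v) * ι) ≠ 0) :
    ∃ t : Fin n → ℕ, f1 (π * Y.map (MvPolynomial.eval fun i => (t i : K)) * ι) ≠ 0 ∧
      f2 (π * Y.map (MvPolynomial.eval fun i => (t i : K)) * ι) ≠ 0 := by
  set M := π.map (MvPolynomial.C : K →+* MvPolynomial (Fin n) K) * Y *
      ι.map (MvPolynomial.C : K →+* MvPolynomial (Fin n) K) with hM
  have hne : f1 M * f2 M ≠ 0 := by
    intro h0
    have h3 := congrArg (MvPolynomial.eval v) h0
    rw [map_mul, map_zero, ← f1_map, ← f2_map, hM, sandwich_map] at h3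
    exact (mul_ne_zero h1 h2) h3
  obtain ⟨t, ht⟩ := exists_nat _ hne
  rw [map_mul, ← f1_map, ← f2_map, hM, sandwich_map] at ht
  exact ⟨t, left_ne_zero_of_mul ht, right_ne_zero_of_mul ht⟩

theorem gen_descentK (ι : Matrix I A K) (π : Matrix A I K) (L : Submodule F (Matrix I I F))
    (X0 : Matrix I I K)
    (hX0 : X0 ∈ Submodule.span K {Y : Matrix I I K | ∃ B ∈ L, Y = B.map (algebraMap F K)})
    (h1 : f1 (π * X0 * ι) ≠ 0) (h2 : f2 (π * X0 * ι) ≠ 0) :
    ∃ X ∈ L, f1 (π * X.map (algebraMap F K) * ι) ≠ 0 ∧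
      f2 (π * X.map (algebraMap F K) * ι) ≠ 0 := by
  classical
  have hK : CharZero K := charZero_of_injective_algebraMap (algebraMap F K).injective
  obtain ⟨n, c, g, hg⟩ := Submodule.mem_span_set'.1 hX0
  choose B hB hB' using fun i => (g i).2
  have hY : (gY K B).map (MvPolynomial.eval c) = X0 := by
    rw [gY_map, ← hg]
    exact Finset.sum_congr rfl fun k _ => by rw [hB' k]
  rw [← hY] at h1 h2
  obtain ⟨t, ht1, ht2⟩ := natPt ι π (gY K B) c h1 h2
  have h3 := gY_map' (K := K) B (fun i => (t i : F))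
  simp only [map_natCast] at h3
  rw [h3] at ht1 ht2
  exact ⟨∑ k, (t k : F) • B k, Submodule.sum_mem _ fun k _ => Submodule.smul_mem _ _ (hB k),
    ht1, ht2⟩

private theorem genT_eq1 {S : Type} [CommRing S] (J X : Matrix I I S) (i j : I) :
    ∑ p, ∑ q, ((if q = i then J p j else 0) + (if q = j then J i p else 0)) * X p q =
      (Xᵀ * J + J * X) i j := by
  rw [Matrix.add_apply, Matrix.mul_apply, Matrix.mul_apply, ← Finset.sum_add_distrib]
  refine Finset.sum_congr rfl fun p _ => ?_
  simp only [add_mul, Finset.sum_add_distrib, ite_mul, zero_mul, Finset.sum_ite_eq',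
    Finset.mem_univ, if_true, Matrix.transpose_apply]
  ring

private theorem genT_eq2 {S : Type} [CommRing S] (b X : Matrix I I S) (i j : I) :
    ∑ p, ∑ q, ((if p = i then b q j else 0) - (if q = j then b i p else 0)) * X p q =
      (X * b - b * X) i j := by
  rw [Matrix.sub_apply, Matrix.mul_apply, Matrix.mul_apply]
  have h1 : ∀ p, ∑ q, ((if p = i then b q j else 0) - (if q = j then b i p else 0)) * X p q =
      (if p = i then ∑ q, b q j * X p q else 0) - b i p * X p j := by
    intro p
    simp only [sub_mul, Finset.sum_sub_distrib, ite_mul, zero_mul, Finset.sum_ite_eq',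
      Finset.mem_univ, if_true]
    congr 1
    split_ifs
    · rfl
    · simp
  simp only [h1, Finset.sum_sub_distrib, Finset.sum_ite_eq', Finset.mem_univ, if_true]
  congr 1
  refine Finset.sum_congr rfl fun q _ => ?_
  ring

theorem gen_FK (ι : Matrix I A K) (π : Matrix A I K) (J : Matrix I I F) (C : Set (Matrix I I F))
    (X0 : Matrix I I K)
    (hs : X0ᵀ * J.map (algebraMap F K) + J.map (algebraMap F K) * X0 = 0)
    (hC : ∀ b ∈ C, X0 * b.map (algebraMap F K) = b.map (algebraMap F K) * X0)
    (h1 : f1 (π * X0 * ι) ≠ 0) (h2 : f2 (π * X0 * ι) ≠ 0) :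
    ∃ X : Matrix I I F, Xᵀ * J + J * X = 0 ∧ (∀ b ∈ C, X * b = b * X) ∧
      f1 (π * X.map (algebraMap F K) * ι) ≠ 0 ∧ f2 (π * X.map (algebraMap F K) * ι) ≠ 0 := by
  classical
  let L : Submodule F (Matrix I I F) :=
    { carrier := {X | Xᵀ * J + J * X = 0 ∧ ∀ b ∈ C, X * b = b * X}
      add_mem' := by
        rintro X Y ⟨hX1, hX2⟩ ⟨hY1, hY2⟩
        refine ⟨?_, fun b hb => ?_⟩
        · have h3 : (X + Y)ᵀ * J + J * (X + Y) = (Xᵀ * J + J * X) + (Yᵀ * J + J * Y) := by
            rw [Matrix.transpose_add, Matrix.add_mul, Matrix.mul_add]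
            abel
          rw [h3, hX1, hY1, add_zero]
        · rw [Matrix.add_mul, Matrix.mul_add, hX2 b hb, hY2 b hb]
      zero_mem' := by
        refine ⟨?_, fun b _ => ?_⟩
        · rw [Matrix.transpose_zero, Matrix.zero_mul, Matrix.mul_zero, add_zero]
        · rw [Matrix.zero_mul, Matrix.mul_zero]
      smul_mem' := by
        rintro c X ⟨hX1, hX2⟩
        refine ⟨?_, fun b hb => ?_⟩
        · rw [Matrix.transpose_smul, Matrix.smul_mul, Matrix.mul_smul, ← smul_add, hX1, smul_zero]
        · rw [Matrix.smul_mul, Matrix.mul_smul, hX2 b hb] }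
  let E : Set (Matrix I I F) :=
    {a | ∃ i j, a = Matrix.of fun p q => (if q = i then J p j else 0) + (if q = j then J i p else 0)} ∪
    {a | ∃ b ∈ C, ∃ i j, a = Matrix.of fun p q =>
      (if p = i then b q j else 0) - (if q = j then b i p else 0)}
  have hE : ∀ a ∈ E, ∑ i, ∑ j, algebraMap F K (a i j) * X0 i j = 0 := by
    rintro a (⟨i, j, rfl⟩ | ⟨b, hb, i, j, rfl⟩)
    · have h3 := genT_eq1 (J.map (algebraMap F K)) X0 i j
      rw [hs, Matrix.zero_apply] at h3
      rw [← h3]
      refine Finset.sum_congr rfl fun p _ => Finset.sum_congr rfl fun q _ => ?_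
      simp only [Matrix.of_apply, map_add, Matrix.map_apply]
      congr 2 <;> split_ifs <;> simp
    · have h3 := genT_eq2 (b.map (algebraMap F K)) X0 i j
      rw [hC b hb, sub_self, Matrix.zero_apply] at h3
      rw [← h3]
      refine Finset.sum_congr rfl fun p _ => Finset.sum_congr rfl fun q _ => ?_
      simp only [Matrix.of_apply, map_sub, Matrix.map_apply]
      congr 2 <;> split_ifs <;> simp
  have hspan := span_of_eq E X0 hE
  have hle : {Y : Matrix I I K | ∃ B : Matrix I I F,
      (∀ a ∈ E, ∑ i, ∑ j, a i j * B i j = 0) ∧ Y = B.map (algebraMap F K)} ⊆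
      {Y : Matrix I I K | ∃ B ∈ L, Y = B.map (algebraMap F K)} := by
    rintro Y ⟨B, hB, rfl⟩
    refine ⟨B, ⟨?_, fun b hb => ?_⟩, rfl⟩
    · ext i j
      rw [← genT_eq1, Matrix.zero_apply]
      exact hB _ (Or.inl ⟨i, j, rfl⟩)
    · rw [← sub_eq_zero]
      ext i j
      rw [← genT_eq2, Matrix.zero_apply]
      exact hB _ (Or.inr ⟨b, hb, i, j, rfl⟩)
  obtain ⟨X, ⟨hX1, hX2⟩, hX3, hX4⟩ :=
    gen_descentK ι π L X0 (Submodule.span_mono hle hspan) h1 h2
  exact ⟨X, hX1, hX2, hX3, hX4⟩

omit [CharZero F] [DecidableEq I] [Fintype I] in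
private theorem nsmul_mem_of (Z : Set (Matrix I I F)) (h0 : (0 : Matrix I I F) ∈ Z)
    (hadd : ∀ B ∈ Z, ∀ B' ∈ Z, B + B' ∈ Z) {B : Matrix I I F} (hB : B ∈ Z) (k : ℕ) :
    k • B ∈ Z := by
  induction k with
  | zero =>
    rw [zero_smul]
    exact h0
  | succ k ih =>
    rw [succ_nsmul]
    exact hadd _ ih _ hB

omit [CharZero F] [DecidableEq I] [Fintype I] in
private theorem sum_mem_of (Z : Set (Matrix I I F)) (h0 : (0 : Matrix I I F) ∈ Z)
    (hadd : ∀ B ∈ Z, ∀ B' ∈ Z, B + B' ∈ Z) {κ : Type} (w : Finset κ) (B : κ → Matrix I I F)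
    (hB : ∀ i, B i ∈ Z) (t : κ → ℕ) : (∑ i ∈ w, (t i : F) • B i) ∈ Z := by
  classical
  induction w using Finset.induction_on with
  | empty =>
    rw [Finset.sum_empty]
    exact h0
  | insert a w ha ih =>
    rw [Finset.sum_insert ha, Nat.cast_smul_eq_nsmul]
    exact hadd _ (nsmul_mem_of Z h0 hadd (hB a) (t a)) _ ih

/-- the generic traceless combination -/
private noncomputable def gT (K : Type) [Field K] [Algebra F K] {n : ℕ}
    (B : Fin n → Matrix I I F) : Matrix I I (MvPolynomial (Fin n) K) :=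
  gY K B - (MvPolynomial.C ((Fintype.card I : K)⁻¹) * (gY K B).trace) •
    (1 : Matrix I I (MvPolynomial (Fin n) K))

omit [CharZero F] in
private theorem gT_map {n : ℕ} (B : Fin n → Matrix I I F) (v : Fin n → F) :
    (gT K B).map (MvPolynomial.eval fun i => algebraMap F K (v i)) = ((∑ j, v j • B j) -
      ((∑ j, v j • B j).trace / (Fintype.card I : F)) • (1 : Matrix I I F)).map
        (algebraMap F K) := by
  have h0 := gY_map' (K := K) B v
  have h1 : MvPolynomial.eval (fun i => algebraMap F K (v i)) ((gY K B).trace) =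
      algebraMap F K (∑ j, v j • B j).trace := by
    have h2 : MvPolynomial.eval (fun i => algebraMap F K (v i)) ((gY K B).trace) =
        ((gY K B).map (MvPolynomial.eval fun i => algebraMap F K (v i))).trace := by
      rw [Matrix.trace, Matrix.trace, map_sum]
      rfl
    rw [h2, h0, Matrix.trace, Matrix.trace, map_sum]
    rfl
  ext a b
  have h3 := congrFun (congrFun h0 a) b
  rw [Matrix.map_apply, Matrix.map_apply] at h3
  simp only [gT, Matrix.map_apply, Matrix.sub_apply, Matrix.smul_apply, smul_eq_mul, map_sub,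
    map_mul, MvPolynomial.eval_C, h1, h3]
  rw [map_div₀, map_natCast, div_eq_inv_mul]
  by_cases hab : a = b
  · subst hab
    rw [Matrix.one_apply_eq, Matrix.one_apply_eq, map_one, map_one]
  · rw [Matrix.one_apply_ne hab, Matrix.one_apply_ne hab, map_zero, map_zero]

theorem gen_spanK (ι : Matrix I A K) (π : Matrix A I K) (Z : Set (Matrix I I F))
    (h0 : (0 : Matrix I I F) ∈ Z) (hadd : ∀ B ∈ Z, ∀ B' ∈ Z, B + B' ∈ Z) (X : Matrix I I F) (s : F)
    (hX : X + s • (1 : Matrix I I F) ∈ Submodule.span F Z) (htr : X.trace = 0)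
    (h1 : f1 (π * X.map (algebraMap F K) * ι) ≠ 0) (h2 : f2 (π * X.map (algebraMap F K) * ι) ≠ 0) :
    ∃ B ∈ Z,
      f1 (π * (B - (B.trace / (Fintype.card I : F)) • (1 : Matrix I I F)).map (algebraMap F K) * ι)
        ≠ 0 ∧
      f2 (π * (B - (B.trace / (Fintype.card I : F)) • (1 : Matrix I I F)).map (algebraMap F K) * ι)
        ≠ 0 := by
  have hK : CharZero K := charZero_of_injective_algebraMap (algebraMap F K).injective
  rcases isEmpty_or_nonempty I with hI | hI
  · refine ⟨0, h0, ?_, ?_⟩
    · rw [Subsingleton.elim ((0 : Matrix I I F) -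
        ((0 : Matrix I I F).trace / (Fintype.card I : F)) • (1 : Matrix I I F)) X]
      exact h1
    · rw [Subsingleton.elim ((0 : Matrix I I F) -
        ((0 : Matrix I I F).trace / (Fintype.card I : F)) • (1 : Matrix I I F)) X]
      exact h2
  · obtain ⟨n, c, B, hc⟩ := Submodule.mem_span_set'.mp hX
    have hcard : (Fintype.card I : F) ≠ 0 := by
      exact_mod_cast Fintype.card_ne_zero
    have hcX : (gT K (fun j => (B j : Matrix I I F))).map
        (MvPolynomial.eval fun i => algebraMap F K (c i)) = X.map (algebraMap F K) := by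
      rw [gT_map, hc]
      have h3 : (X + s • (1 : Matrix I I F)).trace = s * (Fintype.card I : F) := by
        rw [Matrix.trace_add, htr, zero_add, Matrix.trace_smul, Matrix.trace_one, smul_eq_mul]
      rw [h3, mul_div_assoc, div_self hcard, mul_one, add_sub_cancel_right]
    rw [← hcX] at h1 h2
    obtain ⟨t, ht1, ht2⟩ := natPt ι π _ _ h1 h2
    have h4 := gT_map (K := K) (fun j => (B j : Matrix I I F)) (fun i => (t i : F))
    simp only [map_natCast] at h4
    rw [h4] at ht1 ht2
    exact ⟨∑ j, (t j : F) • (B j : Matrix I I F),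
      sum_mem_of Z h0 hadd Finset.univ (fun j => (B j : Matrix I I F)) (fun j => (B j).2) t,
      ht1, ht2⟩

end Pool.Agent.Lib.MP_640417_ag.Ty
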