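import Pool.Agent.Lib.MP_640417_ag.Glob.Near
import Pool.Agent.Lib.MP_640417_ag.Glob.GenZ
import Pool.Agent.Lib.MP_640417_ag.Ty.OpenK
import Pool.Agent.Lib.MP_640417_ag.Ty.KRect

/-!
# MP_640417_ag, Ty, module NearK (250 lines): good elements near a good tangent vector, on a summand W

The same proof as in `Glob/Near.lean`. `G γ = π (M γ).map ι`. `G` is multiplicative: `(M γ).map` commutes with `ι π`, and
`π ι = 1`; so `G γ ^ N = π (M γ ^ N).map ι`, and `(G γ)ᵀ Ω (G γ) = μ Ω` with `Ω = ιᵀ J ι` (use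
`ιᵀ (Mᵀ J M) ι` and `M ι = ι (π M ι)`).
* separability: for large `j` `f1 (π X_j ι) ≠ 0` for `X_j = l^(-k) (M γ_j - 1) - t/2` (`open_f1`), and
  `G γ_j = l^k (π X_j ι) + (1 + l^k t/2)` has a separable characteristic polynomial (`sep_affine` over `K`).
* if `FourM (G γ_j) μ` fails, `four_of_coeff` (over the field `K`, with `J := Ω`) gives `N > 0` such that the coefficient
  `nt A` of the characteristic polynomial of `(μ^(2N))⁻¹ k4 (G^N) - 1` is zero. This matrix is
  `c (π4 E.map ι4)` with `c = N l^k`, `π4 = kr π`, `ι4 = kr ι`, `E = c⁻¹ ((μ^(2N))⁻¹ k4 (M^N) - 1)` over `F` (`kr_k4`,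
  `kr_one`, `k4_map`), so by `coeff_smul_zero` (for the field `K`; see `Glob/Cont.lean`, there it is stated for `F` with a
  norm, copy the proof) the coefficient is zero for `π4 E.map ι4`. By `lim_pow`, `lim_E` (over `F`)
  `E → d4 X`, and `π4 (d4 X).map ι4 = d4 (π X.map ι)` (`kr_d4`, `d4_map`) has a nonzero coefficient, so by `open_coeff` the
  coefficient is not zero for large `j`. Contradiction.
-/

set_option autoImplicit false

namespace Pool.Agent.Lib.MP_640417_ag.Ty

open Filter Topology Matrix Pool.Agent.Lib.MP_640417_ag.Glob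

variable {F : Type} [NontriviallyNormedField F] [IsUltrametricDist F] [CompleteSpace F] [CharZero F]
  {I : Type} [Fintype I] [DecidableEq I] {Γ : Type} [Group Γ] [TopologicalSpace Γ]
  (ρ : MRep Γ F I) {K : Type} [Field K] [Algebra F K] {A : Type} [Fintype A] [DecidableEq A]

private theorem coeff_smul_zeroK {κ : Type} [Fintype κ] [DecidableEq κ] (m : ℕ) (c : K)
    (hc : c ≠ 0) (Y : Matrix κ κ K) (h : (c • Y).charpoly.coeff m = 0) :
    Y.charpoly.coeff m = 0 := by
  have univ_eval : ∀ Y : Matrix κ κ K,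
      MvPolynomial.eval (fun p : κ × κ => Y p.1 p.2) ((Matrix.charpoly.univ K κ).coeff m) =
      Y.charpoly.coeff m := by
    intro Y
    have h := Matrix.charpoly.univ_coeff_eval₂Hom (R := K) (S := K) κ (RingHom.id K)
      (fun p : κ × κ => Y p.1 p.2) m
    have h2 : Matrix.of (Function.curry fun p : κ × κ => Y p.1 p.2) = Y := by
      ext i j
      rfl
    rw [h2] at h
    exact h
  rcases Nat.lt_or_ge (Fintype.card κ) m with hm | hm
  · apply Polynomial.coeff_eq_zero_of_natDegree_lt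
    rw [Matrix.charpoly_natDegree_eq_dim]
    exact hm
  · obtain ⟨j, hj⟩ : ∃ j, m + j = Fintype.card κ := ⟨Fintype.card κ - m, by omega⟩
    have hhom := Matrix.charpoly.univ_coeff_isHomogeneous K κ m j hj
    rw [← univ_eval] at h ⊢
    rw [MvPolynomial.eval_eq'] at h ⊢
    have h1 : ∑ d ∈ ((Matrix.charpoly.univ K κ).coeff m).support,
        ((Matrix.charpoly.univ K κ).coeff m).coeff d *
          ∏ i : κ × κ, ((c • Y) i.1 i.2) ^ d i = c ^ j *
        ∑ d ∈ ((Matrix.charpoly.univ K κ).coeff m).support,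
        ((Matrix.charpoly.univ K κ).coeff m).coeff d * ∏ i : κ × κ, (Y i.1 i.2) ^ d i := by
      rw [Finset.mul_sum]
      refine Finset.sum_congr rfl fun d hd => ?_
      have h2 : ∑ i : κ × κ, d i = j := by
        have h3 := hhom (MvPolynomial.mem_support_iff.mp hd)
        rw [← h3, Finsupp.weight_apply, Finsupp.sum_fintype]
        · simp
        · simp
      have h4 : ∏ i : κ × κ, ((c • Y) i.1 i.2) ^ d i =
          c ^ j * ∏ i : κ × κ, (Y i.1 i.2) ^ d i := by
        rw [← h2, ← Finset.prod_pow_eq_pow_sum, ← Finset.prod_mul_distrib]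
        refine Finset.prod_congr rfl fun i _ => ?_
        rw [Matrix.smul_apply, smul_eq_mul, mul_pow]
      rw [h4]
      ring
    rw [h1] at h
    exact (mul_eq_zero.mp h).resolve_left (pow_ne_zero _ hc)

private theorem four_of_emptyK [IsEmpty A] (g : Matrix A A K) (μ : K) : FourM g μ := by
  have h : g.charpoly = 1 := by
    unfold Matrix.charpoly
    exact Matrix.det_isEmpty
  refine ⟨?_, ?_⟩
  · rw [h]
    exact Polynomial.separable_one
  · intro a b u v ha
    rw [h, map_one] at ha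
    exact absurd ha one_ne_zero

section compress

variable {I' A' : Type} [Fintype I'] [DecidableEq I'] [Fintype A'] [DecidableEq A']

private theorem comp_smul (π : Matrix A' I' K) (ι : Matrix I' A' K) (a : F) (Y : Matrix I' I' F) :
    π * (a • Y).map (algebraMap F K) * ι =
      algebraMap F K a • (π * Y.map (algebraMap F K) * ι) := by
  have h : (a • Y).map (algebraMap F K) = algebraMap F K a • Y.map (algebraMap F K) := by
    ext x y
    simp
  rw [h, Matrix.mul_smul, Matrix.smul_mul]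

private theorem comp_sub (π : Matrix A' I' K) (ι : Matrix I' A' K) (Y Z : Matrix I' I' F) :
    π * (Y - Z).map (algebraMap F K) * ι =
      π * Y.map (algebraMap F K) * ι - π * Z.map (algebraMap F K) * ι := by
  have h : (Y - Z).map (algebraMap F K) = Y.map (algebraMap F K) - Z.map (algebraMap F K) := by
    ext x y
    simp
  rw [h, Matrix.mul_sub, Matrix.sub_mul]

private theorem comp_one (π : Matrix A' I' K) (ι : Matrix I' A' K) (h1 : π * ι = 1) :
    π * (1 : Matrix I' I' F).map (algebraMap F K) * ι = 1 := by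
  rw [Matrix.map_one _ (map_zero _) (map_one _), Matrix.mul_one, h1]

end compress

private theorem comp_mul (ι : Matrix I A K) (π : Matrix A I K) (h1 : π * ι = 1)
    (Y Z : Matrix I I F)
    (hZ : Z.map (algebraMap F K) * (ι * π) = (ι * π) * Z.map (algebraMap F K)) :
    (π * Y.map (algebraMap F K) * ι) * (π * Z.map (algebraMap F K) * ι) =
      π * (Y * Z).map (algebraMap F K) * ι := by
  have h2 : (Y * Z).map (algebraMap F K) = Y.map (algebraMap F K) * Z.map (algebraMap F K) :=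
    Matrix.map_mul
  calc (π * Y.map (algebraMap F K) * ι) * (π * Z.map (algebraMap F K) * ι)
      = π * Y.map (algebraMap F K) * ((ι * π) * Z.map (algebraMap F K)) * ι := by
        simp only [Matrix.mul_assoc]
    _ = π * Y.map (algebraMap F K) * (Z.map (algebraMap F K) * (ι * π)) * ι := by rw [hZ]
    _ = π * (Y.map (algebraMap F K) * Z.map (algebraMap F K)) * ι * (π * ι) := by
        simp only [Matrix.mul_assoc]
    _ = _ := by rw [h1, Matrix.mul_one, h2]

private theorem comp_pow (ι : Matrix I A K) (π : Matrix A I K) (h1 : π * ι = 1)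
    (Y : Matrix I I F)
    (hY : Y.map (algebraMap F K) * (ι * π) = (ι * π) * Y.map (algebraMap F K)) (N : ℕ) :
    (π * Y.map (algebraMap F K) * ι) ^ N = π * (Y ^ N).map (algebraMap F K) * ι := by
  induction N with
  | zero => rw [pow_zero, pow_zero, comp_one π ι h1]
  | succ N ih => rw [pow_succ, ih, comp_mul ι π h1 _ _ hY, ← pow_succ]

private theorem comp_form (ι : Matrix I A K) (π : Matrix A I K) (h1 : π * ι = 1)
    (Y J : Matrix I I F) (m : F) (hm : Yᵀ * J * Y = m • J)
    (hY : Y.map (algebraMap F K) * (ι * π) = (ι * π) * Y.map (algebraMap F K)) :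
    (π * Y.map (algebraMap F K) * ι)ᵀ * (ιᵀ * J.map (algebraMap F K) * ι) *
      (π * Y.map (algebraMap F K) * ι) =
      algebraMap F K m • (ιᵀ * J.map (algebraMap F K) * ι) := by
  have h2 : ι * (π * Y.map (algebraMap F K) * ι) = Y.map (algebraMap F K) * ι := by
    calc ι * (π * Y.map (algebraMap F K) * ι) = ((ι * π) * Y.map (algebraMap F K)) * ι := by
          simp only [Matrix.mul_assoc]
      _ = (Y.map (algebraMap F K) * (ι * π)) * ι := by rw [hY]
      _ = Y.map (algebraMap F K) * ι * (π * ι) := by simp only [Matrix.mul_assoc]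
      _ = _ := by rw [h1, Matrix.mul_one]
  have h3 : (Y.map (algebraMap F K))ᵀ * J.map (algebraMap F K) * Y.map (algebraMap F K) =
      algebraMap F K m • J.map (algebraMap F K) := by
    have h4 := congrArg (fun W : Matrix I I F => W.map (algebraMap F K)) hm
    simp only [Matrix.map_mul] at h4
    rw [Matrix.transpose_map] at h4
    rw [h4]
    ext x y
    simp
  calc (π * Y.map (algebraMap F K) * ι)ᵀ * (ιᵀ * J.map (algebraMap F K) * ι) *
      (π * Y.map (algebraMap F K) * ι)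
      = (ι * (π * Y.map (algebraMap F K) * ι))ᵀ * J.map (algebraMap F K) *
        (ι * (π * Y.map (algebraMap F K) * ι)) := by
        simp only [Matrix.transpose_mul, Matrix.mul_assoc]
    _ = ιᵀ * ((Y.map (algebraMap F K))ᵀ * J.map (algebraMap F K) * Y.map (algebraMap F K)) *
        ι := by
        rw [h2]
        simp only [Matrix.transpose_mul, Matrix.mul_assoc]
    _ = _ := by rw [h3, Matrix.mul_smul, Matrix.smul_mul]

private theorem near_goodK (ι : Matrix I A K) (π : Matrix A I K) (h1 : π * ι = 1)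
    (hcomm : ∀ γ, (ρ.M γ).map (algebraMap F K) * (ι * π) = (ι * π) * (ρ.M γ).map (algebraMap F K))
    (halt : ∀ v : A → K, v ⬝ᵥ ((ιᵀ * ρ.J.map (algebraMap F K) * ι) *ᵥ v) = 0)
    (hdet : (ιᵀ * ρ.J.map (algebraMap F K) * ι).det ≠ 0)
    (l : ℕ) [Fact l.Prime] (hl : ‖(l : F)‖ < 1) (B : Matrix I I F) (t : F)
    (hB : Bᵀ * ρ.J + ρ.J * B = t • ρ.J)
    (hf1 : f1 (π * (B - (t / 2) • (1 : Matrix I I F)).map (algebraMap F K) * ι) ≠ 0)
    (hf2 : f2 (π * (B - (t / 2) • (1 : Matrix I I F)).map (algebraMap F K) * ι) ≠ 0)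
    (γ : ℕ → Γ) (k : ℕ → ℕ) (hk : Tendsto k atTop atTop)
    (h : Tendsto (fun j => ((l : F) ^ k j)⁻¹ • (ρ.M (γ j) - 1)) atTop (𝓝 B)) :
    ∀ᶠ j in atTop, FourM (π * (ρ.M (γ j)).map (algebraMap F K) * ι)
      (algebraMap F K (ρ.μ (γ j) : F)) := by
  by_contra hno
  rw [not_eventually] at hno
  obtain ⟨φ, hφ, hbad⟩ := extraction_of_frequently_atTop hno
  have hk' : Tendsto (fun j => k (φ j)) atTop atTop := hk.comp hφ.tendsto_atTop
  have h' : Tendsto (fun j => ((l : F) ^ k (φ j))⁻¹ • (ρ.M (γ (φ j)) - 1)) atTop (𝓝 B) :=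
    h.comp hφ.tendsto_atTop
  rcases isEmpty_or_nonempty A with hA | hA
  · exact hbad 0 (four_of_emptyK _ _)
  have hI : Nonempty I := by
    by_contra hI
    rw [not_nonempty_iff] at hI
    obtain ⟨a⟩ := hA
    have h2 := congrFun (congrFun h1 a) a
    rw [Matrix.mul_apply, Matrix.one_apply_eq] at h2
    simp at h2
  have hl0 : (l : F) ≠ 0 := Nat.cast_ne_zero.mpr (Fact.out (p := l.Prime)).ne_zero
  have hX : Tendsto (fun j => ((l : F) ^ k (φ j))⁻¹ • (ρ.M (γ (φ j)) - 1) -
      (t / 2) • (1 : Matrix I I F)) atTop (𝓝 (B - (t / 2) • (1 : Matrix I I F))) :=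
    h'.sub_const _
  have hev := hX.eventually ((open_f1 (F := F) π ι).mem_nhds hf1)
  obtain ⟨j0, hj0⟩ := eventually_atTop.mp hev
  have hinj : Function.Injective (algebraMap F K) := (algebraMap F K).injective
  have hexN : ∀ j, ∃ N : ℕ, 0 < N ∧ (j0 ≤ j →
      (((algebraMap F K (ρ.μ (γ (φ j)) : F)) ^ (2 * N))⁻¹ •
      k4 ((π * (ρ.M (γ (φ j))).map (algebraMap F K) * ι) ^ N) - 1).charpoly.coeff (nt A) =
        0) := by
    intro j
    by_cases hj : j0 ≤ j
    · have hne : f1 (π * (((l : F) ^ k (φ j))⁻¹ • (ρ.M (γ (φ j)) - 1) -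
        (t / 2) • (1 : Matrix I I F)).map (algebraMap F K) * ι) ≠ 0 := hj0 j hj
      have hlk : (l : F) ^ k (φ j) ≠ 0 := pow_ne_zero _ hl0
      have hlk' : algebraMap F K ((l : F) ^ k (φ j)) ≠ 0 := by
        rw [Ne, map_eq_zero_iff _ hinj]
        exact hlk
      have hsep := sep_affine _ hne (algebraMap F K ((l : F) ^ k (φ j)))
        (algebraMap F K (1 + (l : F) ^ k (φ j) * (t / 2))) hlk'
      have heq : algebraMap F K ((l : F) ^ k (φ j)) • (π * (((l : F) ^ k (φ j))⁻¹ •
          (ρ.M (γ (φ j)) - 1) - (t / 2) • (1 : Matrix I I F)).map (algebraMap F K) * ι) +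
          algebraMap F K (1 + (l : F) ^ k (φ j) * (t / 2)) • (1 : Matrix A A K) =
          π * (ρ.M (γ (φ j))).map (algebraMap F K) * ι := by
        rw [comp_sub, comp_smul, comp_smul, comp_sub, comp_one π ι h1, smul_sub, smul_smul,
          ← map_mul, mul_inv_cancel₀ hlk, map_one, one_smul, smul_smul, ← map_mul, map_add,
          map_one, add_smul, one_smul]
        abel
      rw [heq] at hsep
      by_contra hN
      push Not at hN
      apply hbad j
      exact four_of_coeff (ιᵀ * ρ.J.map (algebraMap F K) * ι) halt hdet _ _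
        (by
          rw [Ne, map_eq_zero_iff _ hinj]
          exact Units.ne_zero _)
        (comp_form ι π h1 _ _ _ (ρ.eq _) (hcomm _)) hsep fun N hN0 => (hN N hN0).2
    · exact ⟨1, one_pos, fun h3 => absurd h3 hj⟩
  choose N hN0 hNc using hexN
  have hlim := lim_pow l hl (fun j => ρ.M (γ (φ j))) (fun j => k (φ j)) N hk' hN0 B h'
  have hc0 : ∀ j, (N j : F) * (l : F) ^ k (φ j) ≠ 0 := fun j =>
    mul_ne_zero (Nat.cast_ne_zero.mpr (hN0 j).ne') (pow_ne_zero _ hl0)
  have hc : Tendsto (fun j => (N j : F) * (l : F) ^ k (φ j)) atTop (𝓝 0) := by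
    have hpow : Tendsto (fun j => ‖(l : F)‖ ^ k (φ j)) atTop (𝓝 0) :=
      (tendsto_pow_atTop_nhds_zero_of_lt_one (norm_nonneg _) hl).comp hk'
    refine squeeze_zero_norm (fun j => ?_) hpow
    rw [norm_mul, norm_pow]
    have h3 := norm_nat_le (F := F) (N j)
    have h4 : 0 ≤ ‖(l : F)‖ ^ k (φ j) := by positivity
    nlinarith
  have hE := lim_E ρ.J ρ.det (fun j => ρ.M (γ (φ j)) ^ N j)
    (fun j => (N j : F) * (l : F) ^ k (φ j)) (fun j => (ρ.μ (γ (φ j)) : F) ^ N j) hc hc0
    (fun j => pow_ne_zero _ (Units.ne_zero _))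
    (fun j => by
      have h3 := ρ.eq (γ (φ j) ^ N j)
      rw [map_pow, map_pow] at h3
      rw [h3, Units.val_pow_eq_pow_val])
    B t hB hlim
  have hd : (kr π * (d4 (B - (t / 2) • (1 : Matrix I I F))).map (algebraMap F K) *
      kr ι).charpoly.coeff (nt A) ≠ 0 := by
    rw [d4_map, kr_d4 h1]
    exact hf2
  have hev2 := hE.eventually ((open_coeff (F := F) (kr π) (kr ι) (nt A)).mem_nhds hd)
  obtain ⟨j, hj, hjj⟩ := (hev2.and (eventually_ge_atTop j0)).exists
  apply hj
  have hcK : algebraMap F K ((N j : F) * (l : F) ^ k (φ j)) ≠ 0 := by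
    rw [Ne, map_eq_zero_iff _ hinj]
    exact hc0 j
  apply coeff_smul_zeroK (nt A) _ hcK
  have e1 : kr π * (k4 (ρ.M (γ (φ j)) ^ N j)).map (algebraMap F K) * kr ι =
      k4 ((π * (ρ.M (γ (φ j))).map (algebraMap F K) * ι) ^ N j) := by
    rw [k4_map, kr_k4, comp_pow ι π h1 _ (hcomm _)]
  rw [comp_smul, smul_smul, ← map_mul, mul_inv_cancel₀ (hc0 j), map_one, one_smul, comp_sub,
    comp_smul, e1, comp_one _ _ (kr_one h1), map_inv₀, map_pow, map_pow, ← pow_mul,
    mul_comm (N j) 2]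
  exact hNc j hjj

/-- the matrices near `B` at the scale `k` -/
private def nearSetK (l : ℕ) (B : Matrix I I F) (ε : ℝ) (k : ℕ) : Set Γ :=
  {γ | ∀ i j, ‖(((l : F) ^ k)⁻¹ • (ρ.M γ - 1) - B) i j‖ < ε}

private theorem isOpen_nearSetK (l : ℕ) (B : Matrix I I F) (ε : ℝ) (k : ℕ) :
    IsOpen (nearSetK ρ l B ε k) := by
  have h : nearSetK ρ l B ε k =
      ⋂ i, ⋂ j, {γ | ‖(((l : F) ^ k)⁻¹ • (ρ.M γ - 1) - B) i j‖ < ε} := by
    ext γ
    simp [nearSetK]
  rw [h]
  refine isOpen_iInter_of_finite fun i => isOpen_iInter_of_finite fun j => ?_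
  refine isOpen_lt ?_ continuous_const
  have e1 : Continuous fun γ : Γ => ρ.M γ := ρ.cont
  have e2 : Continuous fun γ : Γ => ρ.M γ - 1 := e1.sub continuous_const
  have e3 : Continuous fun γ : Γ => ((l : F) ^ k)⁻¹ • (ρ.M γ - 1) :=
    (continuous_const_smul (((l : F) ^ k)⁻¹)).comp e2
  have h1 : Continuous fun γ : Γ => ((l : F) ^ k)⁻¹ • (ρ.M γ - 1) - B := e3.sub continuous_const
  exact ((continuous_apply j).comp ((continuous_apply i).comp h1)).norm

theorem near_openK (ι : Matrix I A K) (π : Matrix A I K) (h1 : π * ι = 1)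
    (hcomm : ∀ γ, (ρ.M γ).map (algebraMap F K) * (ι * π) = (ι * π) * (ρ.M γ).map (algebraMap F K))
    (halt : ∀ v : A → K, v ⬝ᵥ ((ιᵀ * ρ.J.map (algebraMap F K) * ι) *ᵥ v) = 0)
    (hdet : (ιᵀ * ρ.J.map (algebraMap F K) * ι).det ≠ 0)
    (l : ℕ) [Fact l.Prime] (hl : ‖(l : F)‖ < 1) (B : Matrix I I F) (hZ : B ∈ ρ.Zt l) (t : F)
    (hB : Bᵀ * ρ.J + ρ.J * B = t • ρ.J)
    (hf1 : f1 (π * (B - (t / 2) • (1 : Matrix I I F)).map (algebraMap F K) * ι) ≠ 0)
    (hf2 : f2 (π * (B - (t / 2) • (1 : Matrix I I F)).map (algebraMap F K) * ι) ≠ 0) :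
    ∃ O : Set Γ, IsOpen O ∧ O.Nonempty ∧
      ∀ γ ∈ O, FourM (π * (ρ.M γ).map (algebraMap F K) * ι) (algebraMap F K (ρ.μ γ : F)) := by
  have hex : ∃ n : ℕ, ∀ k, n ≤ k → ∀ γ ∈ nearSetK ρ l B (1 / ((n : ℝ) + 1)) k,
      FourM (π * (ρ.M γ).map (algebraMap F K) * ι) (algebraMap F K (ρ.μ γ : F)) := by
    by_contra hno
    push Not at hno
    choose k hk γ hγ hbad using hno
    have hkt : Tendsto k atTop atTop := tendsto_atTop_mono hk tendsto_id
    have hlim : Tendsto (fun j => ((l : F) ^ k j)⁻¹ • (ρ.M (γ j) - 1)) atTop (𝓝 B) := by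
      refine tendsto_pi_nhds.mpr fun x => tendsto_pi_nhds.mpr fun y => ?_
      rw [tendsto_iff_norm_sub_tendsto_zero]
      refine squeeze_zero (fun j => norm_nonneg _) (fun j => ?_)
        (tendsto_one_div_add_atTop_nhds_zero_nat (𝕜 := ℝ))
      exact (hγ j x y).le
    obtain ⟨j, hj⟩ := (near_goodK ρ ι π h1 hcomm halt hdet l hl B t hB hf1 hf2 γ k hkt hlim).exists
    exact hbad j hj
  obtain ⟨n, hn⟩ := hex
  obtain ⟨γ, hγ⟩ := hZ
  have hev : ∀ᶠ k in atTop, γ k ∈ nearSetK ρ l B (1 / ((n : ℝ) + 1)) k := by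
    unfold nearSetK
    simp only [Set.mem_ofPred_eq]
    rw [eventually_all]
    intro x
    rw [eventually_all]
    intro y
    have h3 := (tendsto_pi_nhds.mp ((tendsto_pi_nhds.mp hγ) x)) y
    rw [tendsto_iff_norm_sub_tendsto_zero] at h3
    exact h3.eventually_lt_const (by positivity)
  obtain ⟨k, hk1, hk2⟩ := (hev.and (eventually_ge_atTop n)).exists
  exact ⟨nearSetK ρ l B (1 / ((n : ℝ) + 1)) k, isOpen_nearSetK ρ l B _ k, ⟨γ k, hk1⟩, hn k hk2⟩

end Pool.Agent.Lib.MP_640417_ag.Ty
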