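import Pool.Agent.Lib.MP_640417_ag.Ty.SpanK

/-!
# MP_640417_ag, Ty, module EigK (180 lines): the eigenprojections of the generator

Let `s` be as in `RealM`, `sK` its image over the algebraically closed field `K`. The minimal polynomial of `s` is
squarefree, so separable (characteristic zero): `∏_j (X - a j)` over `K` with different `a j`, `j : Fin n`. `ε j` = the
Lagrange polynomial `∏_(k ≠ j) (X - a k) / (a j - a k)` evaluated at `sK`. Sum `1`, idempotent, orthogonal
(Mathlib: `Lagrange.basis`, `Lagrange.sum_basis`; modulo `∏ (X - a j)`, which kills `sK`); nonzero because `∏_(k ≠ j) (X - a k)`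
does not kill `sK` (it has smaller degree than the minimal polynomial, whose degree does not change over `K`; or: discard
the `j` with `ε j = 0`). Polynomials in `sK` are in the commutant and symmetric for `J`. `sK ε j = a j ε j`.
Last statement: `c' = ε j c ε j` is in the commutant over `K` and commutes with `sK`. So it is a `K`-combination of
elements of the commutant over `F` which commute with `s`: write `c'` with `inCK_span` or directly with `span_of_eq` (the
equations 'commutes with `M γ`, `γ ∈ U`' and 'commutes with `s`'); these are polynomials in `s`, so they act as a scalar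
on the range of `ε j`, i.e. `b ε j = λ ε j`. So `c' = c' ε j = λ ε j`.
-/

set_option autoImplicit false

namespace Pool.Agent.Lib.MP_640417_ag.Ty

open Matrix Module Pool.Agent.Lib.MP_640417_ag.Glob

variable {Γ : Type} [Group Γ] [TopologicalSpace Γ] {F : Type} [NontriviallyNormedField F]
  [CharZero F] {I : Type} [Fintype I] [DecidableEq I] (ρ : MRep Γ F I) (K : Type) [Field K]
  [Algebra F K] [IsAlgClosed K]

section aux

open Polynomial

omit [IsAlgClosed K] in
private theorem evalE {A : Type} [Ring A] [Algebra K A] (x e : A) (a : K) (h : x * e = a • e)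
    (q : Polynomial K) : aeval x q * e = q.eval a • e := by
  obtain ⟨r, hr⟩ := Polynomial.X_sub_C_dvd_sub_C_eval (a := a) (p := q)
  have h1 : q = r * (X - C a) + C (q.eval a) := by
    rw [mul_comm, ← hr]
    ring
  have h2 : aeval x q = aeval x r * (x - algebraMap K A a) + algebraMap K A (q.eval a) := by
    conv_lhs => rw [h1]
    simp
  rw [h2, add_mul, mul_assoc, sub_mul, h, Algebra.smul_def, sub_self, mul_zero, zero_add,
    Algebra.smul_def]

omit [IsAlgClosed K] in
private theorem basis_mul [DecidableEq K] (R : Finset K) (a : K) (ha : a ∈ R) :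
    (X - C a) * Lagrange.basis R id a =
      C (∏ b ∈ R.erase a, (a - b)⁻¹) * ∏ b ∈ R, (X - C b) := by
  rw [← Finset.mul_prod_erase R (fun b => X - C b) ha, Lagrange.basis]
  simp only [Lagrange.basisDivisor, id, Finset.prod_mul_distrib, map_prod]
  ring

end aux

private theorem eig_spanK_eq {S : Type} [CommRing S] (b X : Matrix I I S) (i j : I) :
    ∑ p, ∑ q, ((if p = i then b q j else 0) - (if q = j then b i p else 0)) * X p q =
      (X * b - b * X) i j := by
  rw [Matrix.sub_apply, Matrix.mul_apply, Matrix.mul_apply]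
  have h1 : ∀ p, ∑ q, ((if p = i then b q j else 0) - (if q = j then b i p else 0)) * X p q =
      (if p = i then ∑ q, b q j * X p q else 0) - b i p * X p j := by
    intro p
    simp only [sub_mul, Finset.sum_sub_distrib, ite_mul, zero_mul, Finset.sum_ite_eq',
      Finset.mem_univ, if_true]
    congr 1
    split_ifs
    · rfl
    · simp
  simp only [h1, Finset.sum_sub_distrib, Finset.sum_ite_eq', Finset.mem_univ, if_true]
  congr 1
  refine Finset.sum_congr rfl fun q _ => ?_
  ring

omit [IsAlgClosed K] in
private theorem comm_span (T : Set (Matrix I I F)) (c : Matrix I I K)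
    (h : ∀ t ∈ T, t.map (algebraMap F K) * c = c * t.map (algebraMap F K)) :
    c ∈ Submodule.span K {Y : Matrix I I K | ∃ b : Matrix I I F, (∀ t ∈ T, t * b = b * t) ∧
      Y = b.map (algebraMap F K)} := by
  let E : Set (Matrix I I F) := {a | ∃ t ∈ T, ∃ i j, a = Matrix.of fun p q =>
    ((if p = i then t q j else 0) - (if q = j then t i p else 0))}
  have hE : ∀ a ∈ E, ∑ i, ∑ j, algebraMap F K (a i j) * c i j = 0 := by
    rintro a ⟨t, ht, i, j, rfl⟩
    have h3 := eig_spanK_eq (t.map (algebraMap F K)) c i j
    rw [h t ht, sub_self, Matrix.zero_apply] at h3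
    rw [← h3]
    refine Finset.sum_congr rfl fun p _ => Finset.sum_congr rfl fun q _ => ?_
    simp only [Matrix.of_apply, map_sub, Matrix.map_apply]
    congr 2 <;> split_ifs <;> simp
  refine Submodule.span_mono ?_ (span_of_eq E c hE)
  rintro Y ⟨A, hA, rfl⟩
  refine ⟨A, fun t ht => ?_, rfl⟩
  symm
  rw [← sub_eq_zero]
  ext i j
  rw [← eig_spanK_eq, Matrix.zero_apply]
  exact hA _ ⟨t, ht, i, j, rfl⟩

theorem exists_eps (h : RealM ρ) : ∃ (n : ℕ) (ε : Fin n → Matrix I I K),
    (∀ j, InCK ρ K (ε j)) ∧ (∀ j, ε j ≠ 0) ∧ ∑ j, ε j = 1 ∧ (∀ j, ε j * ε j = ε j) ∧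
    (∀ j k, j ≠ k → ε j * ε k = 0) ∧
    (∀ j, (ε j)ᵀ * ρ.J.map (algebraMap F K) = ρ.J.map (algebraMap F K) * ε j) ∧
    ∀ c, InCK ρ K c → ∀ j, ∃ t : K, ε j * c * ε j = t • ε j := by
  classical
  obtain ⟨s, hs, hsJ, hsq, hs2⟩ := h
  set sK := s.map (algebraMap F K) with hsK
  set JK := ρ.J.map (algebraMap F K) with hJK
  set P := (minpoly F s).map (algebraMap F K) with hP
  have hsep : P.Separable := (PerfectField.separable_iff_squarefree.2 hsq).map
  have hmon : P.Monic := (minpoly.monic (Algebra.IsIntegral.isIntegral s)).map _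
  -- polynomials over `F`
  have hF : ∀ q : Polynomial F, Polynomial.aeval sK (q.map (algebraMap F K)) =
      (Polynomial.aeval s q).map (algebraMap F K) := by
    intro q
    rw [Polynomial.aeval_map_algebraMap]
    exact Polynomial.aeval_algHom_apply ((Algebra.ofId F K).mapMatrix) s q
  have hP0 : Polynomial.aeval sK P = 0 := by
    rw [hP, hF, minpoly.aeval]
    ext i j
    simp
  set R := P.roots.toFinset with hR
  have hprod : P = ∏ b ∈ R, (Polynomial.X - Polynomial.C b) := by
    have h1 := (IsAlgClosed.splits P).eq_prod_roots_of_monic hmon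
    have h2 : P.roots.toFinset.val = P.roots := by
      rw [Multiset.toFinset_val, Multiset.dedup_eq_self]
      exact Polynomial.nodup_roots hsep
    rw [Finset.prod_eq_multiset_prod, hR, h2]
    exact h1
  let ep : K → Matrix I I K := fun a => Polynomial.aeval sK (Lagrange.basis R id a)
  have hsep1 : ∀ a ∈ R, sK * ep a = a • ep a := by
    intro a ha
    have h1 := congrArg (Polynomial.aeval sK) (basis_mul K R a ha)
    rw [← hprod, map_mul, map_mul, hP0, mul_zero, map_sub, Polynomial.aeval_X,
      Polynomial.aeval_C, sub_mul, sub_eq_zero] at h1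
    rw [Algebra.smul_def]
    exact h1
  have hev : ∀ a ∈ R, ∀ q : Polynomial K, Polynomial.aeval sK q * ep a = q.eval a • ep a :=
    fun a ha q => evalE K sK (ep a) a (hsep1 a ha) q
  have hsum : ∑ a ∈ R, ep a = 1 := by
    rcases R.eq_empty_or_nonempty with h0 | h0
    · rw [h0, Finset.prod_empty] at hprod
      rw [hprod, map_one] at hP0
      rw [h0, Finset.sum_empty, hP0]
    · show ∑ a ∈ R, Polynomial.aeval sK (Lagrange.basis R id a) = 1
      rw [← map_sum, Lagrange.sum_basis (Set.injOn_id _) h0, map_one]
  have hidem : ∀ a ∈ R, ep a * ep a = ep a := by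
    intro a ha
    have h1 := hev a ha (Lagrange.basis R id a)
    have h2 : (Lagrange.basis R id a).eval a = 1 :=
      Lagrange.eval_basis_self (v := (id : K → K)) (Set.injOn_id _) ha
    rw [h2, one_smul] at h1
    exact h1
  have horth : ∀ a ∈ R, ∀ b ∈ R, a ≠ b → ep a * ep b = 0 := by
    intro a ha b hb hab
    have h1 := hev b hb (Lagrange.basis R id a)
    have h2 : (Lagrange.basis R id a).eval b = 0 :=
      Lagrange.eval_basis_of_ne (v := (id : K → K)) hab hb
    rw [h2, zero_smul] at h1
    exact h1
  -- symmetric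
  have hsJK : sKᵀ * JK = JK * sK := by
    rw [hsK, hJK, ← Matrix.transpose_map, ← Matrix.map_mul, ← Matrix.map_mul, hsJ]
  have hpow : ∀ n : ℕ, (sK ^ n)ᵀ * JK = JK * sK ^ n := by
    intro n
    induction n with
    | zero => rw [pow_zero, Matrix.transpose_one, Matrix.one_mul, Matrix.mul_one]
    | succ n ih =>
      rw [pow_succ, Matrix.transpose_mul, Matrix.mul_assoc, ih, ← Matrix.mul_assoc, hsJK,
        Matrix.mul_assoc, ← pow_succ', ← pow_succ]
  have hsym : ∀ q : Polynomial K, (Polynomial.aeval sK q)ᵀ * JK = JK * Polynomial.aeval sK q := by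
    intro q
    rw [Polynomial.aeval_eq_sum_range, Matrix.transpose_sum, Finset.sum_mul, Finset.mul_sum]
    refine Finset.sum_congr rfl fun n _ => ?_
    rw [Matrix.transpose_smul, Matrix.smul_mul, Matrix.mul_smul, hpow]
  -- in the commutant
  have hsC : sK ∈ cK ρ K := inCK_map ρ K hs
  have hC : ∀ q : Polynomial K, Polynomial.aeval sK q ∈ cK ρ K := by
    intro q
    have h1 : Algebra.adjoin K {sK} ≤ cK ρ K := by
      rw [Algebra.adjoin_le_iff, Set.singleton_subset_iff]
      exact hsC
    exact h1 (Polynomial.aeval_mem_adjoin_singleton K sK)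
  -- the last statement
  have hlast : ∀ c, InCK ρ K c → ∀ a ∈ R, ∃ t : K, ep a * c * ep a = t • ep a := by
    intro c hc a ha
    have hc' : ep a * c * ep a ∈ cK ρ K := mul_mem (mul_mem (hC _) hc) (hC _)
    obtain ⟨U, hU⟩ := hc'
    have hcomm : sK * (ep a * c * ep a) = (ep a * c * ep a) * sK := by
      have h1 : ep a * sK = a • ep a := by
        have h2 : ep a * sK = sK * ep a := by
          have h3 : (Lagrange.basis R id a) * Polynomial.X = Polynomial.X * Lagrange.basis R id a :=
            mul_comm _ _
          have h4 := congrArg (Polynomial.aeval sK) h3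
          rw [map_mul, map_mul, Polynomial.aeval_X] at h4
          exact h4
        rw [h2, hsep1 a ha]
      rw [← mul_assoc, ← mul_assoc, hsep1 a ha, mul_assoc _ _ sK, h1, smul_mul_assoc,
        smul_mul_assoc, mul_smul_comm]
    let T : Set (Matrix I I F) := {t | t = s ∨ ∃ γ ∈ U, t = ρ.M γ}
    have hT : ∀ t ∈ T, t.map (algebraMap F K) * (ep a * c * ep a) =
        (ep a * c * ep a) * t.map (algebraMap F K) := by
      rintro t (rfl | ⟨γ, hγ, rfl⟩)
      · exact hcomm
      · exact hU γ hγ
    have hsp := comm_span K T _ hT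
    have hall : ∀ y ∈ Submodule.span K {Y : Matrix I I K | ∃ b : Matrix I I F,
        (∀ t ∈ T, t * b = b * t) ∧ Y = b.map (algebraMap F K)}, ∃ t : K, y * ep a = t • ep a := by
      intro y hy
      induction hy using Submodule.span_induction with
      | mem x hx =>
        obtain ⟨b, hb, rfl⟩ := hx
        have h1 : ρ.InC b := ⟨U, fun γ hγ => hb _ (Or.inr ⟨γ, hγ, rfl⟩)⟩
        have h2 := hs2 b h1 (hb s (Or.inl rfl)).symm
        rw [Algebra.adjoin_singleton_eq_range_aeval] at h2
        obtain ⟨q, hq⟩ := h2
        have hq' : Polynomial.aeval s q = b := hq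
        refine ⟨(q.map (algebraMap F K)).eval a, ?_⟩
        rw [← hev a ha, hF, hq']
      | zero => exact ⟨0, by rw [zero_mul, zero_smul]⟩
      | add x y _ _ hx hy =>
        obtain ⟨t1, h1⟩ := hx
        obtain ⟨t2, h2⟩ := hy
        exact ⟨t1 + t2, by rw [add_mul, h1, h2, add_smul]⟩
      | smul r x _ hx =>
        obtain ⟨t1, h1⟩ := hx
        exact ⟨r * t1, by rw [smul_mul_assoc, h1, mul_smul]⟩
    obtain ⟨t, ht⟩ := hall _ hsp
    refine ⟨t, ?_⟩
    rw [mul_assoc _ (ep a) (ep a), hidem a ha] at ht
    exact ht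
  -- discard the zeros
  set R' := R.filter (fun a => ep a ≠ 0) with hR'
  have hmem : ∀ x : R', (x : K) ∈ R := fun x => (Finset.mem_filter.1 x.2).1
  let e : Fin R'.card ≃ R' := R'.equivFin.symm
  refine ⟨R'.card, fun j => ep (e j), fun j => hC _, fun j => (Finset.mem_filter.1 (e j).2).2, ?_,
    fun j => hidem _ (hmem _), fun j k hjk => ?_, fun j => hsym _, fun c hc j => ?_⟩
  · rw [Equiv.sum_comp e (fun x : R' => ep x), Finset.sum_coe_sort R' ep, hR', ← hsum]
    exact Finset.sum_filter_ne_zero R
  · refine horth _ (hmem _) _ (hmem _) fun hh => hjk ?_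
    exact e.injective (Subtype.ext hh)
  · exact hlast c hc _ (hmem _)

end Pool.Agent.Lib.MP_640417_ag.Ty
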