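import Mathlib

/-!
# MP_640417_ag, Ty, module IsomK (220 lines): isometries between the summands (pure algebra)

`C` is an algebra of matrices over the algebraically closed field `K`, stable under the adjoint `c ↦ c* = J⁻¹ cᵀ J` of the
alternating form `J`, and regular. `ε j` are symmetric orthogonal idempotents in `C` with sum `1` and `ε j C ε j = K ε j`.
Note `(c*)* = c` (as `Jᵀ = - J`), `(a b)* = b* a*`, `(ε j)* = ε j`, and `fᵀ J = J f*`.
1. Let `c ∈ ε j C ε k` (i.e. `c = ε j c ε k`), `c ≠ 0`, `c g c = c`; replace `g` by `ε k g ε j`. `g c ∈ ε k C ε k = K ε k`,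
   `g c = t ε k`, `c = c (g c) = t c`, so `t = 1`: `g c = ε k`, and in the same way `c g = ε j`.
2. If `c' ∈ ε j C ε k` too, then `c' = ε j c' = c (g c')`, `g c' ∈ K ε k`, so `c' = t c`.
3. `c* ∈ ε k C ε j` is not zero, so `c* = t g` with `t ≠ 0` (2. for `g`), so `c* c = t ε k`. Scale `c` by a square root of
   `t⁻¹`: `f* f = ε k`, and `f f* = ε j`.
4. The relation `j ~ k` iff `ε j C ε k ≠ 0` is an equivalence relation (reflexive: `ε j ≠ 0`; symmetric: `g`;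
   transitive: `c c' ≠ 0` because `g (c c') g' = ε ...`). Let `r j` be a representative of the class of `j`
   (`Quotient.out`), so `r (r j) = r j`, and choose `f j ∈ ε j C ε (r j)` by 3., `f j = ε j` if `r j = j`;
   `f' j = (f j)*`.
5. If `r j = r k`, `f j f' k ∈ ε j C ε k` is not zero (`f' j (f j f' k) f k = ε (r j) ≠ 0`), use 2. If `r j ≠ r k`,
   `ε j c ε k = 0` by definition of the relation.
-/

set_option autoImplicit false

namespace Pool.Agent.Lib.MP_640417_ag.Ty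

open Matrix

section aux

variable {K : Type} [Field K] {I : Type} [Fintype I] [DecidableEq I]

/-- the adjoint -/
private noncomputable def ad (J c : Matrix I I K) : Matrix I I K := J⁻¹ * cᵀ * J

private lemma ad_mul_J {J : Matrix I I K} (hdet : J.det ≠ 0) (c : Matrix I I K) :
    cᵀ * J = J * ad J c := by
  have hu : IsUnit J.det := isUnit_iff_ne_zero.2 hdet
  unfold ad
  rw [Matrix.mul_assoc J⁻¹ cᵀ J, Matrix.mul_nonsing_inv_cancel_left _ _ hu]

private lemma J_cancel {J : Matrix I I K} (hdet : J.det ≠ 0) {a b : Matrix I I K}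
    (h : J * a = J * b) : a = b := by
  have hu : IsUnit J.det := isUnit_iff_ne_zero.2 hdet
  have h1 := congrArg (fun x => J⁻¹ * x) h
  simpa only [Matrix.nonsing_inv_mul_cancel_left _ _ hu] using h1

private lemma ad_mul {J : Matrix I I K} (hdet : J.det ≠ 0) (a b : Matrix I I K) :
    ad J (a * b) = ad J b * ad J a := by
  apply J_cancel hdet
  rw [← ad_mul_J hdet, ← Matrix.mul_assoc, ← ad_mul_J hdet, Matrix.transpose_mul,
    Matrix.mul_assoc, Matrix.mul_assoc, ← ad_mul_J hdet]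

private lemma ad_ad {J : Matrix I I K} (hdet : J.det ≠ 0) (hskew : Jᵀ = -J)
    (c : Matrix I I K) : ad J (ad J c) = c := by
  apply J_cancel hdet
  rw [← ad_mul_J hdet]
  have h1 := congrArg Matrix.transpose (ad_mul_J hdet c)
  rw [Matrix.transpose_mul, Matrix.transpose_mul, Matrix.transpose_transpose, hskew,
    Matrix.neg_mul, Matrix.mul_neg, neg_inj] at h1
  exact h1.symm

private lemma ad_smul (J : Matrix I I K) (t : K) (c : Matrix I I K) :
    ad J (t • c) = t • ad J c := by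
  unfold ad
  rw [Matrix.transpose_smul, Matrix.mul_smul, Matrix.smul_mul]

private lemma ad_zero (J : Matrix I I K) : ad J 0 = 0 := by
  unfold ad
  simp

private lemma ad_sym {J : Matrix I I K} (hdet : J.det ≠ 0) {e : Matrix I I K}
    (h : eᵀ * J = J * e) : ad J e = e := by
  apply J_cancel hdet
  rw [← ad_mul_J hdet, h]

omit [DecidableEq I] in
private lemma smul_eq_self {t : K} {c : Matrix I I K} (hc : c ≠ 0) (h : c = t • c) : t = 1 := by
  by_contra ht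
  apply hc
  have h1 : (1 - t) • c = 0 := by
    rw [sub_smul, one_smul, sub_eq_zero]
    exact h
  rcases smul_eq_zero.1 h1 with h2 | h2
  · exact absurd (sub_eq_zero.1 h2).symm ht
  · exact h2

/-- step 1 -/
private lemma inv_of {C : Subalgebra K (Matrix I I K)} (hreg : ∀ c ∈ C, ∃ g ∈ C, c * g * c = c)
    {n : ℕ} {ε : Fin n → Matrix I I K} (h1 : ∀ j, ε j ∈ C) (h4 : ∀ j, ε j * ε j = ε j)
    (h7 : ∀ c ∈ C, ∀ j, ∃ t : K, ε j * c * ε j = t • ε j) {j k : Fin n} {c : Matrix I I K}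
    (hc : c ∈ C) (hc1 : ε j * c = c) (hc2 : c * ε k = c) (hc0 : c ≠ 0) :
    ∃ g ∈ C, ε k * g = g ∧ g * ε j = g ∧ g * c = ε k ∧ c * g = ε j := by
  obtain ⟨g0, hg0, hcg⟩ := hreg c hc
  obtain ⟨g, hgdef⟩ : ∃ g, g = ε k * g0 * ε j := ⟨_, rfl⟩
  have hg : g ∈ C := by
    rw [hgdef]
    exact C.mul_mem (C.mul_mem (h1 k) hg0) (h1 j)
  have hkg : ε k * g = g := by
    rw [hgdef, ← mul_assoc, ← mul_assoc, h4]
  have hgj : g * ε j = g := by
    rw [hgdef, mul_assoc, h4]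
  have hcgc : c * g * c = c := by
    have e1 : c * g * c = (c * ε k) * g0 * (ε j * c) := by
      rw [hgdef]
      simp only [mul_assoc]
    rw [e1, hc1, hc2, hcg]
  refine ⟨g, hg, hkg, hgj, ?_, ?_⟩
  · obtain ⟨t, ht⟩ := h7 (g * c) (C.mul_mem hg hc) k
    have e1 : ε k * (g * c) * ε k = g * c := by
      rw [← mul_assoc, hkg, mul_assoc, hc2]
    rw [e1] at ht
    have e2 : c = t • c := by
      calc c = c * (g * c) := by rw [← mul_assoc, hcgc]
        _ = t • c := by rw [ht, mul_smul_comm, hc2]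
    rw [ht, smul_eq_self hc0 e2, one_smul]
  · obtain ⟨t, ht⟩ := h7 (c * g) (C.mul_mem hc hg) j
    have e1 : ε j * (c * g) * ε j = c * g := by
      rw [← mul_assoc, hc1, mul_assoc, hgj]
    rw [e1] at ht
    have e2 : c = t • c := by
      calc c = c * g * c := by rw [hcgc]
        _ = t • c := by rw [ht, smul_mul_assoc, hc1]
    rw [ht, smul_eq_self hc0 e2, one_smul]

/-- step 2 -/
private lemma one_dim {C : Subalgebra K (Matrix I I K)}
    (hreg : ∀ c ∈ C, ∃ g ∈ C, c * g * c = c)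
    {n : ℕ} {ε : Fin n → Matrix I I K} (h1 : ∀ j, ε j ∈ C) (h4 : ∀ j, ε j * ε j = ε j)
    (h7 : ∀ c ∈ C, ∀ j, ∃ t : K, ε j * c * ε j = t • ε j) {j k : Fin n} {c c' : Matrix I I K}
    (hc : c ∈ C) (hc1 : ε j * c = c) (hc2 : c * ε k = c) (hc0 : c ≠ 0)
    (hc' : c' ∈ C) (hc1' : ε j * c' = c') (hc2' : c' * ε k = c') : ∃ t : K, c' = t • c := by
  obtain ⟨g, hg, hkg, hgj, hgc, hcg⟩ := inv_of hreg h1 h4 h7 hc hc1 hc2 hc0
  obtain ⟨t, ht⟩ := h7 (g * c') (C.mul_mem hg hc') k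
  have e1 : ε k * (g * c') * ε k = g * c' := by
    rw [← mul_assoc, hkg, mul_assoc, hc2']
  rw [e1] at ht
  refine ⟨t, ?_⟩
  calc c' = c * (g * c') := by rw [← mul_assoc, hcg, hc1']
    _ = t • c := by rw [ht, mul_smul_comm, hc2]

/-- step 3 -/
private lemma iso_of [IsAlgClosed K] {J : Matrix I I K} (hdet : J.det ≠ 0) (hskew : Jᵀ = -J)
    {C : Subalgebra K (Matrix I I K)} (hadj : ∀ c ∈ C, ad J c ∈ C)
    (hreg : ∀ c ∈ C, ∃ g ∈ C, c * g * c = c)
    {n : ℕ} {ε : Fin n → Matrix I I K} (h1 : ∀ j, ε j ∈ C) (h4 : ∀ j, ε j * ε j = ε j)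
    (h6 : ∀ j, ad J (ε j) = ε j)
    (h7 : ∀ c ∈ C, ∀ j, ∃ t : K, ε j * c * ε j = t • ε j) {j k : Fin n} {c : Matrix I I K}
    (hc : c ∈ C) (hc1 : ε j * c = c) (hc2 : c * ε k = c) (hc0 : c ≠ 0) :
    ∃ f ∈ C, ε j * f = f ∧ f * ε k = f ∧ ad J f * f = ε k ∧ f * ad J f = ε j := by
  obtain ⟨g, hg, hkg, hgj, hgc, hcg⟩ := inv_of hreg h1 h4 h7 hc hc1 hc2 hc0
  have hg0 : g ≠ 0 := by
    rintro rfl
    rw [mul_zero] at hcg
    apply hc0
    rw [← hc1, ← hcg, zero_mul]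
  have ha1 : ε k * ad J c = ad J c := by
    conv_lhs => rw [← h6 k]
    rw [← ad_mul hdet, hc2]
  have ha2 : ad J c * ε j = ad J c := by
    conv_lhs => rw [← h6 j]
    rw [← ad_mul hdet, hc1]
  obtain ⟨t, ht⟩ := one_dim hreg h1 h4 h7 hg hkg hgj hg0 (hadj c hc) ha1 ha2
  have ht0 : t ≠ 0 := by
    rintro rfl
    rw [zero_smul] at ht
    apply hc0
    rw [← ad_ad hdet hskew c, ht, ad_zero]
  obtain ⟨s, hs⟩ := IsAlgClosed.exists_pow_nat_eq t⁻¹ (n := 2) (by norm_num)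
  have hst : s * s * t = 1 := by
    rw [← sq, hs, inv_mul_cancel₀ ht0]
  refine ⟨s • c, C.smul_mem hc s, ?_, ?_, ?_, ?_⟩
  · rw [mul_smul_comm, hc1]
  · rw [smul_mul_assoc, hc2]
  · rw [ad_smul, ht, smul_mul_assoc, mul_smul_comm, smul_mul_assoc, hgc, smul_smul, smul_smul,
      hst, one_smul]
  · rw [ad_smul, ht, smul_mul_assoc, mul_smul_comm, mul_smul_comm, hcg, smul_smul, smul_smul,
      hst, one_smul]

end aux

theorem exists_isom {K : Type} [Field K] [IsAlgClosed K] {I : Type} [Fintype I] [DecidableEq I]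
    (J : Matrix I I K) (hdet : J.det ≠ 0) (hskew : Jᵀ = -J) (C : Subalgebra K (Matrix I I K))
    (hadj : ∀ c ∈ C, J⁻¹ * cᵀ * J ∈ C) (hreg : ∀ c ∈ C, ∃ g ∈ C, c * g * c = c) {n : ℕ}
    (ε : Fin n → Matrix I I K) (h1 : ∀ j, ε j ∈ C) (h2 : ∀ j, ε j ≠ 0)
    (h4 : ∀ j, ε j * ε j = ε j)
    (h6 : ∀ j, (ε j)ᵀ * J = J * ε j) (h7 : ∀ c ∈ C, ∀ j, ∃ t : K, ε j * c * ε j = t • ε j) :
    ∃ (r : Fin n → Fin n) (f f' : Fin n → Matrix I I K), (∀ j, r (r j) = r j) ∧
      (∀ j, f j ∈ C) ∧ (∀ j, f' j ∈ C) ∧ (∀ j, (f j)ᵀ * J = J * f' j) ∧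
      (∀ j, f' j * f j = ε (r j)) ∧ (∀ j, f j * f' j = ε j) ∧ (∀ j, r j = j → f j = ε j) ∧
      (∀ c ∈ C, ∀ j k, r j = r k → ∃ t : K, ε j * c * ε k = t • (f j * f' k)) ∧
      ∀ c ∈ C, ∀ j k, r j ≠ r k → ε j * c * ε k = 0 := by
  have hadj' : ∀ c ∈ C, ad J c ∈ C := hadj
  have h6' : ∀ j, ad J (ε j) = ε j := fun j => ad_sym hdet (h6 j)
  -- the relation
  have hcut : ∀ (c : Matrix I I K) (j k : Fin n), ε j * (ε j * c * ε k) = ε j * c * ε k ∧
      ε j * c * ε k * ε k = ε j * c * ε k := by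
    intro c j k
    refine ⟨?_, ?_⟩
    · rw [← mul_assoc, ← mul_assoc, h4]
    · rw [mul_assoc, h4]
  have hrefl : ∀ j, ∃ c ∈ C, ε j * c * ε j ≠ 0 := by
    intro j
    refine ⟨1, C.one_mem, ?_⟩
    rw [mul_one, h4]
    exact h2 j
  have hsymm : ∀ j k, (∃ c ∈ C, ε j * c * ε k ≠ 0) → ∃ c ∈ C, ε k * c * ε j ≠ 0 := by
    rintro j k ⟨c, hc, hc0⟩
    obtain ⟨g, hg, hkg, hgj, hgc, -⟩ := inv_of hreg h1 h4 h7
      (C.mul_mem (C.mul_mem (h1 j) hc) (h1 k)) (hcut c j k).1 (hcut c j k).2 hc0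
    refine ⟨g, hg, ?_⟩
    rw [hkg, hgj]
    rintro rfl
    rw [zero_mul] at hgc
    exact h2 k hgc.symm
  have htrans : ∀ j k l, (∃ c ∈ C, ε j * c * ε k ≠ 0) → (∃ c ∈ C, ε k * c * ε l ≠ 0) →
      ∃ c ∈ C, ε j * c * ε l ≠ 0 := by
    rintro j k l ⟨c, hc, hc0⟩ ⟨d, hd, hd0⟩
    obtain ⟨g, hg, hkg, hgj, hgc, -⟩ := inv_of hreg h1 h4 h7
      (C.mul_mem (C.mul_mem (h1 j) hc) (h1 k)) (hcut c j k).1 (hcut c j k).2 hc0
    obtain ⟨g', hg', hkg', hgj', -, hdg⟩ := inv_of hreg h1 h4 h7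
      (C.mul_mem (C.mul_mem (h1 k) hd) (h1 l)) (hcut d k l).1 (hcut d k l).2 hd0
    refine ⟨(ε j * c * ε k) * (ε k * d * ε l), C.mul_mem (C.mul_mem (C.mul_mem (h1 j) hc) (h1 k))
      (C.mul_mem (C.mul_mem (h1 k) hd) (h1 l)), ?_⟩
    intro h0
    have e1 : g * (ε j * (ε j * c * ε k * (ε k * d * ε l)) * ε l) * g' = ε k := by
      calc g * (ε j * (ε j * c * ε k * (ε k * d * ε l)) * ε l) * g'
          = g * (ε j * (ε j * c * ε k)) * (ε k * d * ε l * ε l * g') := by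
            simp only [mul_assoc]
        _ = (g * (ε j * c * ε k)) * (ε k * d * ε l * g') := by
            rw [(hcut c j k).1, (hcut d k l).2]
        _ = ε k := by rw [hgc, hdg, h4]
    rw [h0, mul_zero, zero_mul] at e1
    exact h2 k e1.symm
  let sd : Setoid (Fin n) := ⟨fun j k => ∃ c ∈ C, ε j * c * ε k ≠ 0,
    ⟨hrefl, fun {j k} h => hsymm j k h, fun {j k l} h h' => htrans j k l h h'⟩⟩
  let r : Fin n → Fin n := fun j => (Quotient.mk sd j).out
  have hr1 : ∀ j, Quotient.mk sd (r j) = Quotient.mk sd j := fun j => Quotient.out_eq _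
  have hrr : ∀ j, r (r j) = r j := fun j => congrArg Quotient.out (hr1 j)
  have hrj : ∀ j, ∃ c ∈ C, ε j * c * ε (r j) ≠ 0 := fun j => Quotient.exact (hr1 j).symm
  have hr2 : ∀ j k, (∃ c ∈ C, ε j * c * ε k ≠ 0) → r j = r k := fun j k h =>
    congrArg Quotient.out (Quotient.sound (s := sd) h)
  have hex : ∀ j, ∃ f ∈ C, ε j * f = f ∧ f * ε (r j) = f ∧ ad J f * f = ε (r j) ∧
      f * ad J f = ε j ∧ (r j = j → f = ε j) := by
    intro j
    by_cases hj : r j = j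
    · refine ⟨ε j, h1 j, h4 j, ?_, ?_, ?_, fun _ => rfl⟩
      · rw [hj, h4]
      · rw [hj, h6', h4]
      · rw [h6', h4]
    · obtain ⟨c, hc, hc0⟩ := hrj j
      obtain ⟨f, hf, hf1, hf2, hf3, hf4⟩ := iso_of hdet hskew hadj' hreg h1 h4 h6' h7
        (C.mul_mem (C.mul_mem (h1 j) hc) (h1 (r j))) (hcut c j (r j)).1 (hcut c j (r j)).2 hc0
      exact ⟨f, hf, hf1, hf2, hf3, hf4, fun h => absurd h hj⟩
  choose f hfC hf1 hf2 hf3 hf4 hf5 using hex
  have hfa : ∀ j, ε (r j) * ad J (f j) = ad J (f j) := by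
    intro j
    conv_lhs => rw [← h6' (r j)]
    rw [← ad_mul hdet, hf2]
  have hfb : ∀ j, ad J (f j) * ε j = ad J (f j) := by
    intro j
    conv_lhs => rw [← h6' j]
    rw [← ad_mul hdet, hf1]
  refine ⟨r, f, fun j => ad J (f j), hrr, hfC, fun j => hadj' _ (hfC j),
    fun j => ad_mul_J hdet (f j), hf3, hf4, hf5, ?_, ?_⟩
  · intro c hc j k hjk
    have hmem : f j * ad J (f k) ∈ C := C.mul_mem (hfC j) (hadj' _ (hfC k))
    have e1 : ε j * (f j * ad J (f k)) = f j * ad J (f k) := by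
      rw [← mul_assoc, hf1]
    have e2 : f j * ad J (f k) * ε k = f j * ad J (f k) := by
      rw [mul_assoc, hfb]
    have e3 : f j * ad J (f k) ≠ 0 := by
      intro h0
      have e4 : ad J (f j) * (f j * ad J (f k)) * f k = ε (r j) := by
        calc ad J (f j) * (f j * ad J (f k)) * f k
            = (ad J (f j) * f j) * (ad J (f k) * f k) := by simp only [mul_assoc]
          _ = ε (r j) := by rw [hf3, hf3, ← hjk, h4]
      rw [h0, mul_zero, zero_mul] at e4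
      exact h2 _ e4.symm
    exact one_dim hreg h1 h4 h7 hmem e1 e2 e3 (C.mul_mem (C.mul_mem (h1 j) hc) (h1 k))
      (hcut c j k).1 (hcut c j k).2
  · intro c hc j k hjk
    by_contra h0
    exact hjk (hr2 j k ⟨c, hc, h0⟩)

end Pool.Agent.Lib.MP_640417_ag.Ty
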