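import Pool.Agent.Lib.MP_640417_ag.Ty.PackA
import Pool.Agent.Lib.MP_640417_ag.Ty.EigK
import Pool.Agent.Lib.MP_640417_ag.Ty.IsomK
import Pool.Agent.Lib.MP_640417_ag.Ty.RegK
import Pool.Agent.Lib.MP_640417_ag.Four.Darboux

/-!
# MP_640417_ag, Ty, module PackK: the sum W of one copy of each irreducible constituent

Let `n`, `ε` be as in `exists_eps`, `r`, `f`, `f'` as in `exists_isom` for `C = cK ρ K` (`inCK_adj`, `reg_K`),
`p j = ε j` if `r j = j`, else `0`; `m`, `bl`, `ι`, `π` from `exists_W` for `p` (and `pDarboux`); `e = ι π = ∑ p j`.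
We replace `f j` by `ε j f j ε (r j)` and `f' j` by `ε (r j) f' j ε j` (`isom_norm`), so that
`f j = ε j f j = f j ε (r j)`, `f' j = ε (r j) f' j = f' j ε j`, and
`ε (r j) = p (r j)`, so `e f' j = f' j`, `f j e = f j`, `e ε j = ε j e = p j`.
* `comm`: for `c` in the commutant, `e c e = ∑_(j, k) p j c p k = ∑_j t j p j` (for `j ≠ k` with `r j = j`, `r k = k`:
  `r j ≠ r k`, so `ε j c ε k = 0`; for `j = k` the last property of `exists_eps`). So
  `π c ι = π e c e ι = ∑ t j π (ι δ_j π) ι = diagonal (t (blk a))`.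
* `i j = π f' j`, `q j = f j ι`: `q j i j = f j e f' j = f j f' j = ε j`, sum `1`; `ι i j = e f' j = f' j`, `q j π = f j e =
  f j`, `q j i k = f j e f' k = f j f' k`, all in the commutant. `ι (diagonal δ_b) π = p b` is in the commutant.
* `X0 = ∑_j f j XW f' j`, `XW = ι (diagonal zz) π`. `XW` commutes with all `p b` (diagonal matrices commute), `XW = e XW e`.
  For `c` in the commutant: `c = ∑_(j,k) ε j c ε k`, each term is `0` or `t f j f' k` with `r j = r k`, so it is enough
  that `X0` commutes with `f j f' k`, `r j = r k`: `X0 f j f' k = ∑_l f l XW f' l f j f' k`, and `f' l f j = f' l ε l ε j f j`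
  is `0` unless `l = j`, so this is `f j XW ε (r j) f' k = f j XW f' k`; also `f j f' k X0 = f j ε (r k) XW f' k =
  f j XW f' k`.
  Skew: `XW` is skew (`Ω`-adjoint of `diagonal zz` is `- diagonal zz` by `zz_swap`, `om_swap`; `ιᵀ J = Ω π`), and
  `(f j XW f' j)` is skew since `(f j)ᵀ J = J f' j` and `(f' j)ᵀ J = J f j`.
  `π X0 ι = diagonal zz`: `f' l ι = f' l ε l e ι = f' l p l ι`, which is `0` unless `r l = l`, and then `f l = f' l = ε l = p l`;
  so `X0 ι = ∑_l p l XW p l ι = XW ι`.
-/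

set_option autoImplicit false

namespace Pool.Agent.Lib.MP_640417_ag.Ty

open Matrix Module Pool.Agent.Lib.MP_640417_ag.Glob

section alg

variable {K : Type} [Field K] {I : Type} [Fintype I] [DecidableEq I]

private theorem isom_norm (J : Matrix I I K) (C : Subalgebra K (Matrix I I K)) {n : ℕ}
    (ε : Fin n → Matrix I I K) (h1 : ∀ j, ε j ∈ C) (h4 : ∀ j, ε j * ε j = ε j)
    (h6 : ∀ j, (ε j)ᵀ * J = J * ε j) (r : Fin n → Fin n) (f f' : Fin n → Matrix I I K)
    (hf : ∀ j, f j ∈ C) (hf' : ∀ j, f' j ∈ C)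
    (hd : ∀ j, (f j)ᵀ * J = J * f' j) (he : ∀ j, f' j * f j = ε (r j))
    (hff : ∀ j, f j * f' j = ε j) (hg : ∀ j, r j = j → f j = ε j)
    (hh : ∀ c ∈ C, ∀ j k, r j = r k → ∃ t : K, ε j * c * ε k = t • (f j * f' k)) :
    ∃ (g g' : Fin n → Matrix I I K), (∀ j, g j ∈ C) ∧ (∀ j, g' j ∈ C) ∧
      (∀ j, (g j)ᵀ * J = J * g' j) ∧ (∀ j, g' j * g j = ε (r j)) ∧ (∀ j, g j * g' j = ε j) ∧
      (∀ j, r j = j → g j = ε j) ∧
      (∀ c ∈ C, ∀ j k, r j = r k → ∃ t : K, ε j * c * ε k = t • (g j * g' k)) ∧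
      (∀ j, ε j * g j = g j) ∧ (∀ j, g j * ε (r j) = g j) ∧ (∀ j, ε (r j) * g' j = g' j) ∧
      (∀ j, g' j * ε j = g' j) := by
  have A : ∀ j (x : Matrix I I K), ε j * (ε j * x) = ε j * x := by
    intro j x
    rw [← Matrix.mul_assoc, h4]
  have B : ∀ j (x : Matrix I I K), f' j * (f j * x) = ε (r j) * x := by
    intro j x
    rw [← Matrix.mul_assoc, he]
  have D : ∀ j (x : Matrix I I K), f j * (f' j * x) = ε j * x := by
    intro j x
    rw [← Matrix.mul_assoc, hff]
  refine ⟨fun j => ε j * f j * ε (r j), fun j => ε (r j) * f' j * ε j, ?_, ?_, ?_, ?_, ?_, ?_, ?_,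
    ?_, ?_, ?_, ?_⟩
  · intro j
    exact mul_mem (mul_mem (h1 j) (hf j)) (h1 _)
  · intro j
    exact mul_mem (mul_mem (h1 _) (hf' j)) (h1 j)
  · intro j
    rw [Matrix.transpose_mul, Matrix.transpose_mul]
    have e1 : (ε (r j))ᵀ * ((f j)ᵀ * (ε j)ᵀ) * J = (ε (r j))ᵀ * ((f j)ᵀ * ((ε j)ᵀ * J)) := by
      simp only [Matrix.mul_assoc]
    rw [e1, h6, ← Matrix.mul_assoc (f j)ᵀ, hd, Matrix.mul_assoc, ← Matrix.mul_assoc (ε (r j))ᵀ, h6]
    simp only [Matrix.mul_assoc]
  · intro j
    show ε (r j) * f' j * ε j * (ε j * f j * ε (r j)) = ε (r j)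
    simp only [Matrix.mul_assoc]
    rw [A, ← D j (f j * ε (r j)), B, B, A, A, h4]
  · intro j
    show ε j * f j * ε (r j) * (ε (r j) * f' j * ε j) = ε j
    simp only [Matrix.mul_assoc]
    rw [A, ← B j (f' j * ε j), D, D, A, A, h4]
  · intro j hj
    show ε j * f j * ε (r j) = ε j
    rw [hg j hj, hj, h4, h4]
  · intro c hc j k hjk
    obtain ⟨t, ht⟩ := hh c hc j k hjk
    refine ⟨t, ?_⟩
    show ε j * c * ε k = t • (ε j * f j * ε (r j) * (ε (r k) * f' k * ε k))
    have e1 : ε j * c * ε k = ε j * (ε j * c * ε k) * ε k := by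
      simp only [Matrix.mul_assoc]
      rw [A, h4]
    rw [e1, ht, Matrix.mul_smul, Matrix.smul_mul, hjk]
    congr 1
    simp only [Matrix.mul_assoc]
    rw [A, ← hjk, ← B j (f' k * ε k), D, A]
  · intro j
    show ε j * (ε j * f j * ε (r j)) = ε j * f j * ε (r j)
    simp only [Matrix.mul_assoc]
    rw [A]
  · intro j
    show ε j * f j * ε (r j) * ε (r j) = ε j * f j * ε (r j)
    simp only [Matrix.mul_assoc]
    rw [h4]
  · intro j
    show ε (r j) * (ε (r j) * f' j * ε j) = ε (r j) * f' j * ε j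
    simp only [Matrix.mul_assoc]
    rw [A]
  · intro j
    show ε (r j) * f' j * ε j * ε j = ε (r j) * f' j * ε j
    simp only [Matrix.mul_assoc]
    rw [h4]

omit [DecidableEq I] in
private theorem halt_of_skew [CharZero K] (J : Matrix I I K) (hJ : Jᵀ = -J) (v : I → K) :
    v ⬝ᵥ (J *ᵥ v) = 0 := by
  have h1 : v ⬝ᵥ (J *ᵥ v) = -(v ⬝ᵥ (J *ᵥ v)) := by
    calc v ⬝ᵥ (J *ᵥ v) = (v ᵥ* J) ⬝ᵥ v := by rw [Matrix.dotProduct_mulVec]
      _ = (Jᵀ *ᵥ v) ⬝ᵥ v := by rw [Matrix.mulVec_transpose]
      _ = -(v ⬝ᵥ (J *ᵥ v)) := by rw [hJ, Matrix.neg_mulVec, neg_dotProduct, dotProduct_comm]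
  have h2 : (2 : K) * (v ⬝ᵥ (J *ᵥ v)) = 0 := by linear_combination h1
  rcases mul_eq_zero.1 h2 with h | h
  · exact absurd h two_ne_zero
  · exact h

private theorem om_tr {m : ℕ} (a b : Fin m ⊕ Fin m) : om K b a = -om K a b := by
  rcases a with i | i <;> rcases b with j | j
  · show (0 : K) = -0
    rw [neg_zero]
  · show (if j = i then (-1 : K) else 0) = -(if i = j then (1 : K) else 0)
    by_cases h : i = j
    · rw [if_pos h, if_pos h.symm]
    · rw [if_neg h, if_neg (fun h' => h h'.symm), neg_zero]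
  · show (if j = i then (1 : K) else 0) = -(if i = j then (-1 : K) else 0)
    by_cases h : i = j
    · rw [if_pos h, if_pos h.symm, neg_neg]
    · rw [if_neg h, if_neg (fun h' => h h'.symm), neg_zero]
  · show (0 : K) = -0
    rw [neg_zero]

private theorem zz_om [CharZero K] {m : ℕ} :
    Matrix.diagonal (zz K) * (Matrix.of (om K) : Matrix (Fin m ⊕ Fin m) (Fin m ⊕ Fin m) K) +
      Matrix.of (om K) * Matrix.diagonal (zz K) = 0 := by
  ext a b
  rw [Matrix.add_apply, Matrix.diagonal_mul, Matrix.mul_diagonal, Matrix.of_apply, Matrix.zero_apply]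
  by_cases h : b = a.swap
  · rw [h, zz_swap]
    ring
  · rw [om_swap a b h]
    ring

/-- The generic element. -/
private theorem generic [CharZero K] {n m : ℕ} (J : Matrix I I K) (hJ : Jᵀ = -J)
    (C : Subalgebra K (Matrix I I K))
    (ε : Fin n → Matrix I I K) (hsum : ∑ j, ε j = 1) (hidem : ∀ j, ε j * ε j = ε j)
    (horth : ∀ j k, j ≠ k → ε j * ε k = 0)
    (r : Fin n → Fin n) (f f' : Fin n → Matrix I I K)
    (hd : ∀ j, (f j)ᵀ * J = J * f' j) (he : ∀ j, f' j * f j = ε (r j))
    (hff : ∀ j, f j * f' j = ε j) (hg : ∀ j, r j = j → f j = ε j)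
    (hh : ∀ c ∈ C, ∀ j k, r j = r k → ∃ t : K, ε j * c * ε k = t • (f j * f' k))
    (hz : ∀ c ∈ C, ∀ j k, r j ≠ r k → ε j * c * ε k = 0)
    (l1 : ∀ j, ε j * f j = f j) (l2 : ∀ j, f j * ε (r j) = f j) (l3 : ∀ j, ε (r j) * f' j = f' j)
    (l4 : ∀ j, f' j * ε j = f' j)
    (bl : Fin m → Fin n) (ι : Matrix I (Fin m ⊕ Fin m) K) (π : Matrix (Fin m ⊕ Fin m) I K)
    (hπι : π * ι = 1) (hform : ιᵀ * J * ι = Matrix.of (om K))
    (hsym : (ι * π)ᵀ * J = J * (ι * π))
    (hιπ : ι * π = ∑ j, if r j = j then ε j else 0)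
    (hb : ∀ b, ι * Matrix.diagonal (fun a => if blk bl a = b then (1 : K) else 0) * π =
      if r b = b then ε b else 0) :
    ∃ X0 : Matrix I I K, X0ᵀ * J + J * X0 = 0 ∧ (∀ c ∈ C, X0 * c = c * X0) ∧
      π * X0 * ι = Matrix.diagonal (zz K) := by
  obtain ⟨D0, hD0⟩ : ∃ D0 : Matrix (Fin m ⊕ Fin m) (Fin m ⊕ Fin m) K,
      D0 = Matrix.diagonal (zz K) := ⟨_, rfl⟩
  obtain ⟨XW, hXW⟩ : ∃ XW : Matrix I I K, XW = ι * D0 * π := ⟨_, rfl⟩
  obtain ⟨p, hp⟩ : ∃ p : Fin n → Matrix I I K, p = fun j => if r j = j then ε j else 0 := ⟨_, rfl⟩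
  have hpj : ∀ j, p j = if r j = j then ε j else 0 := fun j => by rw [hp]
  have hιπ' : ι * π = ∑ j, p j := by rw [hιπ, hp]
  -- `XW` commutes with `p b`
  have hcom : ∀ b, XW * p b = p b * XW := by
    intro b
    rw [hpj, ← hb b, hXW]
    have e1 : ∀ D D' : Matrix (Fin m ⊕ Fin m) (Fin m ⊕ Fin m) K,
        ι * D * π * (ι * D' * π) = ι * (D * D') * π := by
      intro D D'
      have : ι * D * π * (ι * D' * π) = ι * (D * (π * ι) * D') * π := by
        simp only [Matrix.mul_assoc]
      rw [this, hπι, Matrix.mul_one]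
    rw [e1, e1, hD0, Matrix.diagonal_mul_diagonal, Matrix.diagonal_mul_diagonal]
    congr 3
    funext a
    ring
  have hpp : ∀ b, p b * p b = p b := by
    intro b
    rw [hpj]
    split_ifs
    · exact hidem b
    · rw [Matrix.mul_zero]
  have hιe : ι * π * ι = ι := by rw [Matrix.mul_assoc, hπι, Matrix.mul_one]
  have hπe : π * (ι * π) = π := by rw [← Matrix.mul_assoc, hπι, Matrix.one_mul]
  have hee : ∀ j, ε j * (ι * π) = p j := by
    intro j
    rw [hιπ', Finset.mul_sum, Finset.sum_eq_single j]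
    · rw [hpj]
      split_ifs
      · exact hidem j
      · rw [Matrix.mul_zero]
    · intro k _ hk
      rw [hpj]
      split_ifs
      · exact horth j k hk.symm
      · rw [Matrix.mul_zero]
    · intro h
      exact absurd (Finset.mem_univ j) h
  -- skewness of `XW`
  obtain ⟨Om, hOm⟩ : ∃ Om : Matrix (Fin m ⊕ Fin m) (Fin m ⊕ Fin m) K, Om = Matrix.of (om K) :=
    ⟨_, rfl⟩
  have hιJ : ιᵀ * J = Om * π := by
    have e1 : ιᵀ * J = ιᵀ * ((ι * π)ᵀ * J) := by
      rw [← Matrix.mul_assoc, ← Matrix.transpose_mul, hιe]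
    rw [e1, hsym, ← Matrix.mul_assoc, ← Matrix.mul_assoc, hform, hOm]
  have hom : Omᵀ = -Om := by
    rw [hOm]
    ext a b
    rw [Matrix.transpose_apply, Matrix.neg_apply, Matrix.of_apply, Matrix.of_apply]
    exact om_tr a b
  have hJι : J * ι = πᵀ * Om := by
    have e1 := congrArg Matrix.transpose hιJ
    rw [Matrix.transpose_mul, Matrix.transpose_mul, Matrix.transpose_transpose, hJ, hom,
      Matrix.neg_mul, Matrix.mul_neg] at e1
    exact neg_injective e1
  have hzz : D0 * Om + Om * D0 = 0 := by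
    rw [hD0, hOm]
    exact zz_om
  have hXWs : XWᵀ * J + J * XW = 0 := by
    have hD0t : D0ᵀ = D0 := by rw [hD0, Matrix.diagonal_transpose]
    rw [hXW, Matrix.transpose_mul, Matrix.transpose_mul, hD0t]
    have e1 : πᵀ * (D0 * ιᵀ) * J + J * (ι * D0 * π) = πᵀ * (D0 * Om + Om * D0) * π := by
      have a1 : πᵀ * (D0 * ιᵀ) * J = πᵀ * (D0 * (ιᵀ * J)) := by simp only [Matrix.mul_assoc]
      have a2 : J * (ι * D0 * π) = (J * ι) * (D0 * π) := by simp only [Matrix.mul_assoc]
      rw [a1, a2, hιJ, hJι, Matrix.mul_add, Matrix.add_mul]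
      simp only [Matrix.mul_assoc]
    rw [e1, hzz, Matrix.mul_zero, Matrix.zero_mul]
  have hd' : ∀ j, (f' j)ᵀ * J = J * f j := by
    intro j
    have e1 := congrArg Matrix.transpose (hd j)
    rw [Matrix.transpose_mul, Matrix.transpose_mul, Matrix.transpose_transpose, hJ,
      Matrix.neg_mul, Matrix.mul_neg] at e1
    exact (neg_injective e1).symm
  have hzero : ∀ l j, l ≠ j → f' l * f j = 0 := by
    intro l j hlj
    rw [← l4 l, ← l1 j, Matrix.mul_assoc, ← Matrix.mul_assoc (ε l), horth l j hlj, Matrix.zero_mul,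
      Matrix.mul_zero]
  refine ⟨∑ j, f j * XW * f' j, ?_, ?_, ?_⟩
  · rw [Matrix.transpose_sum, Finset.sum_mul, Finset.mul_sum, ← Finset.sum_add_distrib]
    refine Finset.sum_eq_zero fun j _ => ?_
    rw [Matrix.transpose_mul, Matrix.transpose_mul]
    have a1 : (f' j)ᵀ * (XWᵀ * (f j)ᵀ) * J = (f' j)ᵀ * (XWᵀ * ((f j)ᵀ * J)) := by
      simp only [Matrix.mul_assoc]
    have a2 : (f' j)ᵀ * (XWᵀ * (J * f' j)) = (f' j)ᵀ * ((XWᵀ * J) * f' j) := by
      simp only [Matrix.mul_assoc]
    have a3 : XWᵀ * J = -(J * XW) := eq_neg_of_add_eq_zero_left hXWs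
    have a4 : (f' j)ᵀ * (-(J * XW) * f' j) = -((f' j)ᵀ * J * (XW * f' j)) := by
      rw [Matrix.neg_mul, Matrix.mul_neg]
      simp only [Matrix.mul_assoc]
    rw [a1, hd, a2, a3, a4, hd']
    simp only [Matrix.mul_assoc]
    rw [neg_add_cancel]
  · intro c hc
    -- reduction to `f j * f' k`
    have key : ∀ j k, r j = r k →
        (∑ l, f l * XW * f' l) * (f j * f' k) = (f j * f' k) * ∑ l, f l * XW * f' l := by
      intro j k hjk
      rw [Finset.sum_mul, Finset.mul_sum, Finset.sum_eq_single j, Finset.sum_eq_single k]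
      · have a1 : f j * XW * f' j * (f j * f' k) = f j * (XW * ((f' j * f j) * f' k)) := by
          simp only [Matrix.mul_assoc]
        have a2 : f j * f' k * (f k * XW * f' k) = f j * (f' k * f k) * (XW * f' k) := by
          simp only [Matrix.mul_assoc]
        rw [a1, a2, he, he, hjk, l3, ← hjk, l2]
      · intro l _ hl
        have a2 : f j * f' k * (f l * XW * f' l) = f j * (f' k * f l) * (XW * f' l) := by
          simp only [Matrix.mul_assoc]
        rw [a2, hzero k l hl.symm, Matrix.mul_zero, Matrix.zero_mul]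
      · intro h
        exact absurd (Finset.mem_univ k) h
      · intro l _ hl
        have a1 : f l * XW * f' l * (f j * f' k) = f l * (XW * ((f' l * f j) * f' k)) := by
          simp only [Matrix.mul_assoc]
        rw [a1, hzero l j hl, Matrix.zero_mul, Matrix.mul_zero, Matrix.mul_zero]
      · intro h
        exact absurd (Finset.mem_univ j) h
    have hc' : c = ∑ j, ∑ k, ε j * c * ε k := by
      have e1 : ∀ j, ∑ k, ε j * c * ε k = ε j * c := by
        intro j
        rw [← Finset.mul_sum, hsum, Matrix.mul_one]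
      rw [Finset.sum_congr rfl fun j _ => e1 j, ← Finset.sum_mul, hsum, Matrix.one_mul]
    rw [hc', Finset.mul_sum, Finset.sum_mul]
    refine Finset.sum_congr rfl fun j _ => ?_
    rw [Finset.mul_sum, Finset.sum_mul]
    refine Finset.sum_congr rfl fun k _ => ?_
    by_cases hjk : r j = r k
    · obtain ⟨t, ht⟩ := hh c hc j k hjk
      rw [ht, Matrix.mul_smul, Matrix.smul_mul, key j k hjk]
    · rw [hz c hc j k hjk, Matrix.mul_zero, Matrix.zero_mul]
  · have e1 : ∀ l, f l * XW * f' l * ι = XW * p l * ι := by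
      intro l
      have a1 : f' l * ι = f' l * (p l * ι) := by
        calc f' l * ι = f' l * ε l * (ι * π * ι) := by rw [l4, hιe]
          _ = f' l * (ε l * (ι * π) * ι) := by simp only [Matrix.mul_assoc]
          _ = f' l * (p l * ι) := by rw [hee]
      rw [Matrix.mul_assoc, a1]
      by_cases hl : r l = l
      · have a2 : p l = ε l := by rw [hpj, if_pos hl]
        have a3 : f l = ε l := hg l hl
        have a4 : f' l = ε l := by
          have := hff l
          rw [a3] at this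
          rw [← l3 l, hl]
          exact this
        have a5 : f' l * (p l * ι) = p l * ι := by
          rw [a4, ← a2, ← Matrix.mul_assoc, hpp]
        rw [a5, a3, ← a2, ← hcom]
        have a6 : XW * p l * (p l * ι) = XW * (p l * p l) * ι := by simp only [Matrix.mul_assoc]
        rw [a6, hpp]
      · have a2 : p l = 0 := by rw [hpj, if_neg hl]
        rw [a2, Matrix.zero_mul, Matrix.mul_zero, Matrix.mul_zero, Matrix.mul_zero, Matrix.zero_mul]
    have e2 : (∑ l, f l * XW * f' l) * ι = XW * ι := by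
      rw [Matrix.sum_mul, Finset.sum_congr rfl fun l _ => e1 l, ← Matrix.sum_mul, ← Finset.mul_sum,
        ← hιπ', Matrix.mul_assoc, hιe]
    rw [Matrix.mul_assoc, e2, hXW]
    have e3 : π * (ι * D0 * π * ι) = (π * ι) * D0 * (π * ι) := by simp only [Matrix.mul_assoc]
    rw [e3, hπι, Matrix.one_mul, Matrix.mul_one, hD0]

end alg

variable {Γ : Type} [Group Γ] [TopologicalSpace Γ] [IsTopologicalGroup Γ] [CompactSpace Γ]
  {F : Type} [NontriviallyNormedField F] [CharZero F] {I : Type} [Fintype I] [DecidableEq I]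

theorem exists_pack (ρ : MRep Γ F I) (K : Type) [Field K] [Algebra F K] [IsAlgClosed K]
    (hsemi : ρ.Semi) (h : RealM ρ) : Nonempty (Pack ρ K) := by
  classical
  have hK : CharZero K := charZero_of_injective_algebraMap (algebraMap F K).injective
  obtain ⟨n, ε, hεC, hεne, hsum, hidem, horth, hsymε, hscal⟩ := exists_eps ρ K h
  obtain ⟨J, hJdef⟩ : ∃ J, J = ρ.J.map (algebraMap F K) := ⟨_, rfl⟩
  have hskew0 : ρ.Jᵀ = -ρ.J := by
    have hpol : ∀ i j, ρ.J i j = -ρ.J j i := by
      intro i j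
      have a := ρ.alt (Pi.single i 1 + Pi.single j 1)
      have b := ρ.alt (Pi.single i 1)
      have c := ρ.alt (Pi.single j 1)
      rw [Matrix.mulVec_add, add_dotProduct, dotProduct_add, dotProduct_add, b, c, zero_add,
        add_zero] at a
      simp only [Matrix.mulVec_single_one, single_dotProduct, one_mul, Matrix.col_apply] at a
      exact eq_neg_of_add_eq_zero_left a
    ext i j
    rw [Matrix.transpose_apply, Matrix.neg_apply]
    exact hpol j i
  have hJs : Jᵀ = -J := by
    rw [hJdef, ← Matrix.transpose_map, hskew0]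
    ext i j
    simp
  have hdet : J.det ≠ 0 := by
    rw [hJdef]
    have e : (ρ.J.map (algebraMap F K)).det = algebraMap F K ρ.J.det := by
      rw [RingHom.map_det]
      rfl
    rw [e]
    exact fun h0 => ρ.det ((map_eq_zero _).1 h0)
  rw [← hJdef] at hsymε
  have hadj : ∀ c ∈ cK ρ K, J⁻¹ * cᵀ * J ∈ cK ρ K := by
    intro c hc
    rw [hJdef]
    exact inCK_adj ρ K hc
  have hreg : ∀ c ∈ cK ρ K, ∃ g ∈ cK ρ K, c * g * c = c := by
    intro c hc
    exact reg_K ρ K hsemi hc
  obtain ⟨r, f0, f0', hr, hf0, hf0', hd0, he0, hff0, hg0, hh0, hz⟩ :=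
    exists_isom J hdet hJs (cK ρ K) hadj hreg ε hεC hεne hidem hsymε
      (fun c hc j => hscal c hc j)
  obtain ⟨f, f', hf, hf', hd, he, hff, hg, hh, l1, l2, l3, l4⟩ :=
    isom_norm J (cK ρ K) ε hεC hidem hsymε r f0 f0' hf0 hf0' hd0 he0 hff0 hg0 hh0
  obtain ⟨p, hp⟩ : ∃ p : Fin n → Matrix I I K, p = fun j => if r j = j then ε j else 0 := ⟨_, rfl⟩
  have hpj : ∀ j, p j = if r j = j then ε j else 0 := fun j => by rw [hp]
  have hpC : ∀ j, p j ∈ cK ρ K := by
    intro j
    rw [hpj]
    split_ifs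
    · exact hεC j
    · exact zero_mem _
  have hp1 : ∀ j, p j * p j = p j := by
    intro j
    rw [hpj]
    split_ifs
    · exact hidem j
    · rw [Matrix.mul_zero]
  have hp2 : ∀ j k, j ≠ k → p j * p k = 0 := by
    intro j k hjk
    rw [hpj, hpj]
    split_ifs
    · exact horth j k hjk
    · rw [Matrix.mul_zero]
    · rw [Matrix.zero_mul]
    · rw [Matrix.zero_mul]
  have hp3 : ∀ j, (p j)ᵀ * J = J * p j := by
    intro j
    rw [hpj]
    split_ifs
    · exact hsymε j
    · rw [Matrix.transpose_zero, Matrix.zero_mul, Matrix.mul_zero]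
  obtain ⟨m, bl, ι, π, hπι, hform, hιπ, hb⟩ :=
    exists_W Four.pDarboux J (halt_of_skew J hJs) hdet p hp1 hp2 hp3
  have hsym : (ι * π)ᵀ * J = J * (ι * π) := by
    rw [hιπ, Matrix.transpose_sum, Finset.sum_mul, Finset.mul_sum]
    exact Finset.sum_congr rfl fun j _ => hp3 j
  have heC : ι * π ∈ cK ρ K := by
    rw [hιπ]
    exact sum_mem fun j _ => hpC j
  have hιe : ι * π * ι = ι := by rw [Matrix.mul_assoc, hπι, Matrix.mul_one]
  have hπe : π * (ι * π) = π := by rw [← Matrix.mul_assoc, hπι, Matrix.one_mul]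
  have hpr : ∀ j, p (r j) = ε (r j) := by
    intro j
    rw [hpj, if_pos (hr j)]
  have hep : ∀ j, ι * π * p j = p j := by
    intro j
    rw [hιπ, Finset.sum_mul, Finset.sum_eq_single j]
    · exact hp1 j
    · intro k _ hk
      exact hp2 k j hk
    · intro h
      exact absurd (Finset.mem_univ j) h
  have hpe : ∀ j, p j * (ι * π) = p j := by
    intro j
    rw [hιπ, Finset.mul_sum, Finset.sum_eq_single j]
    · exact hp1 j
    · intro k _ hk
      exact hp2 j k hk.symm
    · intro h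
      exact absurd (Finset.mem_univ j) h
  have hef' : ∀ j, ι * π * f' j = f' j := by
    intro j
    rw [← l3 j, ← hpr, ← Matrix.mul_assoc, hep]
  have hfe : ∀ j, f j * (ι * π) = f j := by
    intro j
    rw [← l2 j, ← hpr, Matrix.mul_assoc, hpe]
  have hqi : ∀ j k, f j * ι * (π * f' k) = f j * f' k := by
    intro j k
    have a1 : f j * ι * (π * f' k) = f j * (ι * π * f' k) := by simp only [Matrix.mul_assoc]
    rw [a1, hef']
  obtain ⟨X0, hX0s, hX0c, hX0d⟩ := generic J hJs (cK ρ K) ε hsum hidem horth r f f' hd he hff hg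
    hh hz l1 l2 l3 l4 bl ι π hπι hform hsym (by rw [hιπ, hp]) (fun b => by rw [hb b, hpj])
  refine ⟨{
    m := m
    n := n
    bl := bl
    ι := ι
    π := π
    πι := hπι
    form := by rw [← hJdef]; exact hform
    sym := by rw [← hJdef]; exact hsym
    inC := heC
    inCb := ?_
    comm := ?_
    i := fun j => π * f' j
    q := fun j => f j * ι
    sum := ?_
    iC := ?_
    qC := ?_
    qi := ?_
    X0 := X0
    X0s := by rw [← hJdef]; exact hX0s
    X0c := hX0c
    X0d := hX0d }⟩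
  · intro b
    rw [hb b]
    exact hpC b
  · intro c hc
    choose t ht using fun j => hscal c hc j
    refine ⟨t, ?_⟩
    have a1 : ι * π * c * (ι * π) = ∑ j, t j • p j := by
      have a2 : ∀ j, p j * c * (ι * π) = t j • p j := by
        intro j
        rw [hιπ, Finset.mul_sum, Finset.sum_eq_single j]
        · rw [hpj]
          split_ifs
          · exact ht j
          · rw [Matrix.zero_mul, Matrix.zero_mul, smul_zero]
        · intro k _ hk
          rw [hpj, hpj]
          split_ifs with hj hk'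
          · refine hz c hc j k ?_
            rw [hj, hk']
            exact hk.symm
          · rw [Matrix.mul_zero]
          · rw [Matrix.zero_mul, Matrix.zero_mul]
          · rw [Matrix.mul_zero]
        · intro h
          exact absurd (Finset.mem_univ j) h
      have a3 : ι * π * c * (ι * π) = ∑ j, p j * c * (ι * π) := by
        rw [← Finset.sum_mul, ← Finset.sum_mul, ← hιπ]
      rw [a3]
      exact Finset.sum_congr rfl fun j _ => a2 j
    have a4 : π * c * ι = π * (ι * π * c * (ι * π)) * ι := by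
      have : π * (ι * π * c * (ι * π)) * ι = (π * ι) * π * c * (ι * (π * ι)) := by
        simp only [Matrix.mul_assoc]
      rw [this, hπι, Matrix.one_mul, Matrix.mul_one]
    have a5 : ∀ j, π * (t j • p j) * ι =
        Matrix.diagonal (fun a => if blk bl a = j then t j else 0) := by
      intro j
      rw [← hb j, Matrix.mul_smul, Matrix.smul_mul]
      have : π * (ι * Matrix.diagonal (fun a => if blk bl a = j then (1 : K) else 0) * π) * ι =
          (π * ι) * Matrix.diagonal (fun a => if blk bl a = j then (1 : K) else 0) * (π * ι) := by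
        simp only [Matrix.mul_assoc]
      rw [this, hπι, Matrix.one_mul, Matrix.mul_one]
      ext a b
      simp only [Matrix.smul_apply, Matrix.diagonal_apply, smul_eq_mul]
      split_ifs <;> simp
    rw [a4, a1, Matrix.mul_sum, Matrix.sum_mul, Finset.sum_congr rfl fun j _ => a5 j]
    ext a b
    rw [Matrix.sum_apply, Matrix.diagonal_apply]
    by_cases hab : a = b
    · subst hab
      simp only [Matrix.diagonal_apply_eq]
      rw [if_pos trivial, Finset.sum_ite_eq, if_pos (Finset.mem_univ _)]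
    · rw [if_neg hab]
      exact Finset.sum_eq_zero fun j _ => Matrix.diagonal_apply_ne _ hab
  · rw [← hsum]
    refine Finset.sum_congr rfl fun j _ => ?_
    rw [hqi, hff]
  · intro j
    show InCK ρ K (ι * (π * f' j))
    rw [← Matrix.mul_assoc, hef']
    exact hf' j
  · intro j
    show InCK ρ K (f j * ι * π)
    rw [Matrix.mul_assoc, hfe]
    exact hf j
  · intro j k
    show InCK ρ K (f j * ι * (π * f' k))
    rw [hqi]
    exact (cK ρ K).mul_mem (hf j) (hf' k)

end Pool.Agent.Lib.MP_640417_ag.Ty
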