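import Pool.Agent.Lib.MP_640417_ag.Glob.Lfull
import Pool.Agent.Lib.MP_640417_ag.Ty.PackK
import Pool.Agent.Lib.MP_640417_ag.Ty.GenT
import Pool.Agent.Lib.MP_640417_ag.Ty.NearK
import Pool.Agent.Lib.MP_640417_ag.Glob.Main

/-!
# MP_640417_ag, Ty, module GoodW: good elements on W

The same assembly as `good_open_of_full` in `Glob/Main.lean`. If `I` is empty then `m = 0` and everything is
trivial (`O = univ`; the charpoly of an empty matrix is 1). Otherwise: `f1 (π X0 ι) ≠ 0`, `f2 (π X0 ι) ≠ 0` for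
`π X0 ι = diagonal zz` (`f1_diag`, `zz_inj`; `f2_diag`, `coeff_zero_ne`, `card_zz`, with `P = 1` and `σ` the identity). By `gen_FK`
(with `C = {b | InC b}`; `inCK_map`) there is `X` over `F` in the centralizer of the commutant in `spJ J`, `Hh_full`
(with `zsymm_of_real`) gives `X ∈ Hh`, `gen_spanK` a tangent vector `B`, `Zt_mult` and `trace_of_mult` its multiplier `t`
(`B.trace / card I = t / 2`), and `near_openK` the open set. `hcomm` is `inCK_full`; `Ω = om` is alternating with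
nonzero determinant.
-/

set_option autoImplicit false

namespace Pool.Agent.Lib.MP_640417_ag.Ty

open Filter Topology Matrix Pool.Agent.Lib.MP_640417_ag Pool.Agent.Lib.MP_640417_ag.Glob

private theorem goodW_tr {K : Type} [Field K] {m : ℕ} (a b : Fin m ⊕ Fin m) :
    om K b a = -om K a b := by
  rcases a with i | i <;> rcases b with j | j
  · show (0 : K) = -0
    rw [neg_zero]
  · show (if j = i then (-1 : K) else 0) = -(if i = j then (1 : K) else 0)
    by_cases h : i = j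
    · rw [if_pos h, if_pos h.symm]
    · rw [if_neg h, if_neg (fun h' => h h'.symm), neg_zero]
  · show (if j = i then (1 : K) else 0) = -(if i = j then (-1 : K) else 0)
    by_cases h : i = j
    · rw [if_pos h, if_pos h.symm, neg_neg]
    · rw [if_neg h, if_neg (fun h' => h h'.symm), neg_zero]
  · show (0 : K) = -0
    rw [neg_zero]

private theorem goodW_alt {K : Type} [Field K] [CharZero K] {m : ℕ} (v : Fin m ⊕ Fin m → K) :
    v ⬝ᵥ ((Matrix.of (om K) : Matrix (Fin m ⊕ Fin m) (Fin m ⊕ Fin m) K) *ᵥ v) = 0 := by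
  obtain ⟨J, hJd⟩ : ∃ J, J = (Matrix.of (om K) : Matrix (Fin m ⊕ Fin m) (Fin m ⊕ Fin m) K) :=
    ⟨_, rfl⟩
  have hJ : Jᵀ = -J := by
    rw [hJd]
    ext a b
    rw [Matrix.transpose_apply, Matrix.neg_apply, Matrix.of_apply, Matrix.of_apply]
    exact goodW_tr a b
  rw [← hJd]
  have h1 : v ⬝ᵥ (J *ᵥ v) = -(v ⬝ᵥ (J *ᵥ v)) := by
    calc v ⬝ᵥ (J *ᵥ v) = (v ᵥ* J) ⬝ᵥ v := by rw [Matrix.dotProduct_mulVec]
      _ = (Jᵀ *ᵥ v) ⬝ᵥ v := by rw [Matrix.mulVec_transpose]
      _ = -(v ⬝ᵥ (J *ᵥ v)) := by rw [hJ, Matrix.neg_mulVec, neg_dotProduct, dotProduct_comm]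
  have h2 : (2 : K) * (v ⬝ᵥ (J *ᵥ v)) = 0 := by linear_combination h1
  rcases mul_eq_zero.1 h2 with h | h
  · exact absurd h two_ne_zero
  · exact h

private theorem goodW_det {K : Type} [Field K] {m : ℕ} :
    (Matrix.of (om K) : Matrix (Fin m ⊕ Fin m) (Fin m ⊕ Fin m) K).det ≠ 0 := by
  intro h0
  obtain ⟨v, hv, hv0⟩ := Matrix.exists_mulVec_eq_zero_iff.2 h0
  apply hv
  funext a
  have h1 := congrFun hv0 a.swap
  rw [Matrix.mulVec, dotProduct, Finset.sum_eq_single a] at h1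
  · rw [Matrix.of_apply, Pi.zero_apply] at h1
    rcases mul_eq_zero.1 h1 with h | h
    · have h2 := om_ne (K := K) a.swap
      rw [Sum.swap_swap] at h2
      exact absurd h h2
    · exact h
  · intro b _ hb
    rw [Matrix.of_apply, om_swap, zero_mul]
    rw [Sum.swap_swap]
    exact hb
  · intro h
    exact absurd (Finset.mem_univ a) h

variable {F : Type} [NontriviallyNormedField F] [IsUltrametricDist F] [CompleteSpace F] [CharZero F]
  {I : Type} [Fintype I] [DecidableEq I] {Γ : Type} [Group Γ] [TopologicalSpace Γ]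
  [IsTopologicalGroup Γ] [CompactSpace Γ]

theorem good_openW (ρ : MRep Γ F I) {K : Type} [Field K] [Algebra F K] (P : Pack ρ K) (l : ℕ)
    [Fact l.Prime] (hl : ‖(l : F)‖ < 1) (hsemi : ρ.Semi) (hr : RealM ρ) (hfull : Full0 ρ)
    (hex : ∀ x : ExteriorAlgebra F (Fin 4 → I → F), TateClass (ρ.act 4) ρ.μ⁻¹ 2 x →
      x ∈ divisorAlg (ρ.act 4) ρ.μ⁻¹) :
    ∃ O : Set Γ, IsOpen O ∧ O.Nonempty ∧
      ∀ γ ∈ O, FourM (P.π * (ρ.M γ).map (algebraMap F K) * P.ι) (algebraMap F K (ρ.μ γ : F)) := by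
  classical
  have hK : CharZero K := charZero_of_injective_algebraMap (algebraMap F K).injective
  have hl0 : (l : F) ≠ 0 := Nat.cast_ne_zero.mpr (Fact.out : l.Prime).ne_zero
  rcases isEmpty_or_nonempty I with hI | hI
  · have hE : IsEmpty (Fin P.m ⊕ Fin P.m) := by
      refine ⟨fun a => ?_⟩
      have h1 := congrFun (congrFun P.πι a) a
      rw [Matrix.mul_apply, Matrix.one_apply_eq, Finset.univ_eq_empty, Finset.sum_empty] at h1
      exact zero_ne_one h1
    refine ⟨Set.univ, isOpen_univ, ⟨1, trivial⟩, fun γ _ => ?_⟩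
    have h1 : (P.π * (ρ.M γ).map (algebraMap F K) * P.ι).charpoly = 1 := by
      unfold Matrix.charpoly
      exact Matrix.det_isEmpty
    refine ⟨?_, ?_⟩
    · rw [h1]
      exact Polynomial.separable_one
    · intro a b u v ha
      rw [h1, map_one] at ha
      exact absurd ha one_ne_zero
  · have hD : P.π * P.X0 * P.ι * 1 = 1 * Matrix.diagonal (zz K) := by
      rw [Matrix.mul_one, Matrix.one_mul]
      exact P.X0d
    have hdet1 : (1 : Matrix (Fin P.m ⊕ Fin P.m) (Fin P.m ⊕ Fin P.m) K).det ≠ 0 := by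
      rw [Matrix.det_one]
      exact one_ne_zero
    have h1 : f1 (P.π * P.X0 * P.ι) ≠ 0 := (f1_diag hdet1 hD).2 zz_inj
    have h2 : f2 (P.π * P.X0 * P.ι) ≠ 0 := by
      unfold f2
      rw [f2_diag hdet1 hD]
      exact coeff_zero_ne _ _ (card_zz (Equiv.refl _))
    obtain ⟨X, hX, hXC, g1, g2⟩ := gen_FK P.ι P.π ρ.J {b | ρ.InC b} P.X0 P.X0s
      (fun b hb => P.X0c _ (inCK_map ρ K hb)) h1 h2
    have hXH : X ∈ ρ.Hh l := Hh_full ρ l hl hl0 hsemi (zsymm_of_real ρ hr) hex X hX hXC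
    obtain ⟨hXs, s, hXspan⟩ := hXH
    have hcard : (Fintype.card I : F) ≠ 0 := Nat.cast_ne_zero.mpr Fintype.card_ne_zero
    have htr : X.trace = 0 := by
      have h3 := trace_of_mult ρ.J ρ.det X 0 (by rw [zero_smul]; exact hX)
      rw [zero_mul] at h3
      exact (mul_eq_zero.mp h3).resolve_left two_ne_zero
    have h0 : (0 : Matrix I I F) ∈ ρ.Zt l := by
      refine ⟨fun _ => 1, ?_⟩
      have h3 : (fun k : ℕ => ((l : F) ^ k)⁻¹ • (ρ.M 1 - 1)) = fun _ => 0 := by
        funext k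
        rw [map_one, sub_self, smul_zero]
      rw [h3]
      exact tendsto_const_nhds
    obtain ⟨A, hAZ, hA1, hA2⟩ := gen_spanK P.ι P.π (ρ.Zt l) h0
      (fun A hA B hB => Zt_add ρ l hl hl0 hA hB) X s hXspan htr g1 g2
    obtain ⟨t, ht⟩ := Zt_mult ρ l hl hl0 hAZ
    have h4 : A.trace / (Fintype.card I : F) = t / 2 := by
      have h5 := trace_of_mult ρ.J ρ.det A t ht
      rw [div_eq_div_iff hcard two_ne_zero, mul_comm, h5]
    rw [h4] at hA1 hA2
    refine near_openK ρ P.ι P.π P.πι (fun γ => inCK_full ρ K hfull P.inC γ) ?_ ?_ l hl A hAZ t ht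
      hA1 hA2
    · intro v
      rw [P.form]
      exact goodW_alt v
    · rw [P.form]
      exact goodW_det

end Pool.Agent.Lib.MP_640417_ag.Ty
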