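import Pool.Agent.Lib.MP_640417_ag.Ty.Detect
import Pool.Agent.Lib.MP_640417_ag.Ty.GoodW
import Pool.Agent.Lib.MP_640417_ag.Ty.Res

/-!
# MP_640417_ag, Ty, module Main: the local-global principle without factors of type III and IV
-/

set_option autoImplicit false

namespace Pool.Agent.Lib.MP_640417_ag.Ty

open Matrix Module TensorProduct Pool.Agent.Lib.MP_640417_ag Pool.Agent.Lib.MP_640417_ag.Frob
  Pool.Agent.Lib.MP_640417_ag.Glob Pool.Agent.Lib.MP_640417_ag.Four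

/-- good elements, if everything in the commutant commutes with `Γ` -/
theorem good_full (l : ℕ) [Fact l.Prime] {Γ : Type} [Group Γ]
    [TopologicalSpace Γ] [IsTopologicalGroup Γ] [CompactSpace Γ] {V : Type} [AddCommGroup V]
    [Module ℚ_[l] V] [FiniteDimensional ℚ_[l] V] (ρ : H1Rep Γ ℚ_[l] V) (hsemi : Semisimple ρ)
    (hr : RealType ρ) (hfull : ∀ c, CommF ρ c → ∀ γ, c * ρ.T γ = ρ.T γ * c)
    (hex : NoExoticFour ρ) : ∃ O : Set Γ, IsOpen O ∧ O.Nonempty ∧ ∀ γ ∈ O, GoodTy ρ γ := by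
  obtain ⟨R, h1, h2, h3⟩ := exists_coord ρ (Module.finBasis ℚ_[l] V)
  have hfull' := full_coord ρ _ R h1 hfull
  have hr' := real_coord ρ _ R h1 h3 hr
  have hs' := coord_semi ρ _ R h1 hsemi
  obtain ⟨P⟩ := exists_pack R (AlgebraicClosure ℚ_[l]) hs' hr'
  obtain ⟨O, hO, hOn, hOg⟩ := good_openW R P l (by
    rw [Padic.norm_p]
    exact inv_lt_one_of_one_lt₀ (by exact_mod_cast (Fact.out : l.Prime).one_lt)) hs' hr' hfull'
    (coord_ex ρ _ R h1 h2 hex)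
  exact ⟨O, hO, hOn, fun γ hγ => good_of_four ρ _ R h1 h2 P hfull' γ (hOg γ hγ)⟩

theorem noExotic_of_detectsTy (l : ℕ) [Fact l.Prime] {Γ : Type} [Group Γ]
    [TopologicalSpace Γ] [IsTopologicalGroup Γ] [CompactSpace Γ] {V : Type} [AddCommGroup V]
    [Module ℚ_[l] V] [FiniteDimensional ℚ_[l] V] (ρ : H1Rep Γ ℚ_[l] V) (hsemi : Semisimple ρ)
    (hr : RealType ρ) {γ : Γ} (hγ : DetectsTy ρ γ) : NoExotic ρ := by
  obtain ⟨U, hU⟩ := exists_U0 ρ
  have := topGroup_U U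
  have := compact_U U
  have hγU : γ ∈ U := (hU γ).mpr hγ.1
  exact (noExotic_res ρ U).mp (noExotic_of_detects (res ρ U) (semi_res ρ U hsemi)
    (real_res ρ U hr) (fun c hc γ' => (hU γ'.1).mp γ'.2 c ((commF_res ρ U c).mp hc))
    (γ := ⟨γ, hγU⟩) ((detects_res ρ U ⟨γ, hγU⟩).mpr hγ))

theorem noExotic_of_good (l : ℕ) [Fact l.Prime] {Γ : Type} [Group Γ]
    [TopologicalSpace Γ] [IsTopologicalGroup Γ] [CompactSpace Γ] {V : Type} [AddCommGroup V]
    [Module ℚ_[l] V] [FiniteDimensional ℚ_[l] V] (ρ : H1Rep Γ ℚ_[l] V) (hsemi : Semisimple ρ)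
    (hr : RealType ρ) {γ : Γ} (hγ : GoodTy ρ γ) : NoExotic ρ :=
  noExotic_of_detectsTy l ρ hsemi hr (detects_of_good ρ hγ)

/-- **The local-global principle.** -/
theorem tfae_real (l : ℕ) [Fact l.Prime] {Γ : Type} [Group Γ]
    [TopologicalSpace Γ] [IsTopologicalGroup Γ] [CompactSpace Γ] {V : Type} [AddCommGroup V]
    [Module ℚ_[l] V] [FiniteDimensional ℚ_[l] V] (ρ : H1Rep Γ ℚ_[l] V) (hsemi : Semisimple ρ)
    (hr : RealType ρ) :
    List.TFAE [NoExotic ρ, NoExoticFour ρ, ∀ D : Set Γ, Dense D → ∃ γ ∈ D, GoodTy ρ γ,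
      ∃ γ, DetectsTy ρ γ] := by
  tfae_have 1 → 2 := fun h x => h 4 2 x
  tfae_have 2 → 3 := by
    intro h D hD
    obtain ⟨U, hU⟩ := exists_U0 ρ
    have := topGroup_U U
    have := compact_U U
    obtain ⟨O, hO, ⟨γ0, hγ0⟩, hOg⟩ := good_full l (res ρ U) (semi_res ρ U hsemi) (real_res ρ U hr)
      (fun c hc γ => (hU γ.1).mp γ.2 c ((commF_res ρ U c).mp hc)) ((noExoticFour_res ρ U).mpr h)
    have hO' : IsOpen ((Subtype.val : U → Γ) '' O) := U.isOpen.isOpenMap_subtype_val O hO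
    obtain ⟨γ, ⟨γ', hγ', rfl⟩, hγD⟩ := hD.inter_open_nonempty _ hO' ⟨_, γ0, hγ0, rfl⟩
    exact ⟨_, hγD, (good_res ρ U γ').mp (hOg γ' hγ')⟩
  tfae_have 3 → 4 := by
    intro h
    obtain ⟨γ, -, hγ⟩ := h Set.univ dense_univ
    exact ⟨γ, detects_of_good ρ hγ⟩
  tfae_have 4 → 1 := by
    rintro ⟨γ, hγ⟩
    exact noExotic_of_detectsTy l ρ hsemi hr hγ
  tfae_finish

end Pool.Agent.Lib.MP_640417_ag.Ty
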