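import Pool.Agent.Lib.MP_640417_ag.Ty.MainW
import Pool.Agent.Lib.MP_640417_ag.Ty.CoordK

/-!
# MP_640417_ag, Ty, module Conv: irreducible eigenspaces and simple eigenvalues on W

`K = AlgebraicClosure F`, `M = (M γ).map`, `G = π M ι` (the matrix of `TW γ`). By `Full0`, `inCK_full` everything in `InCK`
commutes with `M`; so `M ι = ι G`, `π M = G π`, `i j M = G (i j)`, `M q j = q j G`.
* `eig_W`: if `z` is an eigenvalue of `G` with eigenvector `w` then `ι w ≠ 0` (`π ι = 1`) is an eigenvector of `M`.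
* `eig_V`: if `y ≠ 0`, `M y = z y`, then `y = ∑ q j i j y`, so some `i j y ≠ 0`, an eigenvector of `G`.
* `iso_simple`: let `w ≠ 0`, `G w = z w`. `δ_b = ` the diagonal block projections commute with `G` (`P.inCb`, multiply by
  `π`, `ι`), so some block component `w0 = δ_b w ≠ 0` is an eigenvector. Let `N` be the `K`-span of all `c (ι w0)`, `c` in the commutant
  over `F` (in `K ⊗ V`, via `coK`); it is stable, contained in the generalized eigenspace, not `0`, so by `IsoTy` it is the
  generalized eigenspace. It is contained in `{c (ι w0) | c ∈ InCK}`. So for any `w'` with `G w' = z w'`: `ι w' = c ι w0`,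
  `w' = π c ι w0 = diagonal (..) w0 = t w0` (`P.comm`; `w0` is supported in one block). So all such `w'` are multiples of `w0`,
  and of `w`.
* `good_of_four`: roots of the characteristic polynomial of `G` in `K` are eigenvalues of `G`, also in
  `AlgebraicClosure K` (map). The eigenvalues of `M` and `G` are the same (`eig_W`, `eig_V`), so the relation part
  is `FourM` (via the injective `algebraMap K (AlgebraicClosure K)`). Irreducibility: the eigenvalue `z` of `G` is a simple root. Generalized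
  eigenvectors: if `(M - z)^k y = 0` then `(G - z)^k (i j y) = 0`, and since `z` is a simple root of the characteristic
  polynomial, `(G - z) (i j y) = 0` (separable charpoly: `G` is semisimple, the generalized eigenspace is the
  eigenspace and one-dimensional), for all `j`, so `(M - z) y = 0`. Let `N ≠ ⊥` be stable, `y ∈ N`, `y ≠ 0`, `i k y ≠ 0` for some `k`. Let
  `y'` be in the eigenspace: `i j y' = t j (i k y)` (one-dimensional), so `y' = ∑ q j i j y' = ∑ t j (q j i k) y`, and
  `q j i k` is in `InCK` (`P.qi`), a `K`-combination of elements of the commutant over `F` (`inCK_span`), which preserve `N`.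
-/

set_option autoImplicit false

namespace Pool.Agent.Lib.MP_640417_ag.Ty

open Matrix Module TensorProduct Pool.Agent.Lib.MP_640417_ag Pool.Agent.Lib.MP_640417_ag.Frob
  Pool.Agent.Lib.MP_640417_ag.Glob Pool.Agent.Lib.MP_640417_ag.Four

variable {F : Type} [NontriviallyNormedField F] [CharZero F] {I : Type} [Fintype I] [DecidableEq I]
  {Γ : Type} [Group Γ] [TopologicalSpace Γ] {V : Type} [AddCommGroup V] [Module F V]
  [FiniteDimensional F V] (ρ : H1Rep Γ F V) (b : Basis I F V) (R : MRep Γ F I)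
  (h1 : ∀ γ, R.M γ = LinearMap.toMatrix b b (ρ.T γ)) (h2 : R.μ = ρ.χ⁻¹)
  (P : Pack R (AlgebraicClosure F)) (hfull : Full0 R)

/-- the matrices over the algebraic closure -/
private noncomputable def cvM (γ : Γ) : Matrix I I (AlgebraicClosure F) :=
  (R.M γ).map (algebraMap F (AlgebraicClosure F))

private theorem cv_TW (γ : Γ) (w : Fin P.m ⊕ Fin P.m → AlgebraicClosure F) :
    TW P hfull γ w = (P.π * cvM R γ * P.ι) *ᵥ w := rfl

include hfull in
private theorem cv_M_iota (γ : Γ) : cvM R γ * P.ι = P.ι * (P.π * cvM R γ * P.ι) := by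
  have e : cvM R γ * (P.ι * P.π) = P.ι * P.π * cvM R γ := inCK_full R _ hfull P.inC γ
  calc cvM R γ * P.ι = cvM R γ * (P.ι * (P.π * P.ι)) := by rw [P.πι, Matrix.mul_one]
    _ = cvM R γ * (P.ι * P.π) * P.ι := by simp only [Matrix.mul_assoc]
    _ = P.ι * (P.π * cvM R γ * P.ι) := by rw [e]; simp only [Matrix.mul_assoc]

include hfull in
private theorem cv_i_M (γ : Γ) (j : Fin P.n) :
    P.i j * cvM R γ = P.π * cvM R γ * P.ι * P.i j := by
  have e : cvM R γ * (P.ι * P.i j) = P.ι * P.i j * cvM R γ := inCK_full R _ hfull (P.iC j) γ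
  calc P.i j * cvM R γ = P.π * P.ι * P.i j * cvM R γ := by rw [P.πι, Matrix.one_mul]
    _ = P.π * (P.ι * P.i j * cvM R γ) := by simp only [Matrix.mul_assoc]
    _ = P.π * cvM R γ * P.ι * P.i j := by rw [← e]; simp only [Matrix.mul_assoc]

omit [CharZero F] in
include h1 in
private theorem cv_eig_iff (γ : Γ) (z : AlgebraicClosure F) (y : AlgebraicClosure F ⊗[F] V) :
    (ρ.T γ).baseChange (AlgebraicClosure F) y = z • y ↔
      cvM R γ *ᵥ coK b y = z • coK b y := by
  rw [← (coK b).injective.eq_iff, coK_T ρ b R h1, map_smul]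
  rfl

include h1 in
theorem eig_W (γ : Γ) (z : AlgebraicClosure F) (w : Fin P.m ⊕ Fin P.m → AlgebraicClosure F)
    (hw : w ≠ 0) (h : TW P hfull γ w = z • w) :
    Module.End.HasEigenvalue ((ρ.T γ).baseChange (AlgebraicClosure F)) z := by
  refine Module.End.hasEigenvalue_of_hasEigenvector (x := (coK b).symm (P.ι *ᵥ w)) ?_
  rw [Module.End.hasEigenvector_iff, Module.End.mem_eigenspace_iff]
  constructor
  · rw [cv_eig_iff ρ b R h1, LinearEquiv.apply_symm_apply, Matrix.mulVec_mulVec,
      cv_M_iota R P hfull, ← Matrix.mulVec_mulVec, ← cv_TW R P hfull, h, Matrix.mulVec_smul]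
  · intro h0
    apply hw
    have e1 : P.ι *ᵥ w = 0 := by
      have := congrArg (coK b) h0
      rwa [LinearEquiv.apply_symm_apply, map_zero] at this
    have e2 := congrArg (fun x => P.π *ᵥ x) e1
    simpa only [Matrix.mulVec_mulVec, P.πι, Matrix.one_mulVec, Matrix.mulVec_zero] using e2

omit [CharZero F] in
private theorem cv_sum (x : I → AlgebraicClosure F) : ∑ j, P.q j *ᵥ (P.i j *ᵥ x) = x := by
  simp only [Matrix.mulVec_mulVec]
  rw [← Matrix.sum_mulVec, P.sum, Matrix.one_mulVec]

omit [CharZero F] in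
private theorem cv_exists (x : I → AlgebraicClosure F) (hx : x ≠ 0) : ∃ j, P.i j *ᵥ x ≠ 0 := by
  by_contra hn
  apply hx
  rw [← cv_sum R P x]
  refine Finset.sum_eq_zero fun j _ => ?_
  have : P.i j *ᵥ x = 0 := by
    by_contra h
    exact hn ⟨j, h⟩
  rw [this, Matrix.mulVec_zero]

include h1 in
theorem eig_V (γ : Γ) (z : AlgebraicClosure F)
    (h : Module.End.HasEigenvalue ((ρ.T γ).baseChange (AlgebraicClosure F)) z) :
    Module.End.HasEigenvalue (TW P hfull γ) z := by
  obtain ⟨y, hy⟩ := h.exists_hasEigenvector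
  have hy0 : y ≠ 0 := hy.2
  have hyz := hy.apply_eq_smul
  rw [cv_eig_iff ρ b R h1] at hyz
  have hx0 : coK b y ≠ 0 := by
    intro h0
    exact hy0 ((coK b).map_eq_zero_iff.1 h0)
  obtain ⟨j, hj⟩ := cv_exists R P _ hx0
  refine Module.End.hasEigenvalue_of_hasEigenvector (x := P.i j *ᵥ coK b y) ?_
  rw [Module.End.hasEigenvector_iff, Module.End.mem_eigenspace_iff]
  refine ⟨?_, hj⟩
  rw [cv_TW, Matrix.mulVec_mulVec, ← cv_i_M R P hfull, ← Matrix.mulVec_mulVec, hyz,
    Matrix.mulVec_smul]

omit [CharZero F] in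
include h1 in
private theorem cv_comm_map (c : Module.End F V) (hc : CommF ρ c) :
    InCK R (AlgebraicClosure F) ((LinearMap.toMatrix b b c).map
      (algebraMap F (AlgebraicClosure F))) :=
  inCK_map R _ ((commF_iff ρ b R h1 c).1 hc)

omit [CharZero F] in
private theorem cv_coK (c : Module.End F V) (y : AlgebraicClosure F ⊗[F] V) :
    coK b (c.baseChange (AlgebraicClosure F) y) =
      ((LinearMap.toMatrix b b c).map (algebraMap F (AlgebraicClosure F))) *ᵥ coK b y := by
  rw [coK_end, maK_base]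

omit [CharZero F] in
include h1 in
private theorem cv_commF_mul (c c' : Module.End F V) (hc : CommF ρ c) (hc' : CommF ρ c') :
    CommF ρ (c * c') := by
  rw [commF_iff ρ b R h1] at hc hc' ⊢
  rw [LinearMap.toMatrix_mul]
  obtain ⟨U, hU⟩ := hc
  obtain ⟨U', hU'⟩ := hc'
  refine ⟨U ⊓ U', fun γ hγ => ?_⟩
  have e1 := hU γ hγ.1
  have e2 := hU' γ hγ.2
  rw [← Matrix.mul_assoc, e1, Matrix.mul_assoc, e2, Matrix.mul_assoc]

include h1 in
theorem iso_simple (γ : Γ) (z : AlgebraicClosure F) (hz : IsoTy ρ γ z)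
    (w w' : Fin P.m ⊕ Fin P.m → AlgebraicClosure F) (hw : w ≠ 0) (h : TW P hfull γ w = z • w)
    (h' : TW P hfull γ w' = z • w') : ∃ t : AlgebraicClosure F, w' = t • w := by
  classical
  obtain ⟨δ, hδ⟩ : ∃ δ : Fin P.n → Matrix (Fin P.m ⊕ Fin P.m) (Fin P.m ⊕ Fin P.m)
      (AlgebraicClosure F), δ = fun k => Matrix.diagonal
        (fun a => if blk P.bl a = k then (1 : AlgebraicClosure F) else 0) := ⟨_, rfl⟩
  have hδk : ∀ k, δ k = Matrix.diagonal
      (fun a => if blk P.bl a = k then (1 : AlgebraicClosure F) else 0) := fun k => by rw [hδ]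
  -- the block projections commute with `G`
  have hδG : ∀ k, P.π * cvM R γ * P.ι * δ k = δ k * (P.π * cvM R γ * P.ι) := by
    intro k
    have e : cvM R γ * (P.ι * δ k * P.π) = P.ι * δ k * P.π * cvM R γ := by
      rw [hδk]
      exact inCK_full R _ hfull (P.inCb k) γ
    calc P.π * cvM R γ * P.ι * δ k = P.π * cvM R γ * P.ι * δ k * (P.π * P.ι) := by
          rw [P.πι, Matrix.mul_one]
      _ = P.π * (cvM R γ * (P.ι * δ k * P.π)) * P.ι := by simp only [Matrix.mul_assoc]
      _ = (P.π * P.ι) * δ k * (P.π * cvM R γ * P.ι) := by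
          rw [e]
          simp only [Matrix.mul_assoc]
      _ = δ k * (P.π * cvM R γ * P.ι) := by rw [P.πι, Matrix.one_mul]
  have hsum : ∑ k, δ k = 1 := by
    ext a a'
    rw [Matrix.sum_apply, Matrix.one_apply]
    by_cases haa : a = a'
    · subst haa
      simp only [hδk, Matrix.diagonal_apply_eq]
      rw [Finset.sum_ite_eq, if_pos (Finset.mem_univ _), if_pos trivial]
    · rw [if_neg haa]
      refine Finset.sum_eq_zero fun k _ => ?_
      rw [hδk]
      exact Matrix.diagonal_apply_ne _ haa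
  obtain ⟨k, hk⟩ : ∃ k, δ k *ᵥ w ≠ 0 := by
    by_contra hn
    apply hw
    have e : w = ∑ k, δ k *ᵥ w := by
      rw [← Matrix.sum_mulVec, hsum, Matrix.one_mulVec]
    rw [e]
    refine Finset.sum_eq_zero fun k _ => ?_
    by_contra hk
    exact hn ⟨k, hk⟩
  obtain ⟨w0, hw0⟩ : ∃ w0, w0 = δ k *ᵥ w := ⟨_, rfl⟩
  have hw0ne : w0 ≠ 0 := by rw [hw0]; exact hk
  have hw0eig : (P.π * cvM R γ * P.ι) *ᵥ w0 = z • w0 := by
    rw [cv_TW] at h
    rw [hw0, Matrix.mulVec_mulVec, hδG, ← Matrix.mulVec_mulVec, h, Matrix.mulVec_smul]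
  have hMx : ∀ u : Fin P.m ⊕ Fin P.m → AlgebraicClosure F,
      (P.π * cvM R γ * P.ι) *ᵥ u = z • u → cvM R γ *ᵥ (P.ι *ᵥ u) = z • (P.ι *ᵥ u) := by
    intro u hu
    rw [Matrix.mulVec_mulVec, cv_M_iota R P hfull, ← Matrix.mulVec_mulVec, hu, Matrix.mulVec_smul]
  obtain ⟨y0, hy0⟩ : ∃ y0, y0 = (coK b).symm (P.ι *ᵥ w0) := ⟨_, rfl⟩
  have hcy0 : coK b y0 = P.ι *ᵥ w0 := by rw [hy0, LinearEquiv.apply_symm_apply]
  have hiota : ∀ u : Fin P.m ⊕ Fin P.m → AlgebraicClosure F, P.π *ᵥ (P.ι *ᵥ u) = u := by
    intro u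
    rw [Matrix.mulVec_mulVec, P.πι, Matrix.one_mulVec]
  have hy0ne : y0 ≠ 0 := by
    intro h0
    rw [h0, map_zero] at hcy0
    apply hw0ne
    rw [← hiota w0, ← hcy0, Matrix.mulVec_zero]
  obtain ⟨N, hN⟩ : ∃ N : Submodule (AlgebraicClosure F) (AlgebraicClosure F ⊗[F] V),
      N = Submodule.span (AlgebraicClosure F)
        {y | ∃ c, CommF ρ c ∧ y = c.baseChange (AlgebraicClosure F) y0} := ⟨_, rfl⟩
  have hgen : ∀ u : Fin P.m ⊕ Fin P.m → AlgebraicClosure F,
      (P.π * cvM R γ * P.ι) *ᵥ u = z • u → (coK b).symm (P.ι *ᵥ u) ∈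
        Module.End.maxGenEigenspace ((ρ.T γ).baseChange (AlgebraicClosure F)) z := by
    intro u hu
    refine Module.End.genEigenspace_le_maximal _ z 1 ?_
    show _ ∈ Module.End.eigenspace _ z
    rw [Module.End.mem_eigenspace_iff, cv_eig_iff ρ b R h1, LinearEquiv.apply_symm_apply]
    exact hMx u hu
  have hNle : N ≤ Module.End.maxGenEigenspace ((ρ.T γ).baseChange (AlgebraicClosure F)) z := by
    rw [hN, Submodule.span_le]
    rintro y ⟨c, hc, rfl⟩
    refine Module.End.genEigenspace_le_maximal _ z 1 ?_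
    show _ ∈ Module.End.eigenspace _ z
    rw [Module.End.mem_eigenspace_iff, cv_eig_iff ρ b R h1, cv_coK, hcy0, Matrix.mulVec_mulVec]
    have e : cvM R γ * (LinearMap.toMatrix b b c).map (algebraMap F (AlgebraicClosure F)) =
        (LinearMap.toMatrix b b c).map (algebraMap F (AlgebraicClosure F)) * cvM R γ :=
      inCK_full R _ hfull (cv_comm_map ρ b R h1 c hc) γ
    rw [e, ← Matrix.mulVec_mulVec, hMx w0 hw0eig, Matrix.mulVec_smul]
  have hNst : ∀ c, CommF ρ c → ∀ y ∈ N, c.baseChange (AlgebraicClosure F) y ∈ N := by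
    intro c hc y hy
    rw [hN] at hy ⊢
    induction hy using Submodule.span_induction with
    | mem y hy =>
      obtain ⟨c', hc', rfl⟩ := hy
      refine Submodule.subset_span ⟨c * c', cv_commF_mul ρ b R h1 c c' hc hc', ?_⟩
      rw [Module.End.mul_eq_comp, LinearMap.baseChange_comp]
      rfl
    | zero => rw [map_zero]; exact Submodule.zero_mem _
    | add y y' _ _ ihy ihy' => rw [map_add]; exact Submodule.add_mem _ ihy ihy'
    | smul a y _ ihy => rw [map_smul]; exact Submodule.smul_mem _ a ihy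
  have hNne : N ≠ ⊥ := by
    intro hbot
    apply hy0ne
    have hm : y0 ∈ N := by
      rw [hN]
      refine Submodule.subset_span ⟨1, ?_, ?_⟩
      · exact ⟨⊤, fun γ _ => by rw [one_mul, mul_one]⟩
      · rw [Module.End.one_eq_id, LinearMap.baseChange_id]
        rfl
    rw [hbot, Submodule.mem_bot] at hm
    exact hm
  have hNtop : N = Module.End.maxGenEigenspace ((ρ.T γ).baseChange (AlgebraicClosure F)) z := by
    rcases hz.1 N hNle hNst with h0 | h0
    · exact absurd h0 hNne
    · exact h0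
  have hNform : ∀ y ∈ N, ∃ c, InCK R (AlgebraicClosure F) c ∧ coK b y = c *ᵥ (P.ι *ᵥ w0) := by
    intro y hy
    rw [hN] at hy
    induction hy using Submodule.span_induction with
    | mem y hy =>
      obtain ⟨c, hc, rfl⟩ := hy
      exact ⟨_, cv_comm_map ρ b R h1 c hc, by rw [cv_coK, hcy0]⟩
    | zero =>
      refine ⟨0, (cK R (AlgebraicClosure F)).zero_mem, ?_⟩
      rw [map_zero, Matrix.zero_mulVec]
    | add y y' _ _ ihy ihy' =>
      obtain ⟨c, hc, ec⟩ := ihy
      obtain ⟨c', hc', ec'⟩ := ihy'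
      refine ⟨c + c', (cK R (AlgebraicClosure F)).add_mem hc hc', ?_⟩
      rw [map_add, ec, ec', Matrix.add_mulVec]
    | smul a y _ ihy =>
      obtain ⟨c, hc, ec⟩ := ihy
      refine ⟨a • c, (cK R (AlgebraicClosure F)).smul_mem hc a, ?_⟩
      rw [map_smul, ec, Matrix.smul_mulVec]
  -- every eigenvector is a multiple of `w0`
  have hmul : ∀ u : Fin P.m ⊕ Fin P.m → AlgebraicClosure F,
      (P.π * cvM R γ * P.ι) *ᵥ u = z • u → ∃ t : AlgebraicClosure F, u = t • w0 := by
    intro u hu
    have hm := hgen u hu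
    rw [← hNtop] at hm
    obtain ⟨c, hc, ec⟩ := hNform _ hm
    rw [LinearEquiv.apply_symm_apply] at ec
    obtain ⟨v, hv⟩ := P.comm c hc
    refine ⟨v k, ?_⟩
    have e1 : u = (P.π * c * P.ι) *ᵥ w0 := by
      rw [← hiota u, ec]
      simp only [Matrix.mulVec_mulVec, Matrix.mul_assoc]
    rw [e1, hv, hw0, Matrix.mulVec_mulVec, hδk, Matrix.diagonal_mul_diagonal]
    funext a
    rw [Matrix.mulVec_diagonal, Pi.smul_apply, Matrix.mulVec_diagonal, smul_eq_mul]
    by_cases ha : blk P.bl a = k
    · rw [if_pos ha, ha]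
      ring
    · rw [if_neg ha]
      ring
  obtain ⟨s, hs⟩ := hmul w (by rw [← cv_TW R P hfull]; exact h)
  obtain ⟨t, ht⟩ := hmul w' (by rw [← cv_TW R P hfull]; exact h')
  have hs0 : s ≠ 0 := by
    rintro rfl
    rw [zero_smul] at hs
    exact hw hs
  refine ⟨t * s⁻¹, ?_⟩
  rw [ht, hs, smul_smul, mul_assoc, inv_mul_cancel₀ hs0, mul_one]

omit [CharZero F] in
include h1 hfull in
private theorem cv_good_comm (c : Module.End F V) (hc : CommF ρ c) (γ : Γ) :
    c * ρ.T γ = ρ.T γ * c := by
  apply (LinearMap.toMatrix b b).injective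
  rw [LinearMap.toMatrix_mul, LinearMap.toMatrix_mul, ← h1]
  exact (hfull _ ((commF_iff ρ b R h1 c).1 hc) γ).symm

include h1 h2 hfull in
theorem good_of_four (γ : Γ)
    (h : FourM (P.π * (R.M γ).map (algebraMap F (AlgebraicClosure F)) * P.ι)
      (algebraMap F (AlgebraicClosure F) (R.μ γ : F))) : GoodTy ρ γ := by
  classical
  refine ⟨fun c hc => cv_good_comm ρ b R h1 hfull c hc γ, ?_⟩
  intro z hz
  obtain ⟨G, hG⟩ : ∃ G, G = P.π * cvM R γ * P.ι := ⟨_, rfl⟩
  have hTW : TW P hfull γ = Matrix.toLin' G := by rw [hG]; rfl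
  have hsep : G.charpoly.Separable := by rw [hG]; exact h.1
  have hroot : ∀ z' : AlgebraicClosure F,
      Module.End.HasEigenvalue ((ρ.T γ).baseChange (AlgebraicClosure F)) z' →
      Polynomial.aeval (algebraMap (AlgebraicClosure F) (AlgebraicClosure (AlgebraicClosure F)) z')
        (P.π * (R.M γ).map (algebraMap F (AlgebraicClosure F)) * P.ι).charpoly = 0 := by
    intro z' hz'
    have e1 := eig_V ρ b R h1 P hfull γ z' hz'
    rw [Module.End.hasEigenvalue_iff_isRoot_charpoly] at e1
    have e2 : (TW P hfull γ).charpoly =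
        (P.π * (R.M γ).map (algebraMap F (AlgebraicClosure F)) * P.ι).charpoly := by
      rw [hTW, Matrix.charpoly_toLin', hG]
      rfl
    rw [e2, Polynomial.IsRoot.def] at e1
    rw [Polynomial.aeval_algebraMap_apply, Polynomial.coe_aeval_eq_eval, e1, map_zero]
  have hinj : Function.Injective
      (algebraMap (AlgebraicClosure F) (AlgebraicClosure (AlgebraicClosure F))) :=
    (algebraMap (AlgebraicClosure F) (AlgebraicClosure (AlgebraicClosure F))).injective
  have hμ : ((ρ.χ γ)⁻¹ : Fˣ).val = (R.μ γ : F) := by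
    rw [h2]
    rfl
  refine ⟨?_, ?_⟩
  · intro N hNle hNst
    by_cases hbot : N = ⊥
    · exact Or.inl hbot
    refine Or.inr (le_antisymm hNle ?_)
    obtain ⟨y, hyN, hy0⟩ := Submodule.exists_mem_ne_zero_of_ne_bot hbot
    -- semisimplicity of `G`
    have hss : Module.End.IsSemisimple (Matrix.toLin' G) := by
      refine Module.End.isSemisimple_of_squarefree_aeval_eq_zero (p := G.charpoly)
        hsep.squarefree ?_
      rw [← Matrix.charpoly_toLin']
      exact LinearMap.aeval_self_charpoly _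
    have hfs : Module.End.IsFinitelySemisimple (Matrix.toLin' G) := hss.isFinitelySemisimple
    -- the maps `i j` on generalized eigenvectors
    have hi : ∀ y' ∈ Module.End.maxGenEigenspace ((ρ.T γ).baseChange (AlgebraicClosure F)) z,
        ∀ j, G *ᵥ (P.i j *ᵥ coK b y') = z • (P.i j *ᵥ coK b y') := by
      intro y' hy' j
      rw [Module.End.mem_maxGenEigenspace] at hy'
      obtain ⟨k, hk⟩ := hy'
      have e1 : ∀ (k : ℕ) (y' : AlgebraicClosure F ⊗[F] V),
          P.i j *ᵥ coK b (((((ρ.T γ).baseChange (AlgebraicClosure F)) - z • 1 :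
              Module.End (AlgebraicClosure F) (AlgebraicClosure F ⊗[F] V)) ^ k) y') =
            ((Matrix.toLin' G - z • 1 : Module.End (AlgebraicClosure F) _) ^ k)
              (P.i j *ᵥ coK b y') := by
        intro k
        induction k with
        | zero => intro y'; rfl
        | succ k ih =>
          intro y'
          rw [pow_succ, pow_succ, Module.End.mul_apply, Module.End.mul_apply, ih]
          congr 1
          rw [LinearMap.sub_apply, LinearMap.sub_apply, map_sub, coK_T ρ b R h1,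
            Matrix.mulVec_sub]
          have a1 : P.i j *ᵥ ((R.M γ).map (algebraMap F (AlgebraicClosure F)) *ᵥ coK b y') =
              G *ᵥ (P.i j *ᵥ coK b y') := by
            rw [Matrix.mulVec_mulVec, Matrix.mulVec_mulVec, hG]
            congr 1
            exact cv_i_M R P hfull γ j
          rw [a1, LinearMap.smul_apply, LinearMap.smul_apply, Module.End.one_apply,
            Module.End.one_apply, map_smul, Matrix.mulVec_smul, Matrix.toLin'_apply]
      have e2 : P.i j *ᵥ coK b y' ∈ Module.End.maxGenEigenspace (Matrix.toLin' G) z := by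
        rw [Module.End.mem_maxGenEigenspace]
        refine ⟨k, ?_⟩
        rw [← e1, hk, map_zero, Matrix.mulVec_zero]
      rw [hfs.maxGenEigenspace_eq_eigenspace, Module.End.mem_eigenspace_iff] at e2
      exact e2
    have hx0 : coK b y ≠ 0 := fun h0 => hy0 ((coK b).map_eq_zero_iff.1 h0)
    obtain ⟨k, hk⟩ := cv_exists R P _ hx0
    -- the eigenspace of `G` is one-dimensional
    have hone : ∀ u : Fin P.m ⊕ Fin P.m → AlgebraicClosure F, G *ᵥ u = z • u →
        ∃ t : AlgebraicClosure F, u = t • (P.i k *ᵥ coK b y) := by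
      intro u hu
      have hf : Module.finrank (AlgebraicClosure F)
          (Module.End.eigenspace (Matrix.toLin' G) z) ≤ 1 := by
        refine (LinearMap.finrank_eigenspace_le (Matrix.toLin' G) z).trans ?_
        rw [Matrix.charpoly_toLin']
        exact Polynomial.rootMultiplicity_le_one_of_separable hsep z
      rw [finrank_le_one_iff] at hf
      obtain ⟨v, hv⟩ := hf
      obtain ⟨s, hs⟩ := hv ⟨P.i k *ᵥ coK b y, by
        rw [Module.End.mem_eigenspace_iff]
        exact hi y (hNle hyN) k⟩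
      obtain ⟨t, ht⟩ := hv ⟨u, by
        rw [Module.End.mem_eigenspace_iff]
        exact hu⟩
      have hs' : s • (v : Fin P.m ⊕ Fin P.m → AlgebraicClosure F) = P.i k *ᵥ coK b y :=
        congrArg Subtype.val hs
      have ht' : t • (v : Fin P.m ⊕ Fin P.m → AlgebraicClosure F) = u := congrArg Subtype.val ht
      have hs0 : s ≠ 0 := by
        rintro rfl
        rw [zero_smul] at hs'
        exact hk hs'.symm
      refine ⟨t * s⁻¹, ?_⟩
      rw [← hs', ← ht', smul_smul, mul_assoc, inv_mul_cancel₀ hs0, mul_one]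
    -- stability under the commutant over `K`
    have hst : ∀ D : Matrix I I (AlgebraicClosure F), InCK R (AlgebraicClosure F) D →
        (coK b).symm (D *ᵥ coK b y) ∈ N := by
      intro D hD
      have hD' := inCK_span R (AlgebraicClosure F) hD
      clear hD
      induction hD' using Submodule.span_induction with
      | mem D hD =>
        obtain ⟨B, hB, rfl⟩ := hD
        obtain ⟨c, hc⟩ : ∃ c : Module.End F V, LinearMap.toMatrix b b c = B :=
          ⟨Matrix.toLin b b B, LinearMap.toMatrix_toLin b b B⟩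
        have e1 : (coK b).symm (B.map (algebraMap F (AlgebraicClosure F)) *ᵥ coK b y) =
            c.baseChange (AlgebraicClosure F) y := by
          rw [LinearEquiv.symm_apply_eq, cv_coK, hc]
        rw [e1]
        refine hNst c ?_ y hyN
        rw [commF_iff ρ b R h1, hc]
        exact hB
      | zero => rw [Matrix.zero_mulVec, map_zero]; exact Submodule.zero_mem _
      | add D D' _ _ ihD ihD' =>
        rw [Matrix.add_mulVec, map_add]
        exact Submodule.add_mem _ ihD ihD'
      | smul a D _ ihD =>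
        rw [Matrix.smul_mulVec, map_smul]
        exact Submodule.smul_mem _ a ihD
    intro y' hy'
    choose t ht using fun j => hone _ (hi y' hy' j)
    have e1 : coK b y' = (∑ j, t j • (P.q j * P.i k)) *ᵥ coK b y := by
      rw [← cv_sum R P (coK b y'), Matrix.sum_mulVec]
      refine Finset.sum_congr rfl fun j _ => ?_
      rw [ht j, Matrix.mulVec_smul, Matrix.mulVec_mulVec, Matrix.smul_mulVec]
    have e2 : y' = (coK b).symm ((∑ j, t j • (P.q j * P.i k)) *ᵥ coK b y) := by
      rw [← e1, LinearEquiv.symm_apply_apply]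
    rw [e2]
    apply hst
    rw [← mem_cK]
    exact sum_mem fun j _ => (cK R (AlgebraicClosure F)).smul_mem (P.qi j k) (t j)
  · intro z₂ z₃ z₄ hz₂ hz₃ hz₄ N hN hrel
    have e1 := h.2 (algebraMap _ _ z) (algebraMap _ _ z₂) (algebraMap _ _ z₃) (algebraMap _ _ z₄)
      (hroot z hz) (hroot z₂ hz₂) (hroot z₃ hz₃) (hroot z₄ hz₄) N hN (by
        rw [hμ] at hrel
        rw [← map_mul, ← map_mul, ← map_mul, ← map_pow, ← map_pow, hrel])
    rw [← map_mul, ← map_mul, ← map_mul, hinj.eq_iff, hinj.eq_iff, hinj.eq_iff] at e1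
    rw [hμ]
    exact e1

end Pool.Agent.Lib.MP_640417_ag.Ty
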