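import Pool.Agent.Lib.MP_640417_ag.Ty.MainW
import Pool.Agent.Lib.MP_640417_ag.Ty.CoordK

/-!
# MP_640417_ag, Ty, module Transfer (200 lines): from W to V

`K = AlgebraicClosure F`. Let `x` be a Tate class on `V^n` over `F`; `mem_of_be` (Frob or Four/Main.lean, used in
`Four/General.lean`) reduces the claim to: the base change `y` of `x` on `(K ⊗ V)^n` (a Tate class by `tate_be`) is in the
divisor algebra. Let `N = n * P.n`, with the bijection `finProdFinEquiv : Fin n × Fin P.n ≃ Fin N`. The `K`-linear maps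
`g : (Fin n → K ⊗ V) → (Fin N → W)`, `(g v) (a, j) = i j *ᵥ coK b (v a)`, and `g' : (Fin N → W) → (Fin n → K ⊗ V)`,
`coK b (g' w a) = ∑ j, q j *ᵥ w (a, j)` satisfy `g' ∘ g = id` (`P.sum`) and are equivariant: `i j M = (π M ι) i j` because
`ι i j` commutes with `M` (`P.iC`, `inCK_full`) and `π ι = 1`; `M q j = q j (π M ι)` because `q j π` commutes with `M`.
`map g y` is a Tate class on `W^N`, so in its divisor algebra by `hW`, so `y = map g' (map g y)` is in the divisor algebra of
`(K ⊗ V)^n` (functoriality of Tate classes and divisor algebras: the private lemmas `mainA_mem`, `mainA_tate`,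
`mainA_div` of `Four/Transport.lean`, to be copied).
-/

set_option autoImplicit false

namespace Pool.Agent.Lib.MP_640417_ag.Ty

open Matrix Module TensorProduct Pool.Agent.Lib.MP_640417_ag Pool.Agent.Lib.MP_640417_ag.Frob
  Pool.Agent.Lib.MP_640417_ag.Glob Pool.Agent.Lib.MP_640417_ag.Four

section functoriality

variable {Γ : Type} [Group Γ] [TopologicalSpace Γ] {F : Type} [Field F]

private theorem transfer_mem {V W : Type} [AddCommGroup V] [Module F V] [AddCommGroup W]
    [Module F W] (g : V →ₗ[F] W) (m : ℕ) (x : ExteriorAlgebra F V) (hx : x ∈ ⋀[F]^m V) :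
    ExteriorAlgebra.map g x ∈ ⋀[F]^m W := by
  have h : Submodule.map (ExteriorAlgebra.map g).toLinearMap (⋀[F]^m V) ≤ ⋀[F]^m W := by
    rw [Submodule.map_pow]
    have h1 : Submodule.map (ExteriorAlgebra.map g).toLinearMap (LinearMap.range
        (ExteriorAlgebra.ι F : V →ₗ[F] ExteriorAlgebra F V)) ≤ LinearMap.range
        (ExteriorAlgebra.ι F : W →ₗ[F] ExteriorAlgebra F W) := by
      rintro _ ⟨_, ⟨v, rfl⟩, rfl⟩
      refine ⟨g v, ?_⟩
      simp
    exact pow_le_pow_left' h1 m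
  exact h ⟨x, hx, rfl⟩

private theorem transfer_tate {V W : Type} [AddCommGroup V] [Module F V] [AddCommGroup W]
    [Module F W] (T : Γ → V →ₗ[F] V) (S : Γ → W →ₗ[F] W) (χ : Γ →* Fˣ) (g : V →ₗ[F] W)
    (hg : ∀ γ, g ∘ₗ T γ = S γ ∘ₗ g) (i : ℕ) (x : ExteriorAlgebra F V) (hx : TateClass T χ i x) :
    TateClass S χ i (ExteriorAlgebra.map g x) := by
  obtain ⟨h1, U, hU⟩ := hx
  refine ⟨transfer_mem g _ x h1, U, fun γ hγ => ?_⟩
  have h2 := congrArg (ExteriorAlgebra.map g) (hU γ hγ)
  have h3 : ExteriorAlgebra.map (S γ) (ExteriorAlgebra.map g x) =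
      ExteriorAlgebra.map g (ExteriorAlgebra.map (T γ) x) := by
    have e1 : (ExteriorAlgebra.map (S γ)).comp (ExteriorAlgebra.map g) =
        (ExteriorAlgebra.map g).comp (ExteriorAlgebra.map (T γ)) := by
      rw [ExteriorAlgebra.map_comp_map, ExteriorAlgebra.map_comp_map, hg]
    exact congrArg (fun a => a x) e1
  rw [h3, ← map_smul]
  exact h2

private theorem transfer_div {V W : Type} [AddCommGroup V] [Module F V] [AddCommGroup W]
    [Module F W] (T : Γ → V →ₗ[F] V) (S : Γ → W →ₗ[F] W) (χ : Γ →* Fˣ) (g : V →ₗ[F] W)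
    (hg : ∀ γ, g ∘ₗ T γ = S γ ∘ₗ g) (x : ExteriorAlgebra F V) (hx : x ∈ divisorAlg T χ) :
    ExteriorAlgebra.map g x ∈ divisorAlg S χ := by
  have h : (divisorAlg T χ).map (ExteriorAlgebra.map g) ≤ divisorAlg S χ := by
    unfold divisorAlg
    rw [AlgHom.map_adjoin]
    refine Algebra.adjoin_mono ?_
    rintro _ ⟨y, hy, rfl⟩
    exact transfer_tate T S χ g hg 1 y hy
  exact h ⟨x, hx, rfl⟩

end functoriality

variable {F : Type} [NontriviallyNormedField F] [CharZero F] {I : Type} [Fintype I] [DecidableEq I]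
  {Γ : Type} [Group Γ] [TopologicalSpace Γ] {V : Type} [AddCommGroup V] [Module F V]
  [FiniteDimensional F V]

theorem transfer (ρ : H1Rep Γ F V) (b : Basis I F V) (R : MRep Γ F I)
    (h1 : ∀ γ, R.M γ = LinearMap.toMatrix b b (ρ.T γ)) (h2 : R.μ = ρ.χ⁻¹)
    (P : Pack R (AlgebraicClosure F)) (hfull : Full0 R)
    (hW : ∀ (n i : ℕ) (x : ExteriorAlgebra (AlgebraicClosure F)
      (Fin n → (Fin P.m ⊕ Fin P.m → AlgebraicClosure F))),
      TateClass (fun γ => (TW P hfull γ).compLeft (Fin n)) (chiK R (AlgebraicClosure F)) i x →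
      x ∈ divisorAlg (fun γ => (TW P hfull γ).compLeft (Fin n)) (chiK R (AlgebraicClosure F))) :
    NoExotic ρ := by
  classical
  intro n i x hex
  obtain ⟨hx, hnot⟩ := hex
  apply hnot
  have hchi : chiK R (AlgebraicClosure F) =
      (Units.map (algebraMap F (AlgebraicClosure F) : F →* AlgebraicClosure F)).comp ρ.χ := by
    unfold chiK
    rw [h2]
    congr 1
  apply mem_of_be (F' := AlgebraicClosure F) (fun γ => ρ.T γ) ρ.χ n x
  have hy := tate_be (F' := AlgebraicClosure F) (fun γ => ρ.T γ) ρ.χ n i hx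
  rw [← hchi] at hy ⊢
  generalize be (AlgebraicClosure F) n x = y at hy ⊢
  let g : (Fin n → AlgebraicClosure F ⊗[F] V) →ₗ[AlgebraicClosure F]
      (Fin (n * P.n) → (Fin P.m ⊕ Fin P.m → AlgebraicClosure F)) :=
    LinearMap.pi fun p => (Matrix.toLin' (P.i (finProdFinEquiv.symm p).2)) ∘ₗ
      (coK b).toLinearMap ∘ₗ (LinearMap.proj (finProdFinEquiv.symm p).1)
  let g' : (Fin (n * P.n) → (Fin P.m ⊕ Fin P.m → AlgebraicClosure F)) →ₗ[AlgebraicClosure F]
      (Fin n → AlgebraicClosure F ⊗[F] V) :=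
    LinearMap.pi fun a => (coK b).symm.toLinearMap ∘ₗ
      (∑ j, (Matrix.toLin' (P.q j)) ∘ₗ (LinearMap.proj (finProdFinEquiv (a, j))))
  have hg : ∀ v p, g v p = P.i (finProdFinEquiv.symm p).2 *ᵥ
      coK b (v (finProdFinEquiv.symm p).1) := fun v p => rfl
  have hg' : ∀ w a, g' w a = (coK b).symm (∑ j, P.q j *ᵥ w (finProdFinEquiv (a, j))) := by
    intro w a
    show (coK b).symm ((∑ j, (Matrix.toLin' (P.q j)) ∘ₗ
      (LinearMap.proj (finProdFinEquiv (a, j)))) w) = _
    rw [LinearMap.sum_apply]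
    rfl
  have hgg : g' ∘ₗ g = LinearMap.id := by
    refine LinearMap.ext fun v => funext fun a => ?_
    rw [LinearMap.comp_apply, hg']
    have e1 : ∀ j, P.q j *ᵥ g v (finProdFinEquiv (a, j)) = (P.q j * P.i j) *ᵥ coK b (v a) := by
      intro j
      rw [hg, Equiv.symm_apply_apply, Matrix.mulVec_mulVec]
    rw [Finset.sum_congr rfl fun j _ => e1 j, ← Matrix.sum_mulVec, P.sum, Matrix.one_mulVec,
      LinearEquiv.symm_apply_apply]
    rfl
  have hi : ∀ γ j, P.i j * (R.M γ).map (algebraMap F (AlgebraicClosure F)) =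
      P.π * (R.M γ).map (algebraMap F (AlgebraicClosure F)) * P.ι * P.i j := by
    intro γ j
    have e1 := inCK_full R (AlgebraicClosure F) hfull (P.iC j) γ
    rw [Matrix.mul_assoc, Matrix.mul_assoc, e1, ← Matrix.mul_assoc, ← Matrix.mul_assoc, P.πι,
      Matrix.one_mul]
  have hq : ∀ γ j, P.q j * (P.π * (R.M γ).map (algebraMap F (AlgebraicClosure F)) * P.ι) =
      (R.M γ).map (algebraMap F (AlgebraicClosure F)) * P.q j := by
    intro γ j
    have e1 := inCK_full R (AlgebraicClosure F) hfull (P.qC j) γ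
    rw [← Matrix.mul_assoc, ← Matrix.mul_assoc, ← e1, Matrix.mul_assoc, Matrix.mul_assoc, P.πι,
      Matrix.mul_one]
  have heq : ∀ γ, g ∘ₗ ((ρ.T γ).baseChange (AlgebraicClosure F)).compLeft (Fin n) =
      (TW P hfull γ).compLeft (Fin (n * P.n)) ∘ₗ g := by
    intro γ
    refine LinearMap.ext fun v => funext fun p => ?_
    have e1 : ((TW P hfull γ).compLeft (Fin (n * P.n)) ∘ₗ g) v p =
        (P.π * (R.M γ).map (algebraMap F (AlgebraicClosure F)) * P.ι) *ᵥ g v p := rfl
    have e2 : (g ∘ₗ ((ρ.T γ).baseChange (AlgebraicClosure F)).compLeft (Fin n)) v p =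
        P.i (finProdFinEquiv.symm p).2 *ᵥ coK b ((ρ.T γ).baseChange (AlgebraicClosure F)
          (v (finProdFinEquiv.symm p).1)) := rfl
    rw [e1, e2, hg, coK_T ρ b R h1, Matrix.mulVec_mulVec, Matrix.mulVec_mulVec, hi]
  have heq' : ∀ γ, g' ∘ₗ (TW P hfull γ).compLeft (Fin (n * P.n)) =
      ((ρ.T γ).baseChange (AlgebraicClosure F)).compLeft (Fin n) ∘ₗ g' := by
    intro γ
    refine LinearMap.ext fun w => funext fun a => ?_
    apply (coK b).injective
    have e1 : (((ρ.T γ).baseChange (AlgebraicClosure F)).compLeft (Fin n) ∘ₗ g') w a =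
        (ρ.T γ).baseChange (AlgebraicClosure F) (g' w a) := rfl
    rw [e1, coK_T ρ b R h1, LinearMap.comp_apply, hg', hg', LinearEquiv.apply_symm_apply,
      LinearEquiv.apply_symm_apply, Matrix.mulVec_sum]
    refine Finset.sum_congr rfl fun j _ => ?_
    have e2 : (TW P hfull γ).compLeft (Fin (n * P.n)) w (finProdFinEquiv (a, j)) =
        (P.π * (R.M γ).map (algebraMap F (AlgebraicClosure F)) * P.ι) *ᵥ
          w (finProdFinEquiv (a, j)) := rfl
    rw [e2, Matrix.mulVec_mulVec, Matrix.mulVec_mulVec, hq]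
  have hz := transfer_tate (fun γ => ((ρ.T γ).baseChange (AlgebraicClosure F)).compLeft (Fin n))
    (fun γ => (TW P hfull γ).compLeft (Fin (n * P.n))) (chiK R (AlgebraicClosure F)) g heq i y hy
  have hz2 := transfer_div (fun γ => (TW P hfull γ).compLeft (Fin (n * P.n)))
    (fun γ => ((ρ.T γ).baseChange (AlgebraicClosure F)).compLeft (Fin n))
    (chiK R (AlgebraicClosure F)) g' heq' _ (hW _ i _ hz)
  have h3 : ExteriorAlgebra.map g' (ExteriorAlgebra.map g y) = y := by
    have e1 : (ExteriorAlgebra.map g').comp (ExteriorAlgebra.map g) =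
        AlgHom.id (AlgebraicClosure F) _ := by
      rw [ExteriorAlgebra.map_comp_map, hgg, ExteriorAlgebra.map_id]
    exact congrArg (fun a => a y) e1
  rwa [h3] at hz2

end Pool.Agent.Lib.MP_640417_ag.Ty
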