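import Pool.Agent.Lib.MP_640417_ag.Ty.Conv
import Pool.Agent.Lib.MP_640417_ag.Ty.Transfer
import Pool.Agent.Lib.MP_640417_ag.Ty.PackK

/-!
# MP_640417_ag, Ty, module Detect (220 lines): isolated eigenvalues which detect the commutant

* `detects_of_good`: let `z` be an eigenvalue of `TK = (T γ).baseChange K`. The eigenspace is stable under the commutant (which commutes with
  `T γ`), not zero and contained in the generalized eigenspace, so they are equal by `IsoTy`. So the sum of the
  eigenspaces is everything (`Module.End.iSup_maxGenEigenspace_eq_top`), and an element of `CommK` which vanishes on all of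
  them is zero. `T γ` is semisimple: write `T γ = n + s` (`Module.End.exists_isNilpotent_isSemisimple`, `n` a polynomial in
  `T γ`); `n` is nilpotent and commutes, its base change is a polynomial in the diagonalizable `TK`, so it is
  diagonalizable and nilpotent, so `0`. (Or: the minimal polynomial of `T γ` becomes the one of `TK`,
  which has different roots: squarefree; `Module.End.isSemisimple_iff_...minpoly`.)
* `noExotic_of_detects`: take the `MRep` of `exists_coord` for a basis `b`, `Full0` by `full_coord`, a `Pack` by `exists_pack`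
  (`coord_semi`, `real_coord`), `transfer` and `main_W`. `TW γ` is semisimple (its eigenspaces span: for `w`, `ι w` is a sum of
  eigenvectors `y` of `M`, and `w = π ι w` the sum of the `π y`, which are eigenvectors of `TW γ` or zero; `TK` is diagonalizable because
  `T γ` is semisimple, see `isSemisimple_baseChange`, `exists_eigen_of_semisimple` in `Four/General.lean`), so there is a basis
  `e` of eigenvectors (`exists_eigen_of_semisimple`). `Z = {v | IsoTy ρ γ (lam v)}`. `hsimple`: `iso_simple` and linear
  independence. `hiso`: `IsoTy` and `eig_W`; `algebraMap (R.μ γ) = algebraMap ((ρ.χ γ)⁻¹)`, `(x^2)^N = x^(2 N)`.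
  `hCen`: let `c` on `W` commute with `TW γ'`, `γ' ∈ U`, and vanish on `e u`, `u ∈ Z`. Then `c' = ι c π` (matrices) is in `InCK`; it
  vanishes on the isolated eigenspaces: `M y = z y` implies `G (π y) = z (π y)`, and `π y` is a multiple of the `e u` with
  `lam u = z` (if `π y ≠ 0` such `u` exists as `z` is an eigenvalue of `TW γ`, and `iso_simple`). So `c' = 0` by `DetectsTy` and
  `c = π c' ι = 0`.
-/

set_option autoImplicit false

namespace Pool.Agent.Lib.MP_640417_ag.Ty

open Matrix Module TensorProduct Pool.Agent.Lib.MP_640417_ag Pool.Agent.Lib.MP_640417_ag.Frob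
  Pool.Agent.Lib.MP_640417_ag.Glob Pool.Agent.Lib.MP_640417_ag.Four

variable {F : Type} [NontriviallyNormedField F] [CharZero F]
  {Γ : Type} [Group Γ] [TopologicalSpace Γ] {V : Type} [AddCommGroup V] [Module F V]
  [FiniteDimensional F V] (ρ : H1Rep Γ F V)

omit [CharZero F] in
private theorem detect_inj (c : Module.End F V) (h : c.baseChange (AlgebraicClosure F) = 0) :
    c = 0 := by
  have h1 : maK (Module.finBasis F V) (c.baseChange (AlgebraicClosure F)) = 0 :=
    (maK_zero_iff _ _).mpr h
  rw [maK_base] at h1
  apply (LinearMap.toMatrix (Module.finBasis F V) (Module.finBasis F V)).injective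
  rw [map_zero]
  ext i j
  have h2 := congrFun (congrFun h1 i) j
  rw [Matrix.map_apply, Matrix.zero_apply] at h2
  rw [Matrix.zero_apply]
  exact (map_eq_zero (algebraMap F (AlgebraicClosure F))).mp h2

omit [CharZero F] [FiniteDimensional F V] in
private theorem detect_mul (a b : Module.End F V) :
    (a * b).baseChange (AlgebraicClosure F) =
      a.baseChange (AlgebraicClosure F) * b.baseChange (AlgebraicClosure F) :=
  LinearMap.baseChange_comp _ _

theorem detects_of_good {γ : Γ} (h : GoodTy ρ γ) : DetectsTy ρ γ := by
  obtain ⟨h1, h2⟩ := h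
  set TK : Module.End (AlgebraicClosure F) (AlgebraicClosure F ⊗[F] V) :=
    (ρ.T γ).baseChange (AlgebraicClosure F) with hTK
  have hle : ∀ z, Module.End.eigenspace TK z ≤ Module.End.maxGenEigenspace TK z := fun z =>
    Module.End.eigenspace_le_maxGenEigenspace
  have hgen : ∀ z, Module.End.maxGenEigenspace TK z = Module.End.eigenspace TK z := by
    intro z
    by_cases hz : Module.End.HasEigenvalue TK z
    · rcases (h2 z hz).1 (Module.End.eigenspace TK z) (hle z) (by
        intro c hc y hy
        rw [Module.End.mem_eigenspace_iff] at hy ⊢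
        have e1 : TK * c.baseChange (AlgebraicClosure F) =
            c.baseChange (AlgebraicClosure F) * TK := by
          rw [hTK, ← detect_mul, ← detect_mul, h1 c hc]
        have e2 := congrArg (fun f : Module.End (AlgebraicClosure F) _ => f y) e1
        have e3 : TK (c.baseChange (AlgebraicClosure F) y) =
            c.baseChange (AlgebraicClosure F) (TK y) := e2
        rw [e3, hy, map_smul]) with h3 | h3
      · exact absurd h3 hz
      · exact h3.symm
    · have h3 : Module.End.eigenspace TK z = ⊥ := by
        by_contra h4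
        exact hz h4
      rw [h3]
      by_contra h4
      apply hz
      have h5 := Module.End.hasUnifEigenvalue_iff_hasUnifEigenvalue_one
        (f := TK) (μ := z) (k := ⊤) (by simp)
      exact h5.mp h4
  have htop : ⨆ z, Module.End.eigenspace TK z = ⊤ := by
    have h3 := Module.End.iSup_maxGenEigenspace_eq_top TK
    simp only [hgen] at h3
    exact h3
  refine ⟨h1, ?_, ?_⟩
  · obtain ⟨n, hn, s, _, hnil, hs, hf⟩ := (ρ.T γ).exists_isNilpotent_isSemisimple
    suffices h3 : n = 0 by
      rw [hf, h3, zero_add]
      exact hs
    apply detect_inj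
    rw [Algebra.adjoin_singleton_eq_range_aeval] at hn
    obtain ⟨q, hq⟩ := hn
    have hqK : n.baseChange (AlgebraicClosure F) = Polynomial.aeval TK q := by
      have h4 : Polynomial.aeval TK q =
          (Module.End.baseChangeHom F (AlgebraicClosure F) V) (Polynomial.aeval (ρ.T γ) q) :=
        Polynomial.aeval_algHom_apply (Module.End.baseChangeHom F (AlgebraicClosure F) V)
          (ρ.T γ) q
      rw [h4, ← hq]
      rfl
    have hnilK : IsNilpotent (n.baseChange (AlgebraicClosure F) :
        Module.End (AlgebraicClosure F) (AlgebraicClosure F ⊗[F] V)) :=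
      hnil.map (Module.End.baseChangeHom F (AlgebraicClosure F) V)
    have h5 : LinearMap.ker (n.baseChange (AlgebraicClosure F)) = ⊤ := by
      rw [eq_top_iff, ← htop]
      refine iSup_le fun z => ?_
      intro y hy
      rw [LinearMap.mem_ker]
      by_cases hy0 : y = 0
      · rw [hy0, map_zero]
      · have h6 : (n.baseChange (AlgebraicClosure F)) y =
            Polynomial.aeval z q • y := by
          rw [hqK]
          have h7 : Polynomial.aeval TK q =
              Polynomial.aeval TK (q.map (algebraMap F (AlgebraicClosure F))) := by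
            rw [Polynomial.aeval_map_algebraMap]
          rw [h7, Module.End.aeval_apply_of_hasEigenvector (μ := z) ⟨hy, hy0⟩,
            Polynomial.eval_map, Polynomial.aeval_def]
        obtain ⟨k, hk⟩ := hnilK
        have h8 : ∀ m : ℕ, ((n.baseChange (AlgebraicClosure F) :
            Module.End (AlgebraicClosure F) (AlgebraicClosure F ⊗[F] V)) ^ m) y =
            (Polynomial.aeval z q) ^ m • y := by
          intro m
          induction m with
          | zero => simp
          | succ m ih =>
            rw [pow_succ', Module.End.mul_apply, ih, map_smul, h6, smul_smul, pow_succ]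
        have h9 := h8 k
        rw [hk, LinearMap.zero_apply] at h9
        have h10 : Polynomial.aeval z q ^ k = 0 := (smul_eq_zero.mp h9.symm).resolve_right hy0
        have h11 : IsNilpotent (Polynomial.aeval z q) := ⟨k, h10⟩
        rw [h6, h11.eq_zero, zero_smul]
    exact LinearMap.ker_eq_top.mp h5
  · intro c _ hc0
    apply LinearMap.ker_eq_top.mp
    rw [eq_top_iff, ← htop]
    refine iSup_le fun z => ?_
    intro y hy
    rw [LinearMap.mem_ker]
    by_cases hz : Module.End.HasEigenvalue TK z
    · exact hc0 z (h2 z hz) y hy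
    · have h3 : Module.End.eigenspace TK z = ⊥ := by
        by_contra h4
        exact hz h4
      rw [h3, Submodule.mem_bot] at hy
      rw [hy, map_zero]

/-- intertwining a polynomial -/
private theorem detect_aeval {K V W : Type} [Field K] [AddCommGroup V] [Module K V]
    [AddCommGroup W] [Module K W] (T : Module.End K V) (S : Module.End K W) (L : W →ₗ[K] V)
    (h : ∀ w, T (L w) = L (S w)) (p : Polynomial K) (w : W) :
    Polynomial.aeval T p (L w) = L (Polynomial.aeval S p w) := by
  have hpow : ∀ (n : ℕ) (w : W), (T ^ n) (L w) = L ((S ^ n) w) := by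
    intro n
    induction n with
    | zero => intro w; simp
    | succ n ih =>
      intro w
      rw [pow_succ, pow_succ, Module.End.mul_apply, Module.End.mul_apply, h, ih]
  induction p using Polynomial.induction_on' with
  | add p q hp hq =>
    rw [map_add, map_add, LinearMap.add_apply, LinearMap.add_apply, hp, hq, map_add]
  | monomial n a =>
    rw [Polynomial.aeval_monomial, Polynomial.aeval_monomial]
    simp only [Module.algebraMap_end_eq_smul_id, Module.End.mul_apply, LinearMap.smul_apply,
      LinearMap.id_apply, hpow, map_smul]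

private theorem detect_semi {K V W : Type} [Field K] [AddCommGroup V] [Module K V]
    [AddCommGroup W] [Module K W] [FiniteDimensional K V] (T : Module.End K V)
    (S : Module.End K W) (L : W →ₗ[K] V) (h : ∀ w, T (L w) = L (S w))
    (hL : Function.Injective L) (hT : T.IsSemisimple) : S.IsSemisimple := by
  apply Module.End.isSemisimple_of_squarefree_aeval_eq_zero hT.minpoly_squarefree
  refine LinearMap.ext fun w => hL ?_
  rw [← detect_aeval T S L h, minpoly.aeval, LinearMap.zero_apply, LinearMap.zero_apply, map_zero]

theorem noExotic_of_detects [IsTopologicalGroup Γ] [CompactSpace Γ] (hsemi : Semisimple ρ)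
    (hr : RealType ρ) (hfull : ∀ c, CommF ρ c → ∀ γ, c * ρ.T γ = ρ.T γ * c) {γ : Γ}
    (h : DetectsTy ρ γ) : NoExotic ρ := by
  classical
  let b := Module.finBasis F V
  obtain ⟨R, h1, h2, h3⟩ := exists_coord ρ b
  have hf : Full0 R := full_coord ρ b R h1 hfull
  obtain ⟨P⟩ := exists_pack R (AlgebraicClosure F) (coord_semi ρ b R h1 hsemi)
    (real_coord ρ b R h1 h3 hr)
  apply transfer ρ b R h1 h2 P hf
  intro n i x hx
  -- intertwining relations
  have hι : ∀ γ, (R.M γ).map (algebraMap F (AlgebraicClosure F)) * P.ι =
      P.ι * (P.π * (R.M γ).map (algebraMap F (AlgebraicClosure F)) * P.ι) := by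
    intro γ
    have e1 := inCK_full R (AlgebraicClosure F) hf P.inC γ
    calc (R.M γ).map (algebraMap F (AlgebraicClosure F)) * P.ι =
        (R.M γ).map (algebraMap F (AlgebraicClosure F)) * (P.ι * (P.π * P.ι)) := by
          rw [P.πι, Matrix.mul_one]
      _ = ((R.M γ).map (algebraMap F (AlgebraicClosure F)) * (P.ι * P.π)) * P.ι := by
          simp only [Matrix.mul_assoc]
      _ = (P.ι * P.π * (R.M γ).map (algebraMap F (AlgebraicClosure F))) * P.ι := by rw [e1]
      _ = _ := by simp only [Matrix.mul_assoc]
  have hπ : ∀ γ, P.π * (R.M γ).map (algebraMap F (AlgebraicClosure F)) =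
      (P.π * (R.M γ).map (algebraMap F (AlgebraicClosure F)) * P.ι) * P.π := by
    intro γ
    have e1 := inCK_full R (AlgebraicClosure F) hf P.inC γ
    calc P.π * (R.M γ).map (algebraMap F (AlgebraicClosure F)) =
        (P.π * P.ι) * P.π * (R.M γ).map (algebraMap F (AlgebraicClosure F)) := by
          rw [P.πι, Matrix.one_mul]
      _ = P.π * (P.ι * P.π * (R.M γ).map (algebraMap F (AlgebraicClosure F))) := by
          simp only [Matrix.mul_assoc]
      _ = P.π * ((R.M γ).map (algebraMap F (AlgebraicClosure F)) * (P.ι * P.π)) := by rw [e1]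
      _ = _ := by simp only [Matrix.mul_assoc]
  have hTWa : ∀ γ w, TW P hf γ w =
      (P.π * (R.M γ).map (algebraMap F (AlgebraicClosure F)) * P.ι) *ᵥ w := fun γ w => rfl
  -- `TW γ` is semisimple
  have hss : (TW P hf γ).IsSemisimple := by
    have hK := isSemisimple_baseChange (AlgebraicClosure F) (ρ.T γ) h.2.1
    let L : (Fin P.m ⊕ Fin P.m → AlgebraicClosure F) →ₗ[AlgebraicClosure F]
        (AlgebraicClosure F ⊗[F] V) := (coK b).symm.toLinearMap ∘ₗ Matrix.toLin' P.ι
    have hL : ∀ w, L w = (coK b).symm (P.ι *ᵥ w) := fun w => rfl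
    refine detect_semi _ _ L ?_ ?_ hK
    · intro w
      apply (coK b).injective
      rw [coK_T ρ b R h1, hL, hL, LinearEquiv.apply_symm_apply, LinearEquiv.apply_symm_apply,
        hTWa, Matrix.mulVec_mulVec, Matrix.mulVec_mulVec, hι]
    · intro w w' hw
      rw [hL, hL] at hw
      have e3 := congrArg (fun y => P.π *ᵥ y) ((coK b).symm.injective hw)
      simpa only [Matrix.mulVec_mulVec, P.πι, Matrix.one_mulVec] using e3
  obtain ⟨A, hA1, hA2, e, lam, he⟩ := exists_eigen_of_semisimple (TW P hf γ) hss
  have heig : ∀ a, Module.End.HasEigenvalue ((ρ.T γ).baseChange (AlgebraicClosure F)) (lam a) :=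
    fun a => eig_W ρ b R h1 P hf γ (lam a) (e a) (e.ne_zero a) (he a)
  have hμ : algebraMap F (AlgebraicClosure F) (R.μ γ : F) =
      algebraMap F (AlgebraicClosure F) ((ρ.χ γ)⁻¹ : Fˣ).val := by
    rw [h2]
    rfl
  refine main_W P hf (coord_semi ρ b R h1 hsemi) γ e lam he
    (Finset.univ.filter fun v => IsoTy ρ γ (lam v)) ?_ ?_ ?_ n i x hx
  · intro u hu v hv
    have hu' := (Finset.mem_filter.mp hu).2
    by_contra hne
    obtain ⟨t, ht⟩ := iso_simple ρ b R h1 P hf γ (lam u) hu' (e u) (e v) (e.ne_zero u) (he u)
      (by rw [he v, hv])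
    have e1 := congrArg (fun y => e.repr y v) ht
    simp only [map_smul, Basis.repr_self, Finsupp.smul_apply, Finsupp.single_eq_same] at e1
    rw [Finsupp.single_eq_of_ne hne, smul_zero] at e1
    exact one_ne_zero e1
  · intro u hu a b' c N hN hrel
    have hu' := (Finset.mem_filter.mp hu).2
    rw [hμ] at hrel ⊢
    exact hu'.2 (lam a) (lam b') (lam c) (heig a) (heig b') (heig c) N hN
      (by rw [hrel, ← pow_mul])
  · intro U c hc1 hc2
    set C : Matrix (Fin P.m ⊕ Fin P.m) (Fin P.m ⊕ Fin P.m) (AlgebraicClosure F) :=
      LinearMap.toMatrix' c with hC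
    have hCc : ∀ w, C *ᵥ w = c w := fun w => by
      rw [hC, ← Matrix.toLin'_apply, Matrix.toLin'_toMatrix']
    have hCG : ∀ γ' ∈ U, C * (P.π * (R.M γ').map (algebraMap F (AlgebraicClosure F)) * P.ι) =
        (P.π * (R.M γ').map (algebraMap F (AlgebraicClosure F)) * P.ι) * C := by
      intro γ' hγ'
      apply Matrix.toLin'.injective
      rw [Matrix.toLin'_mul C _, Matrix.toLin'_mul _ C, hC, Matrix.toLin'_toMatrix']
      exact hc1 γ' hγ'
    obtain ⟨c1, hc3⟩ := maK_surj b (P.ι * C * P.π)
    have hcomm : CommK ρ c1 := by
      rw [commK_iff ρ b R h1, hc3]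
      refine ⟨U, fun γ' hγ' => ?_⟩
      calc (R.M γ').map (algebraMap F (AlgebraicClosure F)) * (P.ι * C * P.π) =
          ((R.M γ').map (algebraMap F (AlgebraicClosure F)) * P.ι) * C * P.π := by
            simp only [Matrix.mul_assoc]
        _ = P.ι * ((P.π * (R.M γ').map (algebraMap F (AlgebraicClosure F)) * P.ι) * C) *
            P.π := by
            rw [hι]
            simp only [Matrix.mul_assoc]
        _ = P.ι * (C * (P.π * (R.M γ').map (algebraMap F (AlgebraicClosure F)) * P.ι)) *
            P.π := by rw [hCG γ' hγ']
        _ = P.ι * C * ((P.π * (R.M γ').map (algebraMap F (AlgebraicClosure F)) * P.ι) *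
            P.π) := by simp only [Matrix.mul_assoc]
        _ = P.ι * C * (P.π * (R.M γ').map (algebraMap F (AlgebraicClosure F))) := by
            rw [← hπ]
        _ = _ := by simp only [Matrix.mul_assoc]
    have hc10 : c1 = 0 := by
      apply h.2.2 c1 hcomm
      intro z hz y hy
      rw [Module.End.mem_eigenspace_iff] at hy
      apply (coK b).injective
      rw [coK_end, hc3, map_zero, ← Matrix.mulVec_mulVec, ← Matrix.mulVec_mulVec, hCc]
      have hw : TW P hf γ (P.π *ᵥ coK b y) = z • (P.π *ᵥ coK b y) := by
        rw [hTWa, Matrix.mulVec_mulVec, ← hπ, ← Matrix.mulVec_mulVec, ← coK_T ρ b R h1, hy,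
          map_smul, Matrix.mulVec_smul]
      generalize P.π *ᵥ coK b y = w at hw ⊢
      have hcw : c w = 0 := by
        have e1 : ∀ u, e.repr w u • c (e u) = 0 := by
          intro u
          by_cases hu : lam u = z
          · rw [hc2 u (Finset.mem_filter.mpr ⟨Finset.mem_univ _, by rw [hu]; exact hz⟩),
              smul_zero]
          · have e2 : e.repr (TW P hf γ w) u = lam u * e.repr w u := by
              conv_lhs => rw [← e.sum_repr w]
              rw [map_sum, map_sum, Finsupp.finsetSum_apply, Finset.sum_eq_single u]
              · rw [map_smul, he, map_smul, map_smul, Finsupp.smul_apply, Finsupp.smul_apply,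
                  Basis.repr_self, Finsupp.single_eq_same, smul_eq_mul, smul_eq_mul, mul_one,
                  mul_comm]
              · intro v _ hv
                rw [map_smul, he, map_smul, map_smul, Finsupp.smul_apply, Finsupp.smul_apply,
                  Basis.repr_self, Finsupp.single_eq_of_ne (Ne.symm hv), smul_zero, smul_zero]
              · intro h'; exact absurd (Finset.mem_univ _) h'
            rw [hw, map_smul, Finsupp.smul_apply, smul_eq_mul] at e2
            have e3 : (z - lam u) * e.repr w u = 0 := by rw [sub_mul, e2, sub_self]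
            have e4 : z - lam u ≠ 0 := sub_ne_zero.mpr (Ne.symm hu)
            rw [(mul_eq_zero.mp e3).resolve_left e4, zero_smul]
        rw [← e.sum_repr w, map_sum]
        refine Finset.sum_eq_zero fun u _ => ?_
        rw [map_smul]
        exact e1 u
      rw [hcw, Matrix.mulVec_zero]
    have hz0 : P.ι * C * P.π = 0 := by
      rw [← hc3]
      exact (maK_zero_iff b c1).mpr hc10
    have hC0 : C = 0 := by
      calc C = (P.π * P.ι) * C * (P.π * P.ι) := by rw [P.πι, Matrix.one_mul, Matrix.mul_one]
        _ = P.π * (P.ι * C * P.π) * P.ι := by simp only [Matrix.mul_assoc]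
        _ = 0 := by rw [hz0, Matrix.mul_zero, Matrix.zero_mul]
    refine LinearMap.ext fun w => ?_
    rw [← hCc, hC0, Matrix.zero_mulVec, LinearMap.zero_apply]

end Pool.Agent.Lib.MP_640417_ag.Ty
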