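import Pool.Agent.Lib.MP_640417_ag.Ty.RegK
import Pool.Agent.Lib.MP_640417_ag.Ty.OpenK
import Pool.Agent.Lib.MP_640417_ag.Four.General

/-!
# MP_640417_ag, Ty, module MainW (250 lines): the main theorem for W

`TW P γ = toLin' (π (M γ).map ι)` on `Fin m ⊕ Fin m → K`, a representation (`TW`: the `(M γ).map` commute with `ι π` by
`Full0` and `inCK_full`, `π ι = 1`). Apply `mainK` of `Four/MainK.lean` (with `pRankTwo pSemi pOpen pDarboux` as in
`Four/General.lean`) to `TW`, `χ' = (Units.map (algebraMap F K)).comp ρ.μ⁻¹`, the form `Matrix.toBilin' (Matrix.of (om K))`: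
* `hclosed`: `f (TW γ x)` is a `K`-linear combination of the entries of `M γ`: the complement of the zero set is the preimage
  under `ρ.M` of an open set by `open_ne` (a linear polynomial; or use `closed_baseChange`-like arguments).
* `heq`: `ιᵀ (Mᵀ J M) ι = μ ιᵀ J ι` and `M ι = ι (π M ι)`.
* `htr`: `W` is semisimple: let `N` be stable under all `TW γ`; `N' = ι N ⊆ K^I` is stable under all `(M γ).map`; `proj_all` gives
  `p` commuting with all `M γ`, onto `N'`; `p' = π p ι` commutes with `TW γ`, maps to `N`, is the identity on `N`; the complement is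
  the kernel of `p'`. Then `pTrace : STrace` for the field `K`.
* `hcen`: let `S` be skew for `om` and commute with `TW γ`, `γ ∈ U`. `ι S π` is in `InCK` (`π M = (π M ι) π`,
  `M ι = ι (π M ι)`), so by `P.comm` `S = π (ι S π) ι = diagonal (w (blk a))`; skew: `w (blk a) om a b + w (blk b) om a b = 0`, for
  `b = a.swap` this is `2 w (blk a) om a a.swap = 0`, so `S = 0` (`om_ne` in `Glob/Joint.lean`), and `Dv n 0 x = 0`.
-/

set_option autoImplicit false

namespace Pool.Agent.Lib.MP_640417_ag.Ty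

open Matrix Module Pool.Agent.Lib.MP_640417_ag Pool.Agent.Lib.MP_640417_ag.Glob
  Pool.Agent.Lib.MP_640417_ag.Four

variable {Γ : Type} [Group Γ] [TopologicalSpace Γ]
  {F : Type} [NontriviallyNormedField F] [CharZero F] {I : Type} [Fintype I] [DecidableEq I]
  {ρ : MRep Γ F I} {K : Type} [Field K] [Algebra F K]

theorem W_iota (P : Pack ρ K) (hfull : Full0 ρ) (γ : Γ) :
    (ρ.M γ).map (algebraMap F K) * P.ι =
      P.ι * (P.π * (ρ.M γ).map (algebraMap F K) * P.ι) := by
  have h1 := inCK_full ρ K hfull P.inC γ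
  calc (ρ.M γ).map (algebraMap F K) * P.ι
      = (ρ.M γ).map (algebraMap F K) * (P.ι * (P.π * P.ι)) := by rw [P.πι, Matrix.mul_one]
    _ = ((ρ.M γ).map (algebraMap F K) * (P.ι * P.π)) * P.ι := by simp only [Matrix.mul_assoc]
    _ = ((P.ι * P.π) * (ρ.M γ).map (algebraMap F K)) * P.ι := by rw [h1]
    _ = P.ι * (P.π * (ρ.M γ).map (algebraMap F K) * P.ι) := by simp only [Matrix.mul_assoc]

theorem W_pi (P : Pack ρ K) (hfull : Full0 ρ) (γ : Γ) :
    P.π * (ρ.M γ).map (algebraMap F K) =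
      (P.π * (ρ.M γ).map (algebraMap F K) * P.ι) * P.π := by
  have h1 := inCK_full ρ K hfull P.inC γ
  calc P.π * (ρ.M γ).map (algebraMap F K)
      = ((P.π * P.ι) * P.π) * (ρ.M γ).map (algebraMap F K) := by rw [P.πι, Matrix.one_mul]
    _ = P.π * ((P.ι * P.π) * (ρ.M γ).map (algebraMap F K)) := by simp only [Matrix.mul_assoc]
    _ = P.π * ((ρ.M γ).map (algebraMap F K) * (P.ι * P.π)) := by rw [h1]
    _ = (P.π * (ρ.M γ).map (algebraMap F K) * P.ι) * P.π := by simp only [Matrix.mul_assoc]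

/-- the representation on `W` -/
noncomputable def TW (P : Pack ρ K) (hfull : Full0 ρ) :
    Γ →* Module.End K (Fin P.m ⊕ Fin P.m → K) where
  toFun γ := Matrix.toLin' (P.π * (ρ.M γ).map (algebraMap F K) * P.ι)
  map_one' := by
    rw [map_one, Matrix.map_one _ (map_zero _) (map_one _), Matrix.mul_one, P.πι,
      Matrix.toLin'_one]
    rfl
  map_mul' := by
    intro γ δ
    have h1 : P.π * (ρ.M (γ * δ)).map (algebraMap F K) * P.ι =
        (P.π * (ρ.M γ).map (algebraMap F K) * P.ι) *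
          (P.π * (ρ.M δ).map (algebraMap F K) * P.ι) := by
      rw [map_mul, Matrix.map_mul]
      conv_lhs => rw [← Matrix.mul_assoc, W_pi P hfull γ]
      simp only [Matrix.mul_assoc]
    rw [h1, Matrix.toLin'_mul]
    rfl

variable (ρ K) in
/-- the cyclotomic character with values in `K` -/
noncomputable def chiK : Γ →* Kˣ := (Units.map (algebraMap F K : F →* K)).comp ρ.μ⁻¹

theorem TW_apply (P : Pack ρ K) (hfull : Full0 ρ) (γ : Γ) (x : Fin P.m ⊕ Fin P.m → K) :
    TW P hfull γ x = (P.π * (ρ.M γ).map (algebraMap F K) * P.ι) *ᵥ x := rfl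

theorem chiK_inv (γ : Γ) : ((chiK ρ K γ)⁻¹ : Kˣ).val = algebraMap F K (ρ.μ γ : F) := by
  rw [chiK, MonoidHom.comp_apply, MonoidHom.inv_apply, map_inv, inv_inv, Units.coe_map]
  rfl

theorem om_skew {m : ℕ} (a b : Fin m ⊕ Fin m) : om K a b = - om K b a := by
  rcases a with i | i <;> rcases b with j | j
  · exact neg_zero.symm
  · show (if i = j then (1 : K) else 0) = - (if j = i then (-1 : K) else 0)
    by_cases h : i = j
    · rw [if_pos h, if_pos h.symm, neg_neg]
    · rw [if_neg h, if_neg (Ne.symm h), neg_zero]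
  · show (if i = j then (-1 : K) else 0) = - (if j = i then (1 : K) else 0)
    by_cases h : i = j
    · rw [if_pos h, if_pos h.symm]
    · rw [if_neg h, if_neg (Ne.symm h), neg_zero]
  · exact neg_zero.symm

theorem form_single {m : ℕ} (x : Fin m ⊕ Fin m → K) (a : Fin m ⊕ Fin m) :
    Matrix.toBilin' (Matrix.of (om K)) x (Pi.single a.swap 1) = x a * om K a a.swap := by
  rw [Matrix.toBilin'_apply', Matrix.mulVec_single_one, dotProduct, Finset.sum_eq_single a]
  · rfl
  · intro b _ hb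
    have h1 : om K b a.swap = 0 := om_swap b a.swap fun h => hb
      (Sum.swap_rightInverse.injective h).symm
    show x b * om K b a.swap = 0
    rw [h1, mul_zero]
  · intro h
    exact absurd (Finset.mem_univ a) h

theorem form_W_alt [CharZero K] {m : ℕ} (x : Fin m ⊕ Fin m → K) :
    Matrix.toBilin' (Matrix.of (om K)) x x = 0 := by
  rw [Matrix.toBilin'_apply']
  have h1 : x ⬝ᵥ Matrix.of (om K) *ᵥ x = - (x ⬝ᵥ Matrix.of (om K) *ᵥ x) := by
    conv_lhs => rw [Matrix.dotProduct_mulVec, dotProduct_comm]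
    have h2 : x ᵥ* Matrix.of (om K) = - (Matrix.of (om K) *ᵥ x) := by
      ext a
      rw [Pi.neg_apply, Matrix.vecMul, Matrix.mulVec, dotProduct, dotProduct,
        ← Finset.sum_neg_distrib]
      refine Finset.sum_congr rfl fun b _ => ?_
      show x b * om K b a = - (om K a b * x b)
      rw [om_skew b a]
      ring
    rw [h2, dotProduct_neg]
  have h3 : (2 : K) * (x ⬝ᵥ Matrix.of (om K) *ᵥ x) = 0 := by
    linear_combination h1
  exact (mul_eq_zero.mp h3).resolve_left two_ne_zero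

theorem form_W_nondeg {m : ℕ} (x : Fin m ⊕ Fin m → K)
    (h : ∀ y, Matrix.toBilin' (Matrix.of (om K)) x y = 0) : x = 0 := by
  ext a
  have h1 := h (Pi.single a.swap 1)
  rw [form_single] at h1
  exact (mul_eq_zero.mp h1).resolve_right (om_ne a)

theorem form_W_eq (P : Pack ρ K) (hfull : Full0 ρ) (γ : Γ) (x y : Fin P.m ⊕ Fin P.m → K) :
    Matrix.toBilin' (Matrix.of (om K)) (TW P hfull γ x) (TW P hfull γ y) =
      algebraMap F K (ρ.μ γ : F) * Matrix.toBilin' (Matrix.of (om K)) x y := by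
  set M' := (ρ.M γ).map (algebraMap F K) with hM'
  set J' := ρ.J.map (algebraMap F K) with hJ'
  have h2 : M'ᵀ * J' * M' = algebraMap F K (ρ.μ γ : F) • J' := by
    rw [hM', hJ', ← Matrix.transpose_map, ← Matrix.map_mul, ← Matrix.map_mul, ρ.eq γ]
    ext i j
    simp
  have h3 : (P.π * M' * P.ι)ᵀ * Matrix.of (om K) * (P.π * M' * P.ι) =
      algebraMap F K (ρ.μ γ : F) • Matrix.of (om K) := by
    rw [← P.form]
    calc (P.π * M' * P.ι)ᵀ * (P.ιᵀ * J' * P.ι) * (P.π * M' * P.ι)
        = (P.ι * (P.π * M' * P.ι))ᵀ * J' * (P.ι * (P.π * M' * P.ι)) := by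
          rw [Matrix.transpose_mul P.ι]
          simp only [Matrix.mul_assoc]
      _ = P.ιᵀ * (M'ᵀ * J' * M') * P.ι := by
          rw [hM', ← W_iota P hfull γ, Matrix.transpose_mul]
          simp only [Matrix.mul_assoc]
      _ = algebraMap F K (ρ.μ γ : F) • (P.ιᵀ * J' * P.ι) := by
          rw [h2, Matrix.mul_smul, Matrix.smul_mul]
  rw [TW_apply, TW_apply, Matrix.toBilin'_apply', Matrix.toBilin'_apply', ← hM',
    Matrix.mulVec_mulVec, ← Matrix.vecMul_transpose, ← Matrix.dotProduct_mulVec,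
    Matrix.mulVec_mulVec, ← Matrix.mul_assoc, h3, Matrix.smul_mulVec, dotProduct_smul, smul_eq_mul]

theorem closed_W (P : Pack ρ K) (hfull : Full0 ρ) (f : Module.Dual K (Fin P.m ⊕ Fin P.m → K))
    (x : Fin P.m ⊕ Fin P.m → K) : IsClosed {γ : Γ | f (TW P hfull γ x) = 0} := by
  let g : Matrix I I K →ₗ[K] K :=
    { toFun := fun Y => f ((P.π * Y * P.ι) *ᵥ x)
      map_add' := fun Y Z => by
        rw [Matrix.mul_add, Matrix.add_mul, Matrix.add_mulVec, map_add]
      map_smul' := fun c Y => by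
        rw [Matrix.mul_smul, Matrix.smul_mul, Matrix.smul_mulVec, map_smul]
        rfl }
  let p : MvPolynomial (I × I) K :=
    ∑ i, ∑ j, MvPolynomial.X (i, j) * MvPolynomial.C (g (Matrix.single i j 1))
  have hp : ∀ γ, MvPolynomial.eval (fun ij : I × I => algebraMap F K (ρ.M γ ij.1 ij.2)) p =
      f (TW P hfull γ x) := by
    intro γ
    have h1 : f (TW P hfull γ x) = g ((ρ.M γ).map (algebraMap F K)) := rfl
    have h2 : (ρ.M γ).map (algebraMap F K) =
        ∑ i, ∑ j, algebraMap F K (ρ.M γ i j) • Matrix.single i j (1 : K) := by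
      conv_lhs => rw [Matrix.matrix_eq_sum_single ((ρ.M γ).map (algebraMap F K))]
      refine Finset.sum_congr rfl fun i _ => Finset.sum_congr rfl fun j _ => ?_
      rw [Matrix.smul_single, smul_eq_mul, mul_one, Matrix.map_apply]
    rw [h1, h2, map_sum]
    simp only [map_sum, map_smul, map_mul, MvPolynomial.eval_X, MvPolynomial.eval_C,
      smul_eq_mul]
  have hcont : Continuous fun γ : Γ => fun ij : I × I => ρ.M γ ij.1 ij.2 :=
    continuous_pi fun ij => ρ.cont.matrix_elem ij.1 ij.2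
  have h3 := (open_ne p).preimage hcont
  rw [← isOpen_compl_iff]
  refine Eq.subst ?_ h3
  ext γ
  show MvPolynomial.eval (fun ij : I × I => algebraMap F K (ρ.M γ ij.1 ij.2)) p ≠ 0 ↔
    ¬ (f (TW P hfull γ x) = 0)
  rw [hp]

/-- `W` is semisimple. -/
theorem semi_W [IsTopologicalGroup Γ] [CompactSpace Γ] (P : Pack ρ K) (hfull : Full0 ρ)
    (hsemi : ρ.Semi) (N : Submodule K (Fin P.m ⊕ Fin P.m → K))
    (hN : ∀ γ, ∀ y ∈ N, TW P hfull γ y ∈ N) :
    ∃ N' : Submodule K (Fin P.m ⊕ Fin P.m → K), (∀ γ, ∀ y ∈ N', TW P hfull γ y ∈ N') ∧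
      IsCompl N N' := by
  obtain ⟨p, hp1, hp2, hp3⟩ := proj_all ρ K hsemi (N.map (Matrix.toLin' P.ι)) (by
    rintro γ _ ⟨y, hy, rfl⟩
    refine ⟨TW P hfull γ y, hN γ y hy, ?_⟩
    rw [Matrix.toLin'_apply, Matrix.toLin'_apply, TW_apply, Matrix.mulVec_mulVec,
      Matrix.mulVec_mulVec, W_iota P hfull γ])
  have hmem : ∀ y, (P.π * p * P.ι) *ᵥ y ∈ N := by
    intro y
    obtain ⟨z, hz, hzy⟩ := hp2 (P.ι *ᵥ y)
    rw [Matrix.toLin'_apply] at hzy
    rw [← Matrix.mulVec_mulVec, ← Matrix.mulVec_mulVec, ← hzy, Matrix.mulVec_mulVec, P.πι,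
      Matrix.one_mulVec]
    exact hz
  have hid : ∀ y ∈ N, (P.π * p * P.ι) *ᵥ y = y := by
    intro y hy
    rw [← Matrix.mulVec_mulVec, ← Matrix.mulVec_mulVec, hp3 _ ⟨y, hy, Matrix.toLin'_apply _ _⟩,
      Matrix.mulVec_mulVec, P.πι, Matrix.one_mulVec]
  have hcomm : ∀ γ, (P.π * (ρ.M γ).map (algebraMap F K) * P.ι) * (P.π * p * P.ι) =
      (P.π * p * P.ι) * (P.π * (ρ.M γ).map (algebraMap F K) * P.ι) := by
    intro γ
    calc (P.π * (ρ.M γ).map (algebraMap F K) * P.ι) * (P.π * p * P.ι)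
        = ((P.π * (ρ.M γ).map (algebraMap F K) * P.ι) * P.π) * p * P.ι := by
          simp only [Matrix.mul_assoc]
      _ = P.π * ((ρ.M γ).map (algebraMap F K) * p) * P.ι := by
          rw [← W_pi P hfull γ]
          simp only [Matrix.mul_assoc]
      _ = P.π * p * ((ρ.M γ).map (algebraMap F K) * P.ι) := by
          rw [hp1]
          simp only [Matrix.mul_assoc]
      _ = (P.π * p * P.ι) * (P.π * (ρ.M γ).map (algebraMap F K) * P.ι) := by
          rw [W_iota P hfull γ]
          simp only [Matrix.mul_assoc]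
  let q : (Fin P.m ⊕ Fin P.m → K) →ₗ[K] N :=
    (Matrix.toLin' (P.π * p * P.ι)).codRestrict N fun y => hmem y
  refine ⟨LinearMap.ker q, ?_, LinearMap.isCompl_of_proj fun y => Subtype.ext (hid y.1 y.2)⟩
  intro γ y hy
  rw [LinearMap.mem_ker] at hy ⊢
  have h1 : (P.π * p * P.ι) *ᵥ y = 0 := congrArg Subtype.val hy
  refine Subtype.ext ?_
  show (P.π * p * P.ι) *ᵥ (TW P hfull γ y) = 0
  rw [TW_apply, Matrix.mulVec_mulVec, ← hcomm, ← Matrix.mulVec_mulVec, h1, Matrix.mulVec_zero]

/-- Skew endomorphisms of `W` which commute with an open subgroup are zero. -/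
theorem skew_W [CharZero K] (P : Pack ρ K) (hfull : Full0 ρ) (U : OpenSubgroup Γ)
    (S : Module.End K (Fin P.m ⊕ Fin P.m → K))
    (hskew : Skew (Matrix.toBilin' (Matrix.of (om K))) S)
    (hS : ∀ γ ∈ U, S * TW P hfull γ = TW P hfull γ * S) : S = 0 := by
  set s : Matrix (Fin P.m ⊕ Fin P.m) (Fin P.m ⊕ Fin P.m) K := LinearMap.toMatrix' S with hs
  have hsS : Matrix.toLin' s = S := Matrix.toLin'_toMatrix' S
  have hcomm : ∀ γ ∈ U, s * (P.π * (ρ.M γ).map (algebraMap F K) * P.ι) =
      (P.π * (ρ.M γ).map (algebraMap F K) * P.ι) * s := by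
    intro γ hγ
    apply Matrix.toLin'.injective
    have h1 : Matrix.toLin' (s * (P.π * (ρ.M γ).map (algebraMap F K) * P.ι)) =
        S * TW P hfull γ := by
      rw [Matrix.toLin'_mul s, hsS]
      rfl
    have h2 : Matrix.toLin' ((P.π * (ρ.M γ).map (algebraMap F K) * P.ι) * s) =
        TW P hfull γ * S := by
      rw [Matrix.toLin'_mul _ s, hsS]
      rfl
    rw [h1, h2]
    exact hS γ hγ
  have hin : InCK ρ K (P.ι * s * P.π) := by
    refine ⟨U, fun γ hγ => ?_⟩
    calc (ρ.M γ).map (algebraMap F K) * (P.ι * s * P.π)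
        = ((ρ.M γ).map (algebraMap F K) * P.ι) * s * P.π := by simp only [Matrix.mul_assoc]
      _ = P.ι * ((P.π * (ρ.M γ).map (algebraMap F K) * P.ι) * s) * P.π := by
          rw [W_iota P hfull γ]
          simp only [Matrix.mul_assoc]
      _ = P.ι * s * ((P.π * (ρ.M γ).map (algebraMap F K) * P.ι) * P.π) := by
          rw [← hcomm γ hγ]
          simp only [Matrix.mul_assoc]
      _ = (P.ι * s * P.π) * (ρ.M γ).map (algebraMap F K) := by
          rw [← W_pi P hfull γ]
          simp only [Matrix.mul_assoc]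
  obtain ⟨w, hw⟩ := P.comm _ hin
  have hdiag : s = Matrix.diagonal fun a => w (blk P.bl a) := by
    rw [← hw]
    calc s = (P.π * P.ι) * s * (P.π * P.ι) := by rw [P.πι, Matrix.one_mul, Matrix.mul_one]
      _ = P.π * (P.ι * s * P.π) * P.ι := by simp only [Matrix.mul_assoc]
  have hSe : ∀ a : Fin P.m ⊕ Fin P.m, S (Pi.single a 1) = Pi.single a (w (blk P.bl a)) := by
    intro a
    rw [← hsS, hdiag, Matrix.toLin'_apply]
    ext b
    rw [Matrix.mulVec_single_one]
    show Matrix.diagonal (fun a => w (blk P.bl a)) b a = _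
    by_cases h : b = a
    · subst h
      rw [Matrix.diagonal_apply_eq, Pi.single_eq_same]
    · rw [Matrix.diagonal_apply_ne _ h, Pi.single_eq_of_ne h]
  have hw0 : ∀ a : Fin P.m ⊕ Fin P.m, w (blk P.bl a) = 0 := by
    intro a
    have h1 := hskew (Pi.single a 1) (Pi.single a.swap 1)
    have h2 : blk P.bl a.swap = blk P.bl a := by
      rcases a with i | i <;> rfl
    have h3 : (Pi.single a.swap (w (blk P.bl a)) : Fin P.m ⊕ Fin P.m → K) =
        w (blk P.bl a) • Pi.single a.swap 1 := by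
      rw [← Pi.single_smul, smul_eq_mul, mul_one]
    rw [hSe, hSe, h2, h3, map_smul, form_single, form_single, Pi.single_eq_same,
      Pi.single_eq_same, smul_eq_mul, one_mul] at h1
    have h4 : (2 * om K a a.swap) * w (blk P.bl a) = 0 := by linear_combination h1
    exact (mul_eq_zero.mp h4).resolve_left (mul_ne_zero two_ne_zero (om_ne a))
  rw [← hsS, hdiag]
  have h5 : (Matrix.diagonal fun a => w (blk P.bl a)) =
      (0 : Matrix (Fin P.m ⊕ Fin P.m) (Fin P.m ⊕ Fin P.m) K) := by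
    rw [show (fun a => w (blk P.bl a)) = fun _ => (0 : K) from funext hw0, Matrix.diagonal_zero]
  rw [h5, map_zero]

theorem main_W [IsAlgClosed K] [IsTopologicalGroup Γ] [CompactSpace Γ] (P : Pack ρ K)
    (hfull : Full0 ρ) (hsemi : ρ.Semi) (φ : Γ) {A : Type} [Fintype A] [DecidableEq A]
    (e : Basis A K (Fin P.m ⊕ Fin P.m → K)) (lam : A → K)
    (hφ : ∀ v, TW P hfull φ (e v) = lam v • e v) (Z : Finset A)
    (hsimple : ∀ u ∈ Z, ∀ v, lam v = lam u → v = u)
    (hiso : ∀ u ∈ Z, ∀ a b c, ∀ N : ℕ, 0 < N →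
      (lam u * lam a * lam b * lam c) ^ N = (algebraMap F K (ρ.μ φ : F) ^ 2) ^ N →
      lam u * lam a = algebraMap F K (ρ.μ φ : F) ∨ lam u * lam b = algebraMap F K (ρ.μ φ : F) ∨
        lam u * lam c = algebraMap F K (ρ.μ φ : F))
    (hCen : ∀ (U : OpenSubgroup Γ) (c : Module.End K (Fin P.m ⊕ Fin P.m → K)),
      (∀ γ ∈ U, c * TW P hfull γ = TW P hfull γ * c) → (∀ u ∈ Z, c (e u) = 0) → c = 0)
    (n i : ℕ) (x : ExteriorAlgebra K (Fin n → (Fin P.m ⊕ Fin P.m → K)))
    (hx : TateClass (fun γ => (TW P hfull γ).compLeft (Fin n)) (chiK ρ K) i x) :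
    x ∈ divisorAlg (fun γ => (TW P hfull γ).compLeft (Fin n)) (chiK ρ K) := by
  have hcharK : CharZero K := charZero_of_injective_algebraMap (algebraMap F K).injective
  refine mainK pRankTwo pSemi pOpen pDarboux (form := Matrix.toBilin' (Matrix.of (om K)))
    (TW P hfull) (chiK ρ K) (closed_W P hfull) form_W_alt form_W_nondeg ?_ ?_ φ e lam hφ Z
    hsimple ?_ hCen n i x hx ?_
  · intro γ x y
    rw [chiK_inv]
    exact form_W_eq P hfull γ x y
  · intro S hS htr
    exact pTrace Γ K _ (TW P hfull) (semi_W P hfull hsemi) S hS htr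
  · intro u hu a b c N hN h
    rw [chiK_inv] at h ⊢
    exact hiso u hu a b c N hN h
  · intro U S hskew hcomm
    rw [skew_W P hfull U S hskew hcomm, Dv_zero, LinearMap.zero_apply]

end Pool.Agent.Lib.MP_640417_ag.Ty
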