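import Pool.Agent.Lib.MP_640417_ag.Ty.Defs

/-!
# MP_640417_ag, Ty, module PackA (200 lines): symplectic bases adapted to symmetric idempotents (linear algebra)

`e = ∑ j, p j` is a symmetric idempotent, `W = range e` (a submodule of `K^I`, as a `K`-vector space), with the
restriction of the form `x ⬝ᵥ J *ᵥ y`: alternating; nondegenerate: if `x ∈ W` is orthogonal to `W` it is orthogonal to
`y = e y + (1 - e) y` for all `y` (`(x, (1 - e) y) = ((1 - e) x, y) = 0`), so `x = 0`. The `p j` preserve `W`, are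
self-adjoint, orthogonal idempotents with sum `1` on `W`. Apply `SDarboux` to `W` with `B = Fin n`, `st = id`: `e_i`, `f_i`,
`b_i`, `i < m`. Let `ι` be the matrix with columns `e_i` (index `inl i`), `f_i` (index `inr i`), `bl = b`. Then
`ιᵀ J ι = om`. Let `Ω` be the matrix `om` (`Ωᵀ = -Ω`, `Ω * Ω = -1`, so `Ω⁻¹ = -Ω`), `π = Ω⁻¹ ιᵀ J`. `π ι = 1`. `ι π` is the
identity on `W` (which is spanned by the columns of `ι`) and kills the orthogonal complement of `W`, so does `e`, so
`ι π = e` (write `y = e y + (1 - e) y`). `p b ι = ι (diagonal (if blk bl a = b ..))` as `p (b i) e_i = e_i` and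
`p b p b' = 0`; multiply with `π`: `p b ι π = p b e = p b`.
-/

set_option autoImplicit false

namespace Pool.Agent.Lib.MP_640417_ag.Ty

open Matrix Module Pool.Agent.Lib.MP_640417_ag.Glob

private lemma om_sq {K : Type} [Field K] {m : ℕ} :
    (Matrix.of (om K) : Matrix (Fin m ⊕ Fin m) (Fin m ⊕ Fin m) K) * Matrix.of (om K) = -1 := by
  ext (i | i) (j | j)
  · simp [Matrix.mul_apply, Fintype.sum_sum_type, om, Matrix.one_apply]
  · simp [Matrix.mul_apply, Fintype.sum_sum_type, om]
  · simp [Matrix.mul_apply, Fintype.sum_sum_type, om]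
  · by_cases h : i = j <;> simp [Matrix.mul_apply, Fintype.sum_sum_type, om, h]

private lemma form_anti {K : Type} [Field K] {I : Type} [Fintype I] {J : Matrix I I K}
    (halt : ∀ v : I → K, v ⬝ᵥ (J *ᵥ v) = 0) (x y : I → K) :
    x ⬝ᵥ (J *ᵥ y) = -(y ⬝ᵥ (J *ᵥ x)) := by
  have h1 := halt (x + y)
  rw [Matrix.mulVec_add, add_dotProduct, dotProduct_add, dotProduct_add, halt x, halt y] at h1
  linear_combination h1

theorem exists_W (hD : Pool.Agent.Lib.MP_640417_ag.Four.SDarboux) {K : Type} [Field K]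
    [CharZero K] {I : Type} [Fintype I] [DecidableEq I] (J : Matrix I I K)
    (halt : ∀ v : I → K, v ⬝ᵥ (J *ᵥ v) = 0) (hdet : J.det ≠ 0) {n : ℕ}
    (p : Fin n → Matrix I I K) (h1 : ∀ j, p j * p j = p j) (h2 : ∀ j k, j ≠ k → p j * p k = 0)
    (h3 : ∀ j, (p j)ᵀ * J = J * p j) :
    ∃ (m : ℕ) (bl : Fin m → Fin n) (ι : Matrix I (Fin m ⊕ Fin m) K)
      (π : Matrix (Fin m ⊕ Fin m) I K), π * ι = 1 ∧ ιᵀ * J * ι = Matrix.of (om K) ∧
      ι * π = ∑ j, p j ∧
      ∀ b, ι * Matrix.diagonal (fun a => if blk bl a = b then (1 : K) else 0) * π = p b := by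
  classical
  set E : Matrix I I K := ∑ j, p j with hE
  have hpE : ∀ j, p j * E = p j := by
    intro j
    rw [hE, Finset.mul_sum, Finset.sum_eq_single j]
    · exact h1 j
    · intro k _ hk
      exact h2 j k hk.symm
    · intro h
      exact absurd (Finset.mem_univ _) h
  have hEp : ∀ j, E * p j = p j := by
    intro j
    rw [hE, Finset.sum_mul, Finset.sum_eq_single j]
    · exact h1 j
    · intro k _ hk
      exact h2 k j hk
    · intro h
      exact absurd (Finset.mem_univ _) h
  have hEE : E * E = E := by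
    conv_lhs => rw [hE]
    rw [Finset.sum_mul]
    exact Finset.sum_congr rfl fun j _ => hpE j
  have hEs : Eᵀ * J = J * E := by
    rw [hE, Matrix.transpose_sum, Finset.sum_mul, Finset.mul_sum]
    exact Finset.sum_congr rfl fun j _ => h3 j
  have hsym : ∀ (q : Matrix I I K), qᵀ * J = J * q → ∀ x y : I → K,
      (q *ᵥ x) ⬝ᵥ (J *ᵥ y) = x ⬝ᵥ (J *ᵥ (q *ᵥ y)) := by
    intro q hq x y
    rw [Matrix.mulVec_mulVec, ← hq, ← Matrix.mulVec_mulVec, Matrix.dotProduct_mulVec x,
      Matrix.vecMul_transpose]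
  let W : Submodule K (I → K) := LinearMap.range (Matrix.toLin' E)
  have hWE : ∀ x ∈ W, E *ᵥ x = x := by
    rintro x ⟨y, rfl⟩
    rw [Matrix.toLin'_apply, Matrix.mulVec_mulVec, hEE]
  have hW : ∀ x, E *ᵥ x = x → x ∈ W := fun x hx => ⟨x, by rw [Matrix.toLin'_apply, hx]⟩
  have hWp : ∀ b x, p b *ᵥ x ∈ W := by
    intro b x
    apply hW
    rw [Matrix.mulVec_mulVec, hEp]
  let form : LinearMap.BilinForm K W := (Matrix.toBilin' J).restrict W
  have hform : ∀ x y : W, form x y = (x : I → K) ⬝ᵥ (J *ᵥ (y : I → K)) := by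
    intro x y
    change Matrix.toBilin' J (x : I → K) (y : I → K) = _
    rw [Matrix.toBilin'_apply']
  let pW : Fin n → Module.End K W := fun b =>
    (Matrix.toLin' (p b)).restrict (p := W) (q := W) fun x _ => by
      rw [Matrix.toLin'_apply]
      exact hWp b x
  have hpW : ∀ b (x : W), ((pW b x : W) : I → K) = p b *ᵥ (x : I → K) := fun b x => rfl
  obtain ⟨m, e, f, bf, he, hf, hef, hee, hff, hspan⟩ := hD K W form
    (fun x => by rw [hform]; exact halt x) (by
      intro x hx
      apply Subtype.ext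
      have h4 : ∀ y : I → K, (x : I → K) ⬝ᵥ (J *ᵥ y) = 0 := by
        intro y
        have h5 := hx ⟨E *ᵥ y, ⟨y, rfl⟩⟩
        rw [hform] at h5
        change (x : I → K) ⬝ᵥ (J *ᵥ (E *ᵥ y)) = 0 at h5
        rw [← hsym E hEs, hWE x x.2] at h5
        exact h5
      have h6 : (x : I → K) ᵥ* J = 0 := by
        funext k
        have h7 := h4 (Pi.single k 1)
        rw [Matrix.dotProduct_mulVec, dotProduct_single, mul_one] at h7
        exact h7
      exact Matrix.eq_zero_of_vecMul_eq_zero hdet h6) (Fin n) id pW (fun _ => rfl) (by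
      apply LinearMap.ext
      intro x
      apply Subtype.ext
      rw [LinearMap.sum_apply, Submodule.coe_sum]
      simp only [hpW]
      rw [← Matrix.sum_mulVec, ← hE]
      exact hWE x x.2) (by
      intro b
      apply LinearMap.ext
      intro x
      apply Subtype.ext
      rw [Module.End.mul_apply, hpW, hpW, Matrix.mulVec_mulVec, h1]) (by
      intro b b' hb
      apply LinearMap.ext
      intro x
      apply Subtype.ext
      rw [Module.End.mul_apply, hpW, hpW, Matrix.mulVec_mulVec, h2 b b' hb, Matrix.zero_mulVec]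
      rfl) (by
      intro b x y
      rw [hform, hform, hpW]
      exact hsym (p b) (h3 b) _ _)
  let v : Fin m ⊕ Fin m → I → K := Sum.elim (fun i => (e i : I → K)) (fun i => (f i : I → K))
  have hvW : ∀ a, v a ∈ W := by
    rintro (i | i)
    · exact (e i).2
    · exact (f i).2
  have hvf : ∀ a b, v a ⬝ᵥ (J *ᵥ v b) = om K a b := by
    rintro (i | i) (j | j)
    · have := hee i j
      rw [hform] at this
      exact this
    · have := hef i j
      rw [hform] at this
      exact this
    · have := hef j i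
      rw [hform] at this
      change (f i : I → K) ⬝ᵥ (J *ᵥ (e j : I → K)) = if i = j then (-1 : K) else 0
      rw [form_anti halt, this]
      by_cases hij : i = j
      · rw [if_pos hij, if_pos hij.symm]
      · rw [if_neg hij, if_neg (fun h => hij h.symm), neg_zero]
    · have := hff i j
      rw [hform] at this
      exact this
  have hpv : ∀ b a, p b *ᵥ v a = if blk bf a = b then v a else 0 := by
    have key : ∀ (i : Fin m) (w : I → K), p (bf i) *ᵥ w = w → ∀ b,
        p b *ᵥ w = if bf i = b then w else 0 := by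
      intro i w hw b
      by_cases hb : bf i = b
      · rw [if_pos hb, ← hb, hw]
      · rw [if_neg hb, ← hw, Matrix.mulVec_mulVec, h2 b (bf i) (fun h => hb h.symm),
          Matrix.zero_mulVec]
    intro b
    rintro (i | i)
    · exact key i (e i : I → K) (by
        have := congrArg (Subtype.val) (he i)
        rwa [hpW] at this) b
    · exact key i (f i : I → K) (by
        have := congrArg (Subtype.val) (hf i)
        rwa [id, hpW] at this) b
  let ι : Matrix I (Fin m ⊕ Fin m) K := Matrix.of fun x a => v a x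
  have hιc : ∀ (q : Matrix I I K) x a, (q * ι) x a = (q *ᵥ v a) x := fun q x a => rfl
  have hgram : ιᵀ * J * ι = Matrix.of (om K) := by
    ext a b
    rw [Matrix.mul_assoc, Matrix.of_apply, ← hvf a b]
    rfl
  let Ω : Matrix (Fin m ⊕ Fin m) (Fin m ⊕ Fin m) K := Matrix.of (om K)
  let R : Matrix (Fin m ⊕ Fin m) I K := ιᵀ * J
  have hRι : R * ι = Ω := hgram
  let π : Matrix (Fin m ⊕ Fin m) I K := -(Ω * R)
  have hπι : π * ι = 1 := by
    have h4 : Ω * Ω = -1 := om_sq
    change -(Ω * R) * ι = 1
    rw [Matrix.neg_mul, Matrix.mul_assoc, hRι, h4, neg_neg]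
  have hEι : E * ι = ι := by
    ext x a
    rw [hιc, hWE _ (hvW a)]
    rfl
  have hπE : π * E = π := by
    have h4 : R * E = R := by
      change ιᵀ * J * E = ιᵀ * J
      rw [Matrix.mul_assoc, ← hEs, ← Matrix.mul_assoc ιᵀ, ← Matrix.transpose_mul, hEι]
    change -(Ω * R) * E = -(Ω * R)
    rw [Matrix.neg_mul, Matrix.mul_assoc, h4]
  have hon : ∀ x ∈ W, (ι * π) *ᵥ x = x := by
    have h4 : (Matrix.toLin' (ι * π)) ∘ₗ W.subtype = W.subtype := by
      refine LinearMap.ext_on hspan ?_
      have h5 : ∀ a, (ι * π) *ᵥ v a = v a := by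
        intro a
        have h6 : v a = ι *ᵥ Pi.single a 1 := by
          rw [Matrix.mulVec_single_one]
          rfl
        rw [h6, Matrix.mulVec_mulVec, Matrix.mul_assoc, hπι, Matrix.mul_one]
      rintro x (⟨i, rfl⟩ | ⟨i, rfl⟩)
      · exact h5 (Sum.inl i)
      · exact h5 (Sum.inr i)
    intro x hx
    exact LinearMap.congr_fun h4 ⟨x, hx⟩
  have hιπ : ι * π = E := by
    have h4 : ι * π * E = E := by
      apply Matrix.toLin'.injective
      apply LinearMap.ext
      intro x
      rw [Matrix.toLin'_apply, Matrix.toLin'_apply, ← Matrix.mulVec_mulVec]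
      exact hon _ ⟨x, rfl⟩
    rw [Matrix.mul_assoc, hπE] at h4
    exact h4
  refine ⟨m, bf, ι, π, hπι, hgram, hιπ, ?_⟩
  intro b
  have h4 : ι * Matrix.diagonal (fun a => if blk bf a = b then (1 : K) else 0) = p b * ι := by
    ext x a
    rw [Matrix.mul_diagonal, hιc, hpv]
    change v a x * (if blk bf a = b then (1 : K) else 0) = (if blk bf a = b then v a else 0) x
    by_cases hb : blk bf a = b
    · rw [if_pos hb, if_pos hb, mul_one]
    · rw [if_neg hb, if_neg hb, mul_zero]
      rfl
  rw [h4, Matrix.mul_assoc, hιπ, hpE]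

end Pool.Agent.Lib.MP_640417_ag.Ty
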